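import Mathlib
import Pool.Agent.Lib.MP_a0554b_an.E1
import Pool.Agent.Lib.MP_a0554b_an.L0
import Pool.Agent.Lib.MP_a0554b_an.B1

set_option autoImplicit false

/-!
# Unconditional block-homogeneous spaces: definitions

`X` is a Banach space with a Schauder basis `b`.
-/

noncomputable section

namespace Pool.Agent.Lib.MP_a0554b_an.P

open Filter Topology
open Pool.Agent.Lib.MP_a0554b_an

universe u v w

variable {𝕜 : Type v} [RCLike 𝕜] {X : Type u} [NormedAddCommGroup X] [NormedSpace 𝕜 X]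

/-- The closed linear span of a set. -/
def cs (𝕜 : Type v) [RCLike 𝕜] {X : Type u} [NormedAddCommGroup X] [NormedSpace 𝕜 X]
    (S : Set X) : Submodule 𝕜 X :=
  (Submodule.span 𝕜 S).topologicalClosure

theorem closedSpan_eq_cs (y : ℕ → X) : closedSpan 𝕜 y = cs 𝕜 (Set.range y) := rfl

theorem cs_isClosed (S : Set X) : IsClosed (cs 𝕜 S : Set X) :=
  Submodule.isClosed_topologicalClosure _

theorem subset_cs (S : Set X) : S ⊆ cs 𝕜 S := fun _ hx =>
  (Submodule.span 𝕜 S).le_topologicalClosure (Submodule.subset_span hx)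

theorem cs_le {S : Set X} {M : Submodule 𝕜 X} (hM : IsClosed (M : Set X)) (h : S ⊆ M) :
    cs 𝕜 S ≤ M :=
  Submodule.topologicalClosure_minimal _ (Submodule.span_le.2 h) hM

theorem cs_mono {S S' : Set X} (h : S ⊆ S') : cs 𝕜 S ≤ cs 𝕜 S' :=
  cs_le (cs_isClosed S') (h.trans (subset_cs S'))

/-- The basis is unconditional: every expansion converges unconditionally. -/
def Unconditional (b : SchauderBasis 𝕜 X) : Prop :=
  ∀ x : X, Summable fun n => b.coord n x • b n

/-- The basis is shrinking. -/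
def Shrinking (b : SchauderBasis 𝕜 X) : Prop :=
  ∀ f : X →L[𝕜] 𝕜,
    Tendsto (fun n : ℕ => ‖f ∘L (ContinuousLinearMap.id 𝕜 X - b.proj n)‖) atTop (𝓝 0)

/-- Every series with bounded partial sums converges. -/
def BoundedlyComplete (b : SchauderBasis 𝕜 X) : Prop :=
  ∀ a : ℕ → 𝕜, (∃ M : ℝ, ∀ n, ‖∑ i ∈ Finset.range n, a i • b i‖ ≤ M) →
    ∃ x, Tendsto (fun n => ∑ i ∈ Finset.range n, a i • b i) atTop (𝓝 x)

theorem BoundedlyComplete.upTo {b : SchauderBasis 𝕜 X} (h : BoundedlyComplete b) :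
    BoundedlyCompleteUpTo b 0 := by
  refine ⟨fun _ _ => 0, fun a ha => ?_⟩
  obtain ⟨x, hx⟩ := h a ha
  exact ⟨fun _ => 0, x, by simpa using hx⟩

/-- `C`-equivalent sequences. -/
def Equi (𝕜 : Type v) [RCLike 𝕜] {X : Type u} [NormedAddCommGroup X] [NormedSpace 𝕜 X]
    (C : ℝ) (y z : ℕ → X) : Prop :=
  ∀ (N : ℕ) (a : ℕ → 𝕜),
    ‖∑ i ∈ Finset.range N, a i • y i‖ ≤ C * ‖∑ i ∈ Finset.range N, a i • z i‖ ∧
    ‖∑ i ∈ Finset.range N, a i • z i‖ ≤ C * ‖∑ i ∈ Finset.range N, a i • y i‖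

/-- `y` is a block sequence of `b` with vectors in the linear span of the sequence `y'`. -/
structure BlockOf (b : SchauderBasis 𝕜 X) (y' y : ℕ → X) : Prop where
  isBlock : IsBlock b y
  mem : ∀ k, y k ∈ Submodule.span 𝕜 (Set.range y')

/-- The support of `x` is before the support of `y`. -/
def Lt (b : SchauderBasis 𝕜 X) (x y : X) : Prop :=
  ∀ m n, b.coord m x ≠ 0 → b.coord n y ≠ 0 → m < n

/-- A countable family of nonzero vectors of finite support, with vectors arbitrarily far out. -/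
structure Fam (b : SchauderBasis 𝕜 X) (v : ℕ → X) : Prop where
  ne_zero : ∀ i, v i ≠ 0
  finite : ∀ i, {n | b.coord n (v i) ≠ 0}.Finite
  far : ∀ m, ∃ i, ∀ n, b.coord n (v i) ≠ 0 → m ≤ n

/-- Finite block sequences with vectors from the family `v`. -/
def Adm (b : SchauderBasis 𝕜 X) (v : ℕ → X) (l : List ℕ) : Prop :=
  l.Pairwise fun i j => Lt b (v i) (v j)

/-- Infinite block sequences with vectors from the family `v`. -/
def AdmSeq (b : SchauderBasis 𝕜 X) (v : ℕ → X) (z : ℕ → ℕ) : Prop :=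
  ∀ k, Lt b (v (z k)) (v (z (k + 1)))

/-- The first `k` terms of a sequence. -/
def pre (z : ℕ → ℕ) (k : ℕ) : List ℕ := (List.range k).map z

/-- The identity of `X` factors with constant `K` through `M ≤ N`: `A : X → N` has values in `M`,
`B : N → X`, `B ∘ A = 1`. -/
def Fac (K : ℝ) (M N : Submodule 𝕜 X) : Prop :=
  ∃ (A : X →L[𝕜] N) (B : N →L[𝕜] X), (∀ x, B (A x) = x) ∧ (∀ x, (A x : X) ∈ M) ∧
    (∀ x, ‖A x‖ ≤ K * ‖x‖) ∧ ∀ x, ‖B x‖ ≤ K * ‖x‖

/-- The same with `N = X`. -/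
def FacX (K : ℝ) (M : Submodule 𝕜 X) : Prop :=
  ∃ A B : X →L[𝕜] X, (∀ x, B (A x) = x) ∧ (∀ x, A x ∈ M) ∧
    (∀ x, ‖A x‖ ≤ K * ‖x‖) ∧ ∀ x, ‖B x‖ ≤ K * ‖x‖

/-- Data obtained from the Baire category theorem: a finite block sequence `s` and predicates
`O n` on finite block sequences (`O n l` : the cylinder of `l` is contained in the `n`-th dense
open set). -/
structure BData (b : SchauderBasis 𝕜 X) (v : ℕ → X) (s : List ℕ) (O : ℕ → List ℕ → Prop) :
    Prop where
  adm : Adm b v s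
  dense : ∀ n l, Adm b v l → s <+: l → ∃ l', l <+: l' ∧ Adm b v l' ∧ O n l'
  mono : ∀ n l l', l <+: l' → O n l → O n l'

/-- `z` is an infinite block sequence which starts with `s` and is in all the dense open sets. -/
def Gen (b : SchauderBasis 𝕜 X) (v : ℕ → X) (s : List ℕ) (O : ℕ → List ℕ → Prop) (z : ℕ → ℕ) :
    Prop :=
  AdmSeq b v z ∧ pre z s.length = s ∧ ∀ n, ∃ k, O n (pre z k)

theorem pre_length (z : ℕ → ℕ) (k : ℕ) : (pre z k).length = k := by
  simp [pre]

theorem Lt.trans {b : SchauderBasis 𝕜 X} {x y z : X} (hy : y ≠ 0) (h : Lt b x y) (h' : Lt b y z) :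
    Lt b x z := by
  intro m n hm hn
  obtain ⟨k, hk⟩ := E1_exists_coord_ne (b := b) hy
  exact (h m k hm hk).trans (h' k n hk hn)

theorem AdmSeq.isBlock {b : SchauderBasis 𝕜 X} {v : ℕ → X} (hv : Fam b v) {z : ℕ → ℕ}
    (hz : AdmSeq b v z) : IsBlock b (fun k => v (z k)) where
  ne_zero := fun k => hv.ne_zero _
  finite := fun k => hv.finite _
  lt := fun k => hz k

theorem AdmSeq.lt {b : SchauderBasis 𝕜 X} {v : ℕ → X} (hv : Fam b v) {z : ℕ → ℕ}
    (hz : AdmSeq b v z) {i j : ℕ} (h : i < j) : Lt b (v (z i)) (v (z j)) := by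
  induction j, h using Nat.le_induction with
  | base => exact hz i
  | succ j _ ih => exact ih.trans (hv.ne_zero _) (hz j)

theorem AdmSeq.adm_pre {b : SchauderBasis 𝕜 X} {v : ℕ → X} (hv : Fam b v) {z : ℕ → ℕ}
    (hz : AdmSeq b v z) (k : ℕ) : Adm b v (pre z k) := by
  unfold Adm pre
  rw [List.pairwise_map]
  exact List.pairwise_lt_range.imp fun h => hz.lt hv h

theorem pre_prefix (z : ℕ → ℕ) {k l : ℕ} (h : k ≤ l) : pre z k <+: pre z l := by
  refine ⟨((List.range' k (l - k)).map z), ?_⟩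
  unfold pre
  rw [← List.map_append]
  congr 1
  rw [List.range_eq_range', List.range_eq_range']
  have h1 := List.range'_append_1 (s := 0) (m := k) (n := l - k)
  rwa [zero_add, Nat.add_sub_cancel' h] at h1

theorem FacX.toFac {K : ℝ} {M N : Submodule 𝕜 X} (hMN : M ≤ N) (h : FacX K M) : Fac K M N := by
  obtain ⟨A, B, h1, h2, h3, h4⟩ := h
  exact ⟨A.codRestrict N fun x => hMN (h2 x), B ∘L N.subtypeL, fun x => h1 x, fun x => h2 x,
    fun x => h3 x, fun x => h4 x⟩

theorem FacX.mono {K K' : ℝ} {M M' : Submodule 𝕜 X} (hM : M ≤ M') (hK : K ≤ K')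
    (h : FacX K M) : FacX K' M' := by
  obtain ⟨A, B, h1, h2, h3, h4⟩ := h
  exact ⟨A, B, h1, fun x => hM (h2 x),
    fun x => (h3 x).trans (mul_le_mul_of_nonneg_right hK (norm_nonneg _)),
    fun x => (h4 x).trans (mul_le_mul_of_nonneg_right hK (norm_nonneg _))⟩

end Pool.Agent.Lib.MP_a0554b_an.P
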