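import Mathlib
import Pool.Agent.Lib.MP_a0554b_an.P.Defs
set_option autoImplicit false

/-!
# Limits of vectors of variable block subspaces
-/

noncomputable section

namespace Pool.Agent.Lib.MP_a0554b_an.P

open Filter Topology Set
open scoped ENNReal
open Pool.Agent.Lib.MP_a0554b_an

universe u v w

variable {𝕜 : Type v} [RCLike 𝕜] {X : Type u} [NormedAddCommGroup X] [NormedSpace 𝕜 X]

/-- PROOF. `y k = v (z k)` is a block sequence (`AdmSeq.isBlock`); take its cut points `e`
(`IsBlock.exists_cut`, file E1). Fix `k`. For all large `n`, `zs n i = z i` for `i ≤ k`. Then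
`b.proj (e k) (v (zs n i))` is `v (z i)` for `i < k` and `0` for `i ≥ k`: for `i = k` the support of
`v (zs n k) = v (z k)` is in `[e k, ∞)`; for `i > k` the support of `v (zs n i)` is after the one
of `v (zs n k) = v (z k)` (`AdmSeq.lt`), which is nonempty. By `E1_mem_of_forall` (with
`A = b.proj (e k)`, `s = Iio k`, applied to the sequence `fun i => v (zs n i)`; its image of `Iio k`
is the image of `Iio k` under `y`) `b.proj (e k) (t n) ∈ span (y '' Iio k)`, a finite dimensional, hence
closed subspace. Let `n → ∞`: `b.proj (e k) t' ∈ span (y '' Iio k) ≤ closedSpan y`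
(`span_image_le`). Let `k → ∞`: `b.proj (e k) t' → t'` (`SchauderBasis.tendsto_proj`,
`e` strictly monotone), and `closedSpan` is closed. -/
theorem mem_closedSpan_of_tendsto (b : SchauderBasis 𝕜 X) (v : ℕ → X) (hv : Fam b v)
    {zs : ℕ → ℕ → ℕ} {z : ℕ → ℕ} (hzs : ∀ n, AdmSeq b v (zs n)) (hz : AdmSeq b v z)
    (hlim : ∀ k, ∀ᶠ n in atTop, zs n k = z k) {t : ℕ → X} {t' : X}
    (ht : ∀ n, t n ∈ closedSpan 𝕜 (fun k => v (zs n k))) (htl : Tendsto t atTop (𝓝 t')) :
    t' ∈ closedSpan 𝕜 (fun k => v (z k)) := by
  obtain ⟨e, he⟩ := (hz.isBlock hv).exists_cut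
  have key : ∀ k, b.proj (e k) t' ∈ closedSpan 𝕜 (fun k => v (z k)) := by
    intro k
    haveI : FiniteDimensional 𝕜 (Submodule.span 𝕜 ((fun i => v (z i)) '' Set.Iio k)) :=
      FiniteDimensional.span_of_finite 𝕜 ((Set.finite_Iio k).image _)
    have hc : IsClosed ((Submodule.span 𝕜 ((fun i => v (z i)) '' Set.Iio k) : Submodule 𝕜 X) :
        Set X) := Submodule.closed_of_finiteDimensional _
    have hev : ∀ᶠ n in atTop, ∀ i ∈ Set.Iic k, zs n i = z i :=
      (Filter.eventually_all_finite (Set.finite_Iic k)).2 fun i _ => hlim i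
    have hmem : ∀ᶠ n in atTop,
        b.proj (e k) (t n) ∈ Submodule.span 𝕜 ((fun i => v (z i)) '' Set.Iio k) := by
      filter_upwards [hev] with n hn
      have himg : (fun i => v (zs n i)) '' Set.Iio k = (fun i => v (z i)) '' Set.Iio k := by
        refine Set.image_congr fun i hi => ?_
        rw [hn i (Set.mem_Iic.2 (le_of_lt hi))]
      rw [← himg]
      refine E1_mem_of_forall (y := fun i => v (zs n i)) (b.proj (e k)) (Set.finite_Iio k)
        (fun i => ?_) (ht n)
      show b.proj (e k) (v (zs n i)) ∈ _
      rcases lt_trichotomy i k with hik | hik | hik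
      · have h1 := he.proj_apply k i
        rw [if_pos hik] at h1
        rw [hn i (Set.mem_Iic.2 hik.le), h1]
        exact Submodule.subset_span ⟨i, hik, by
          show v (zs n i) = v (z i)
          rw [hn i (Set.mem_Iic.2 hik.le)]⟩
      · have h1 := he.proj_apply k i
        rw [if_neg (by omega)] at h1
        rw [hn i (Set.mem_Iic.2 hik.le), h1]
        exact Submodule.zero_mem _
      · have h2 : b.proj (e k) (v (zs n i)) = 0 := by
          rw [SchauderBasis.proj_apply]
          refine Finset.sum_eq_zero fun m hm => ?_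
          have h3 : b.coord m (v (zs n i)) = 0 := by
            by_contra h4
            obtain ⟨m0, hm0⟩ := E1_exists_coord_ne (b := b) (hv.ne_zero (z k))
            have h5 := (he.supp k m0 hm0).1
            have h6 : Lt b (v (zs n k)) (v (zs n i)) := (hzs n).lt hv hik
            rw [hn k (Set.mem_Iic.2 le_rfl)] at h6
            have h7 := h6 m0 m hm0 h4
            have h8 := Finset.mem_range.1 hm
            omega
          rw [h3, zero_smul]
        rw [h2]
        exact Submodule.zero_mem _
    have hlimt : Tendsto (fun n => b.proj (e k) (t n)) atTop (𝓝 (b.proj (e k) t')) :=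
      ((b.proj (e k)).continuous.tendsto t').comp htl
    exact span_image_le (Set.Iio k) (hc.mem_of_tendsto hlimt hmem)
  have hT : Tendsto (fun k => b.proj (e k) t') atTop (𝓝 t') :=
    (SchauderBasis.tendsto_proj b t').comp he.mono.tendsto_atTop
  exact (closedSpan_isClosed (𝕜 := 𝕜) (fun k => v (z k))).mem_of_tendsto hT
    (Filter.Eventually.of_forall key)

end Pool.Agent.Lib.MP_a0554b_an.P
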