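import Mathlib
import Pool.Agent.Lib.MP_a0554b_an.P.Defs
set_option autoImplicit false

/-!
# Being isomorphic to a closed span, by inequalities
-/

noncomputable section

namespace Pool.Agent.Lib.MP_a0554b_an.P

open Filter Topology Set
open scoped ENNReal
open Pool.Agent.Lib.MP_a0554b_an

universe u v w

variable {𝕜 : Type v} [RCLike 𝕜] {X : Type u} [NormedAddCommGroup X] [NormedSpace 𝕜 X]

/-- PROOF. From left to right: `t i = T (b i)`, `x k = T⁻¹ (y k)`;
`∑ c i • t i = T (∑ c i • b i)`, and
`y k - ∑_{i < N} b.coord i (x k) • t i = T (x k - b.proj N (x k))` (`SchauderBasis.proj_apply`).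
From right to left: for `x : X` the sums `∑_{i < N} b.coord i x • t i` are Cauchy (apply the first
inequality with `c i = b.coord i x` for `i ≥ M` and `0` for `i < M`: the norm of the difference
of the sums to `N` and to `M` is at most `K * ‖b.proj N x - b.proj M x‖`); let `T x` be the limit. `T` is
linear, `‖T x‖ ≤ K * ‖x‖`, `‖x‖ ≤ K * ‖T x‖` (limits of the two inequalities for
`c i = b.coord i x`), `T x ∈ closedSpan y`, and `T (x k) = y k` (third condition, `N → ∞`). The
range of `T` is closed (`X` complete, `T` bounded below: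
`AntilipschitzWith.isClosed_range` or a Cauchy sequence argument) and contains all `y k`, so
it is `closedSpan y`. Take the continuous linear equivalence
(`LinearEquiv.ofBijective`, `LinearEquiv.toContinuousLinearEquivOfBounds`). -/
theorem isoB_closedSpan_iff [CompleteSpace X] (b : SchauderBasis 𝕜 X) {K : ℝ} (hK : 0 ≤ K)
    (y : ℕ → X) :
    IsoB 𝕜 K X (closedSpan 𝕜 y) ↔ ∃ t x : ℕ → X, (∀ i, t i ∈ closedSpan 𝕜 y) ∧
      (∀ (N : ℕ) (c : ℕ → 𝕜),
        ‖∑ i ∈ Finset.range N, c i • t i‖ ≤ K * ‖∑ i ∈ Finset.range N, c i • b i‖ ∧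
        ‖∑ i ∈ Finset.range N, c i • b i‖ ≤ K * ‖∑ i ∈ Finset.range N, c i • t i‖) ∧
      ∀ k N : ℕ, ‖y k - ∑ i ∈ Finset.range N, b.coord i (x k) • t i‖ ≤
        K * ‖x k - b.proj N (x k)‖ := by
  constructor
  · rintro ⟨T, hT1, hT2⟩
    have hymem : ∀ k, y k ∈ closedSpan 𝕜 y := fun k =>
      (Submodule.span 𝕜 (range y)).le_topologicalClosure (Submodule.subset_span ⟨k, rfl⟩)
    have hsum : ∀ (N : ℕ) (c : ℕ → 𝕜), ∑ i ∈ Finset.range N, c i • ((T (b i) : closedSpan 𝕜 y) : X) =
        ((T (∑ i ∈ Finset.range N, c i • b i) : closedSpan 𝕜 y) : X) := by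
      intro N c
      rw [map_sum, Submodule.coe_sum]
      refine Finset.sum_congr rfl fun i _ => ?_
      rw [map_smul, Submodule.coe_smul]
    refine ⟨fun i => ((T (b i) : closedSpan 𝕜 y) : X), fun k => T.symm ⟨y k, hymem k⟩,
      fun i => (T (b i)).2, fun N c => ⟨?_, ?_⟩, fun k N => ?_⟩
    · rw [hsum N c]
      exact hT1 _
    · rw [hsum N c]
      have h1 := hT2 (T (∑ i ∈ Finset.range N, c i • b i))
      rw [ContinuousLinearEquiv.symm_apply_apply] at h1
      exact h1
    · have h2 : y k - ∑ i ∈ Finset.range N, b.coord i (T.symm ⟨y k, hymem k⟩) •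
          ((T (b i) : closedSpan 𝕜 y) : X) =
          ((T (T.symm ⟨y k, hymem k⟩ - b.proj N (T.symm ⟨y k, hymem k⟩)) : closedSpan 𝕜 y) : X) := by
        rw [hsum N, map_sub, Submodule.coe_sub, ContinuousLinearEquiv.apply_symm_apply,
          SchauderBasis.proj_apply]
      rw [h2]
      exact hT1 _
  · rintro ⟨t, x, ht, hin, hx⟩
    have hcl : IsClosed (closedSpan 𝕜 y : Set X) := closedSpan_isClosed y
    -- the partial sums
    let S : ℕ → X →ₗ[𝕜] X := fun N => ∑ i ∈ Finset.range N,
      ((b.coord i : X →L[𝕜] 𝕜) : X →ₗ[𝕜] 𝕜).smulRight (t i)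
    have hS : ∀ N u, S N u = ∑ i ∈ Finset.range N, b.coord i u • t i := by
      intro N u
      simp only [S, LinearMap.sum_apply, LinearMap.smulRight_apply]
      rfl
    have hdiff : ∀ u M N, M ≤ N → ‖S N u - S M u‖ ≤ K * ‖b.proj N u - b.proj M u‖ := by
      intro u M N hMN
      have h1 := (hin N (fun i => if i < M then 0 else b.coord i u)).1
      have h2 : ∀ f : ℕ → X, ∑ i ∈ Finset.range N, (if i < M then (0 : 𝕜) else b.coord i u) • f i =
          (∑ i ∈ Finset.range N, b.coord i u • f i) -
            ∑ i ∈ Finset.range M, b.coord i u • f i := by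
        intro f
        rw [eq_sub_iff_add_eq]
        have h3 : ∑ i ∈ Finset.range M, b.coord i u • f i =
            ∑ i ∈ Finset.range N, (if i < M then b.coord i u else 0) • f i := by
          rw [← Finset.sum_subset (Finset.range_mono hMN) (fun i _ hi => by
            rw [if_neg (fun h => hi (Finset.mem_range.2 h)), zero_smul])]
          refine Finset.sum_congr rfl fun i hi => ?_
          rw [if_pos (Finset.mem_range.1 hi)]
        rw [h3, ← Finset.sum_add_distrib]
        refine Finset.sum_congr rfl fun i _ => ?_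
        rw [← add_smul]
        congr 1
        split_ifs <;> simp
      rw [h2, h2] at h1
      rw [hS, hS, SchauderBasis.proj_apply, SchauderBasis.proj_apply]
      exact h1
    have hcauchy : ∀ u, CauchySeq fun N => S N u := by
      intro u
      have hp : CauchySeq fun N => b.proj N u := (SchauderBasis.tendsto_proj b u).cauchySeq
      rw [Metric.cauchySeq_iff] at hp ⊢
      intro ε hε
      have hK1 : 0 < K + 1 := by linarith
      obtain ⟨N0, hN0⟩ := hp (ε / (K + 1)) (div_pos hε hK1)
      have hlt : ∀ M N, N0 ≤ M → M ≤ N → ‖S N u - S M u‖ < ε := by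
        intro M N hM hMN
        have h1 := hdiff u M N hMN
        have h2 := hN0 N (hM.trans hMN) M hM
        rw [dist_eq_norm] at h2
        have h3 : K * ‖b.proj N u - b.proj M u‖ ≤ K * (ε / (K + 1)) :=
          mul_le_mul_of_nonneg_left h2.le hK
        have h4 : K * (ε / (K + 1)) < ε := by
          rw [← mul_div_assoc, div_lt_iff₀ hK1]
          nlinarith
        linarith
      refine ⟨N0, fun m hm n hn => ?_⟩
      rcases le_total m n with h | h
      · rw [dist_comm, dist_eq_norm]
        exact hlt m n hm h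
      · rw [dist_eq_norm]
        exact hlt n m hn h
    have hex : ∀ u, ∃ l, Tendsto (fun N => S N u) atTop (𝓝 l) := fun u =>
      cauchySeq_tendsto_of_complete (hcauchy u)
    choose Tf hTf using hex
    let T : X →ₗ[𝕜] X := linearMapOfTendsto Tf S (tendsto_pi_nhds.2 hTf)
    have hT : ∀ u, T u = Tf u := fun u => rfl
    have hproj : ∀ u, Tendsto (fun N => b.proj N u) atTop (𝓝 u) := SchauderBasis.tendsto_proj b
    have hb1 : ∀ u, ‖T u‖ ≤ K * ‖u‖ := by
      intro u
      refine le_of_tendsto_of_tendsto (hTf u).norm ((hproj u).norm.const_mul K)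
        (Filter.Eventually.of_forall fun N => ?_)
      have h1 := (hin N fun i => b.coord i u).1
      show ‖S N u‖ ≤ K * ‖b.proj N u‖
      rw [hS, SchauderBasis.proj_apply]
      exact h1
    have hb2 : ∀ u, ‖u‖ ≤ K * ‖T u‖ := by
      intro u
      refine le_of_tendsto_of_tendsto (hproj u).norm ((hTf u).norm.const_mul K)
        (Filter.Eventually.of_forall fun N => ?_)
      have h1 := (hin N fun i => b.coord i u).2
      show ‖b.proj N u‖ ≤ K * ‖S N u‖
      rw [hS, SchauderBasis.proj_apply]
      exact h1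
    have hmem : ∀ u, T u ∈ closedSpan 𝕜 y := by
      intro u
      refine hcl.mem_of_tendsto (hTf u) (Filter.Eventually.of_forall fun N => ?_)
      show S N u ∈ closedSpan 𝕜 y
      rw [hS]
      exact Submodule.sum_mem _ fun i _ => Submodule.smul_mem _ _ (ht i)
    have hTx : ∀ k, T (x k) = y k := by
      intro k
      refine tendsto_nhds_unique (hTf (x k)) ?_
      rw [tendsto_iff_norm_sub_tendsto_zero]
      have h1 : Tendsto (fun N => K * ‖x k - b.proj N (x k)‖) atTop (𝓝 0) := by
        have h2 : Tendsto (fun N => ‖x k - b.proj N (x k)‖) atTop (𝓝 0) := by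
          have h3 := (tendsto_const_nhds (x := x k)).sub (hproj (x k))
          rw [sub_self] at h3
          exact tendsto_zero_iff_norm_tendsto_zero.1 h3
        have h4 := h2.const_mul K
        rwa [mul_zero] at h4
      refine squeeze_zero (fun N => norm_nonneg _) (fun N => ?_) h1
      rw [norm_sub_rev, hS]
      exact hx k N
    let Tc : X →L[𝕜] X := T.mkContinuous K hb1
    have hTc : ∀ u, Tc u = T u := fun u => rfl
    have hanti : AntilipschitzWith (Real.toNNReal K) Tc := by
      refine AddMonoidHomClass.antilipschitz_of_bound Tc fun u => ?_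
      rw [Real.coe_toNNReal K hK, hTc]
      exact hb2 u
    have hrange : IsClosed (Set.range Tc) := hanti.isClosed_range Tc.uniformContinuous
    have hsurj : ∀ z ∈ closedSpan 𝕜 y, ∃ u, T u = z := by
      have h1 : closedSpan 𝕜 y ≤ LinearMap.range T := by
        refine Submodule.topologicalClosure_minimal _ ?_ ?_
        · rw [Submodule.span_le]
          rintro _ ⟨k, rfl⟩
          exact ⟨x k, hTx k⟩
        · have h2 : ((LinearMap.range T : Submodule 𝕜 X) : Set X) = Set.range Tc := by
            ext z
            rfl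
          rw [h2]
          exact hrange
      intro z hz
      exact h1 hz
    let T' : X →ₗ[𝕜] closedSpan 𝕜 y := T.codRestrict (closedSpan 𝕜 y) hmem
    have hT' : ∀ u, ((T' u : closedSpan 𝕜 y) : X) = T u := fun u => rfl
    have hbij : Function.Bijective T' := by
      constructor
      · rw [injective_iff_map_eq_zero]
        intro u hu
        have h1 : T u = 0 := by
          rw [← hT', hu]
          rfl
        have h2 := hb2 u
        rw [h1, norm_zero, mul_zero] at h2
        exact norm_le_zero_iff.1 h2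
      · rintro ⟨z, hz⟩
        obtain ⟨u, hu⟩ := hsurj z hz
        exact ⟨u, Subtype.ext hu⟩
    let e : X ≃ₗ[𝕜] closedSpan 𝕜 y := LinearEquiv.ofBijective T' hbij
    have he : ∀ u, ((e u : closedSpan 𝕜 y) : X) = T u := fun u => rfl
    have he1 : ∀ u, ‖e u‖ ≤ K * ‖u‖ := fun u => hb1 u
    have he2 : ∀ z, ‖e.symm z‖ ≤ K * ‖z‖ := by
      intro z
      have h1 := hb2 (e.symm z)
      rw [← he, LinearEquiv.apply_symm_apply] at h1
      exact h1
    exact ⟨e.toContinuousLinearEquivOfBounds K K he1 he2, he1, he2⟩

end Pool.Agent.Lib.MP_a0554b_an.P
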