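import Mathlib
import Pool.Agent.Lib.MP_a0554b_an.P.Defs
import Pool.Agent.Lib.MP_a0554b_an.P.A1
import Pool.Agent.Lib.MP_a0554b_an.P.A2
set_option autoImplicit false

/-!
# The set of block sequences spanning a space `K`-isomorphic to `X` is analytic
-/

noncomputable section

namespace Pool.Agent.Lib.MP_a0554b_an.P

open Filter Topology Set
open scoped ENNReal
open Pool.Agent.Lib.MP_a0554b_an

universe u v w

variable {𝕜 : Type v} [RCLike 𝕜] {X : Type u} [NormedAddCommGroup X] [NormedSpace 𝕜 X]

open MeasureTheory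

/-- PROOF: the condition for a fixed `k` depends on `z k` and `z (k + 1)` only; `ℕ` is discrete:
intersection of preimages of (clopen) sets under continuous maps. -/
theorem isClosed_admSeq (b : SchauderBasis 𝕜 X) (v : ℕ → X) :
    IsClosed {z : ℕ → ℕ | AdmSeq b v z} := by
  have h : {z : ℕ → ℕ | AdmSeq b v z} =
      ⋂ k, (fun z : ℕ → ℕ => (z k, z (k + 1))) ⁻¹' {p : ℕ × ℕ | Lt b (v p.1) (v p.2)} := by
    ext z
    simp only [mem_iInter]
    exact Iff.rfl
  rw [h]
  refine isClosed_iInter fun k => IsClosed.preimage ?_ (isClosed_discrete _)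
  exact (continuous_apply k).prodMk (continuous_apply (k + 1))

/-- PROOF: the linear combinations of the `b i` are dense (`SchauderBasis.tendsto_proj`); the
closed linear span of a countable set is separable
(`TopologicalSpace.IsSeparable.span`, `TopologicalSpace.IsSeparable.closure`, or
`separable_closedSpan` in file L6). -/
theorem separableSpace_of_basis (b : SchauderBasis 𝕜 X) : TopologicalSpace.SeparableSpace X := by
  rw [← TopologicalSpace.isSeparable_univ_iff]
  have h1 : TopologicalSpace.IsSeparable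
      (closure ((Submodule.span 𝕜 (range fun i => b i) : Submodule 𝕜 X) : Set X)) :=
    ((Set.countable_range fun i => b i).isSeparable.span (R := 𝕜)).closure
  refine h1.mono fun x _ => ?_
  refine mem_closure_of_tendsto (SchauderBasis.tendsto_proj b x)
    (Filter.Eventually.of_forall fun N => ?_)
  rw [SchauderBasis.proj_apply]
  exact Submodule.sum_mem _ fun i _ => Submodule.smul_mem _ _ (Submodule.subset_span ⟨i, rfl⟩)

/-- PROOF. `Q = {z // AdmSeq b v z} × (ℕ → X) × (ℕ → X)` is Polish (`isClosed_admSeq`,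
`IsClosed.polishSpace`, `separableSpace_of_basis`, `UniformSpace.secondCountable_of_separable`,
completeness of `X`). Let `H` be the set of `(z, t, x)` such that the three conditions on the right
of `isoB_closedSpan_iff` hold for `y k = v (z k)`. `H` is closed: it is sequentially closed
(`IsSeqClosed.isClosed`). Let `(z n, t n, x n) → (z, t, x)`; then `z n k = z k` for all large `n`, for
each `k` (discrete), so the first condition passes to the limit by
`mem_closedSpan_of_tendsto`; the two others, for fixed `N`, `c`, `k`, are inequalities between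
continuous functions of finitely many coordinates (`v (z n k)` is eventually constant)
(`le_of_tendsto_of_tendsto'`). The set in question is the image of `H` under the first
projection: `IsClosed.analyticSet`, `AnalyticSet.image_of_continuous`. -/
theorem analytic_isoB [CompleteSpace X] (b : SchauderBasis 𝕜 X) (v : ℕ → X) (hv : Fam b v)
    {K : ℝ} (hK : 0 ≤ K) :
    AnalyticSet {z : {z : ℕ → ℕ // AdmSeq b v z} |
      IsoB 𝕜 K X (closedSpan 𝕜 (fun k => v (z.1 k)))} := by
  haveI : TopologicalSpace.SeparableSpace X := separableSpace_of_basis b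
  haveI : SecondCountableTopology X := UniformSpace.secondCountable_of_separable X
  haveI : PolishSpace {z : ℕ → ℕ // AdmSeq b v z} := (isClosed_admSeq b v).polishSpace
  let H1 : Set ({z : ℕ → ℕ // AdmSeq b v z} × (ℕ → X) × (ℕ → X)) :=
    {q | ∀ i, q.2.1 i ∈ closedSpan 𝕜 (fun k => v (q.1.1 k))}
  let H2 : Set ({z : ℕ → ℕ // AdmSeq b v z} × (ℕ → X) × (ℕ → X)) :=
    {q | ∀ (N : ℕ) (c : ℕ → 𝕜),
        ‖∑ i ∈ Finset.range N, c i • q.2.1 i‖ ≤ K * ‖∑ i ∈ Finset.range N, c i • b i‖ ∧
        ‖∑ i ∈ Finset.range N, c i • b i‖ ≤ K * ‖∑ i ∈ Finset.range N, c i • q.2.1 i‖}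
  let H3 : Set ({z : ℕ → ℕ // AdmSeq b v z} × (ℕ → X) × (ℕ → X)) :=
    {q | ∀ k N : ℕ, ‖v (q.1.1 k) - ∑ i ∈ Finset.range N, b.coord i (q.2.2 k) • q.2.1 i‖ ≤
        K * ‖q.2.2 k - b.proj N (q.2.2 k)‖}
  have hc1 : IsClosed H1 := by
    have h : H1 = ⋂ i, {q | q.2.1 i ∈ closedSpan 𝕜 (fun k => v (q.1.1 k))} := by
      ext q
      simp only [mem_iInter]
      exact Iff.rfl
    rw [h]
    refine isClosed_iInter fun i => IsSeqClosed.isClosed ?_
    intro q q' hq hlim
    refine mem_closedSpan_of_tendsto b v hv (zs := fun n => (q n).1.1) (z := q'.1.1)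
      (fun n => (q n).1.2) q'.1.2 (fun k => ?_) (t := fun n => (q n).2.1 i) hq ?_
    · have h1 : Tendsto (fun n => (q n).1.1 k) atTop (𝓝 (q'.1.1 k)) := by
        have hcont : Continuous fun q : {z : ℕ → ℕ // AdmSeq b v z} × (ℕ → X) × (ℕ → X) =>
            q.1.1 k := (continuous_apply k).comp (continuous_subtype_val.comp continuous_fst)
        exact (hcont.tendsto q').comp hlim
      rw [nhds_discrete, tendsto_pure] at h1
      exact h1
    · have hcont : Continuous fun q : {z : ℕ → ℕ // AdmSeq b v z} × (ℕ → X) × (ℕ → X) =>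
          q.2.1 i := (continuous_apply i).comp (continuous_fst.comp continuous_snd)
      exact (hcont.tendsto q').comp hlim
  have ht : ∀ i, Continuous fun q : {z : ℕ → ℕ // AdmSeq b v z} × (ℕ → X) × (ℕ → X) =>
      q.2.1 i := fun i => (continuous_apply i).comp (continuous_fst.comp continuous_snd)
  have hx : ∀ i, Continuous fun q : {z : ℕ → ℕ // AdmSeq b v z} × (ℕ → X) × (ℕ → X) =>
      q.2.2 i := fun i => (continuous_apply i).comp (continuous_snd.comp continuous_snd)
  have hvz : ∀ k, Continuous fun q : {z : ℕ → ℕ // AdmSeq b v z} × (ℕ → X) × (ℕ → X) =>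
      v (q.1.1 k) := fun k => (continuous_of_discreteTopology (f := v)).comp
    ((continuous_apply k).comp (continuous_subtype_val.comp continuous_fst))
  have hc2 : IsClosed H2 := by
    have h : H2 = ⋂ N : ℕ, ⋂ c : ℕ → 𝕜,
        ({q | ‖∑ i ∈ Finset.range N, c i • q.2.1 i‖ ≤ K * ‖∑ i ∈ Finset.range N, c i • b i‖} ∩
        {q | ‖∑ i ∈ Finset.range N, c i • b i‖ ≤ K * ‖∑ i ∈ Finset.range N, c i • q.2.1 i‖}) := by
      ext q
      simp only [mem_iInter]
      exact Iff.rfl
    rw [h]
    refine isClosed_iInter fun N => isClosed_iInter fun c => ?_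
    have hs : Continuous fun q : {z : ℕ → ℕ // AdmSeq b v z} × (ℕ → X) × (ℕ → X) =>
        ∑ i ∈ Finset.range N, c i • q.2.1 i :=
      continuous_finset_sum _ fun i _ => (ht i).const_smul (c i)
    exact (isClosed_le hs.norm continuous_const).inter
      (isClosed_le continuous_const (continuous_const.mul hs.norm))
  have hc3 : IsClosed H3 := by
    have h : H3 = ⋂ k : ℕ, ⋂ N : ℕ,
        {q | ‖v (q.1.1 k) - ∑ i ∈ Finset.range N, b.coord i (q.2.2 k) • q.2.1 i‖ ≤
        K * ‖q.2.2 k - b.proj N (q.2.2 k)‖} := by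
      ext q
      simp only [mem_iInter]
      exact Iff.rfl
    rw [h]
    refine isClosed_iInter fun k => isClosed_iInter fun N => ?_
    have hs : Continuous fun q : {z : ℕ → ℕ // AdmSeq b v z} × (ℕ → X) × (ℕ → X) =>
        ∑ i ∈ Finset.range N, b.coord i (q.2.2 k) • q.2.1 i :=
      continuous_finset_sum _ fun i _ => ((b.coord i).continuous.comp (hx k)).smul (ht i)
    refine isClosed_le ((hvz k).sub hs).norm (continuous_const.mul ?_)
    exact ((hx k).sub ((b.proj N).continuous.comp (hx k))).norm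
  have hH : AnalyticSet (H1 ∩ (H2 ∩ H3)) := (hc1.inter (hc2.inter hc3)).analyticSet
  have himg := hH.image_of_continuous (continuous_fst :
    Continuous (Prod.fst : {z : ℕ → ℕ // AdmSeq b v z} × (ℕ → X) × (ℕ → X) → _))
  refine Eq.subst (motive := AnalyticSet) ?_ himg
  ext z
  constructor
  · rintro ⟨⟨z', t, x⟩, ⟨h1, h2, h3⟩, rfl⟩
    exact (isoB_closedSpan_iff b hK _).2 ⟨t, x, h1, h2, h3⟩
  · intro hz
    obtain ⟨t, x, h1, h2, h3⟩ := (isoB_closedSpan_iff b hK _).1 hz
    exact ⟨(z, t, x), ⟨h1, h2, h3⟩, rfl⟩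

end Pool.Agent.Lib.MP_a0554b_an.P
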