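import Mathlib
import Pool.Agent.Lib.MP_a0554b_an.P.Defs
set_option autoImplicit false

/-!
# Finite and infinite block sequences with vectors from a countable family
-/

noncomputable section

namespace Pool.Agent.Lib.MP_a0554b_an.P

open Filter Topology Set
open scoped ENNReal
open Pool.Agent.Lib.MP_a0554b_an

universe u v w

variable {𝕜 : Type v} [RCLike 𝕜] {X : Type u} [NormedAddCommGroup X] [NormedSpace 𝕜 X]

/-- PROOF: `v i` nonzero implies that `Lt b (v i) (v i)` is false. -/
theorem not_lt_self {b : SchauderBasis 𝕜 X} {v : ℕ → X} (hv : Fam b v) (i : ℕ) :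
    ¬ Lt b (v i) (v i) := by
  intro h
  obtain ⟨k, hk⟩ := E1_exists_coord_ne (b := b) (hv.ne_zero i)
  exact lt_irrefl _ (h k k hk hk)

/-- PROOF: let `M` be larger than `m` and than all indices of the supports of the `v j`, `j ∈ l`
(finitely many finite sets); take `i` from `hv.far M`. `List.pairwise_append`. -/
theorem exists_append {b : SchauderBasis 𝕜 X} {v : ℕ → X} (hv : Fam b v) {l : List ℕ}
    (hl : Adm b v l) (m : ℕ) :
    ∃ i, Adm b v (l ++ [i]) ∧ ∀ n, b.coord n (v i) ≠ 0 → m ≤ n := by
  have hfin : (⋃ j ∈ {j | j ∈ l}, {n | b.coord n (v j) ≠ 0}).Finite :=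
    Set.Finite.biUnion (List.finite_toSet l) fun j _ => hv.finite j
  obtain ⟨N, hN⟩ := hfin.bddAbove
  obtain ⟨i, hi⟩ := hv.far (max m (N + 1))
  refine ⟨i, ?_, fun n hn => (le_max_left _ _).trans (hi n hn)⟩
  unfold Adm
  rw [List.pairwise_append]
  refine ⟨hl, List.pairwise_singleton _ _, ?_⟩
  intro a ha c hc
  rw [List.mem_singleton] at hc
  subst hc
  intro p q hp hq
  have h1 : p ≤ N := hN (Set.mem_biUnion (show a ∈ {j | j ∈ l} from ha) hp)
  have h2 : N + 1 ≤ q := (le_max_right _ _).trans (hi q hq)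
  omega

/-- PROOF: `z k` is the `k`-th element of `L (k + 1)`, which is also the `k`-th element of `L n` for
every `n` with `k < (L n).length` (`List.IsPrefix` and `List.IsPrefix.getElem`; the lists are
prefixes of each other). `AdmSeq`: `z k`, `z (k + 1)` are successive elements of the admissible list
`L (k + 2)`. -/
theorem exists_limit {b : SchauderBasis 𝕜 X} {v : ℕ → X} (L : ℕ → List ℕ)
    (hL : ∀ n, Adm b v (L n)) (hmono : ∀ n, L n <+: L (n + 1)) (hlen : ∀ n, n ≤ (L n).length) :
    ∃ z : ℕ → ℕ, AdmSeq b v z ∧ (∀ n, pre z (L n).length = L n) ∧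
      Set.range z = {i | ∃ n, i ∈ L n} := by
  have hmono' : ∀ n m, n ≤ m → L n <+: L m := by
    intro n m h
    induction m, h using Nat.le_induction with
    | base => exact List.prefix_rfl
    | succ m _ ih => exact ih.trans (hmono m)
  have hlt : ∀ k, k < (L (k + 1)).length := fun k => hlen (k + 1)
  set z : ℕ → ℕ := fun k => (L (k + 1))[k]'(hlt k) with hz
  have key : ∀ n k (hk : k < (L n).length), z k = (L n)[k] := by
    intro n k hk
    rcases le_total n (k + 1) with h | h
    · exact ((hmono' _ _ h).getElem hk).symm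
    · exact (hmono' _ _ h).getElem (hlt k)
  refine ⟨z, ?_, ?_, ?_⟩
  · intro k
    have h1 : k < (L (k + 2)).length := lt_of_lt_of_le (by omega) (hlen (k + 2))
    have h2 : k + 1 < (L (k + 2)).length := lt_of_lt_of_le (by omega) (hlen (k + 2))
    rw [key (k + 2) k h1, key (k + 2) (k + 1) h2]
    exact List.pairwise_iff_getElem.mp (hL (k + 2)) k (k + 1) h1 h2 (by omega)
  · intro n
    refine List.ext_getElem (pre_length _ _) fun k h1 h2 => ?_
    unfold pre
    rw [List.getElem_map, List.getElem_range]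
    exact key n k h2
  · ext i
    constructor
    · rintro ⟨k, rfl⟩
      exact ⟨k + 1, List.getElem_mem _⟩
    · rintro ⟨n, hn⟩
      obtain ⟨k, hk, rfl⟩ := List.getElem_of_mem hn
      exact ⟨k, key n k hk⟩

/-- PROOF: iterate `exists_append` and use `exists_limit`. -/
theorem exists_extend {b : SchauderBasis 𝕜 X} {v : ℕ → X} (hv : Fam b v) {l : List ℕ}
    (hl : Adm b v l) : ∃ z : ℕ → ℕ, AdmSeq b v z ∧ pre z l.length = l := by
  choose f hf using fun p : {l : List ℕ // Adm b v l} => exists_append hv p.2 0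
  let M : ℕ → {l : List ℕ // Adm b v l} := fun n =>
    Nat.rec ⟨l, hl⟩ (fun _ p => ⟨p.1 ++ [f p], (hf p).1⟩) n
  have hM : ∀ n, (M (n + 1)).1 = (M n).1 ++ [f (M n)] := fun _ => rfl
  have hlen : ∀ n, n ≤ ((M n).1).length := by
    intro n
    induction n with
    | zero => exact Nat.zero_le _
    | succ n ih =>
      rw [hM, List.length_append, List.length_singleton]
      omega
  obtain ⟨z, hz1, hz2, -⟩ := exists_limit (fun n => (M n).1) (fun n => (M n).2)
    (fun n => by rw [hM]; exact List.prefix_append _ _) hlen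
  exact ⟨z, hz1, hz2 0⟩

end Pool.Agent.Lib.MP_a0554b_an.P
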