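import Mathlib

set_option autoImplicit false

/-!
# Analytic sets have the Baire property (Lusin-Sierpinski)
-/

noncomputable section

namespace Pool.Agent.Lib.MP_a0554b_an.P

open Filter Topology Set
open MeasureTheory

/-- The largest open set in which `T` is meagre. -/
def mOpen {P : Type*} [TopologicalSpace P] [SecondCountableTopology P] (T : Set P) : Set P :=
  ⋃₀ {B | B ∈ TopologicalSpace.countableBasis P ∧ IsMeagre (T ∩ B)}

section

variable {P : Type*} [TopologicalSpace P] [SecondCountableTopology P] (T : Set P)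

theorem isOpen_mOpen : IsOpen (mOpen T) :=
  isOpen_sUnion fun B hB => TopologicalSpace.isOpen_of_mem_countableBasis hB.1

theorem isMeagre_inter_mOpen : IsMeagre (T ∩ mOpen T) := by
  unfold mOpen
  rw [Set.sUnion_eq_biUnion, Set.inter_iUnion₂]
  exact isMeagre_biUnion ((TopologicalSpace.countable_countableBasis P).mono fun B hB => hB.1)
    fun B hB => hB.2

theorem subset_mOpen {V : Set P} (hV : IsOpen V) (h : IsMeagre (T ∩ V)) : V ⊆ mOpen T := by
  intro x hx
  obtain ⟨B, hB, hxB, hBV⟩ :=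
    (TopologicalSpace.isBasis_countableBasis P).exists_subset_of_mem_open hx hV
  exact ⟨B, ⟨hB, h.mono (Set.inter_subset_inter_right _ hBV)⟩, hxB⟩

theorem compl_mOpen_subset : (mOpen T)ᶜ ⊆ closure T := by
  intro x hx
  by_contra hxc
  apply hx
  refine subset_mOpen T isClosed_closure.isOpen_compl ?_ hxc
  have : T ∩ (closure T)ᶜ = ∅ := by
    ext y
    simp only [Set.mem_inter_iff, Set.mem_compl_iff, Set.mem_empty_iff_false, iff_false, not_and,
      not_not]
    exact fun h => subset_closure h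
  rw [this]
  exact IsMeagre.empty

/-- an open meagre set in a Baire space is empty -/
theorem eq_empty_of_isMeagre [BaireSpace P] {V : Set P} (hV : IsOpen V) (h : IsMeagre V) :
    V = ∅ := by
  have h1 : Dense Vᶜ := dense_of_mem_residual h
  by_contra hne
  obtain ⟨x, hx⟩ := Set.nonempty_iff_ne_empty.2 hne
  obtain ⟨y, hy1, hy2⟩ := h1.inter_open_nonempty V hV ⟨x, hx⟩
  exact hy2 hy1

end

/-- the key step: the part of the complement of `mOpen (A s)` which is not continued -/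
theorem isMeagre_step {P : Type*} [TopologicalSpace P] [PolishSpace P] (T : Set P)
    (Ts : ℕ → Set P) (hT : T ⊆ ⋃ n, Ts n) :
    IsMeagre ((mOpen T)ᶜ ∩ ⋂ n, mOpen (Ts n)) := by
  borelize P
  have hmeas : MeasurableSet ((mOpen T)ᶜ ∩ ⋂ n, mOpen (Ts n)) :=
    ((isOpen_mOpen T).measurableSet.compl).inter
      (MeasurableSet.iInter fun n => (isOpen_mOpen _).measurableSet)
  obtain ⟨V, hV, hVe⟩ := hmeas.residualEq_isOpen
  have h1 : IsMeagre (V \ ((mOpen T)ᶜ ∩ ⋂ n, mOpen (Ts n))) := by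
    change (V \ ((mOpen T)ᶜ ∩ ⋂ n, mOpen (Ts n)))ᶜ ∈ residual P
    filter_upwards [Filter.eventuallyEq_set.1 hVe] with x hx
    intro hx2
    exact hx2.2 (hx.2 hx2.1)
  have h2 : V ∩ mOpen T = ∅ := by
    refine eq_empty_of_isMeagre (hV.inter (isOpen_mOpen T)) (h1.mono ?_)
    intro x hx
    exact ⟨hx.1, fun h => h.1 hx.2⟩
  have h3 : IsMeagre (T ∩ V) := by
    refine (h1.union (isMeagre_iUnion fun n => isMeagre_inter_mOpen (Ts n))).mono ?_
    intro x hx
    by_cases hxn : x ∈ ⋂ n, mOpen (Ts n)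
    · right
      obtain ⟨n, hn⟩ := Set.mem_iUnion.1 (hT hx.1)
      exact Set.mem_iUnion.2 ⟨n, hn, Set.mem_iInter.1 hxn n⟩
    · left
      exact ⟨hx.2, fun h => hxn h.2⟩
  have h4 : V = ∅ := by
    have h5 := subset_mOpen T hV h3
    rw [← h2]
    exact (Set.inter_eq_left.2 h5).symm
  subst h4
  change ((mOpen T)ᶜ ∩ ⋂ n, mOpen (Ts n))ᶜ ∈ residual P
  filter_upwards [Filter.eventuallyEq_set.1 hVe] with x hx
  exact fun h => (hx.1 h).elim

theorem analytic_baire {P : Type*} [TopologicalSpace P] [PolishSpace P] {A : Set P}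
    (hA : AnalyticSet A) : ∃ U : Set P, IsOpen U ∧ IsMeagre (A \ U) ∧ IsMeagre (U \ A) := by
  rw [AnalyticSet] at hA
  rcases hA with rfl | ⟨f, hf, rfl⟩
  · exact ⟨∅, isOpen_empty, by simpa using IsMeagre.empty, by simpa using IsMeagre.empty⟩
  let C : List ℕ → Set (ℕ → ℕ) := fun s => {z | PiNat.res z s.length = s}
  let A : List ℕ → Set P := fun s => f '' C s
  have hC : ∀ s, C s ⊆ ⋃ n, C (n :: s) := by
    intro s z hz
    refine Set.mem_iUnion.2 ⟨z s.length, ?_⟩
    change PiNat.res z (s.length + 1) = z s.length :: s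
    rw [PiNat.res_succ]
    exact congrArg _ hz
  have hA : ∀ s, A s ⊆ ⋃ n, A (n :: s) := by
    rintro s _ ⟨z, hz, rfl⟩
    obtain ⟨n, hn⟩ := Set.mem_iUnion.1 (hC s hz)
    exact Set.mem_iUnion.2 ⟨n, z, hn, rfl⟩
  let R : List ℕ → Set P := fun s => (mOpen (A s))ᶜ ∩ ⋂ n, mOpen (A (n :: s))
  let M : Set P := ⋃ s, ((A s ∩ mOpen (A s)) ∪ R s)
  have hM : IsMeagre M := isMeagre_iUnion fun s =>
    (isMeagre_inter_mOpen _).union (isMeagre_step _ _ (hA s))
  have hA0 : A [] = Set.range f := by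
    change f '' {z | PiNat.res z 0 = []} = Set.range f
    simp
  have h5 : (mOpen (A []))ᶜ \ M ⊆ Set.range f := by
    rintro x ⟨hx0, hxM⟩
    have hxR : ∀ s, x ∉ R s := fun s hs => hxM (Set.mem_iUnion.2 ⟨s, Or.inr hs⟩)
    have hstep : ∀ s, x ∉ mOpen (A s) → ∃ n, x ∉ mOpen (A (n :: s)) := by
      intro s hs
      by_contra hcon
      push Not at hcon
      exact hxR s ⟨hs, Set.mem_iInter.2 hcon⟩
    let step : {s : List ℕ // x ∉ mOpen (A s)} → {s : List ℕ // x ∉ mOpen (A s)} := fun s =>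
      ⟨(hstep s.1 s.2).choose :: s.1, (hstep s.1 s.2).choose_spec⟩
    let σ : ℕ → {s : List ℕ // x ∉ mOpen (A s)} := fun k => step^[k] ⟨[], hx0⟩
    have hσ : ∀ k, σ (k + 1) = step (σ k) := fun k => Function.iterate_succ_apply' _ _ _
    let z : ℕ → ℕ := fun k => (hstep (σ k).1 (σ k).2).choose
    have hσz : ∀ k, (σ k).1 = PiNat.res z k := by
      intro k
      induction k with
      | zero => rfl
      | succ k ih =>
        rw [hσ k, PiNat.res_succ, ← ih]
    refine ⟨z, ?_⟩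
    by_contra hne
    obtain ⟨V, hV1, hV2, hV3⟩ : ∃ V : Set P, V ∈ 𝓝 (f z) ∧ IsClosed V ∧ x ∉ V := by
      obtain ⟨V, hV, hVc, hVs⟩ := exists_mem_nhds_isClosed_subset
        (isOpen_compl_singleton.mem_nhds (show f z ∈ ({x} : Set P)ᶜ from hne))
      exact ⟨V, hV, hVc, fun h => hVs h rfl⟩
    have hpre : f ⁻¹' V ∈ 𝓝 z := hf.continuousAt hV1
    obtain ⟨k, hk⟩ : ∃ k, PiNat.cylinder z k ⊆ f ⁻¹' V := by
      obtain ⟨W, hW, hWo, hzW⟩ := mem_nhds_iff.1 hpre
      obtain ⟨B, ⟨w, n, rfl⟩, hzB, hBW⟩ :=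
        (PiNat.isTopologicalBasis_cylinders (fun _ : ℕ => ℕ)).exists_subset_of_mem_open hzW hWo
      refine ⟨n, ?_⟩
      rw [(PiNat.mem_cylinder_iff_eq.1 hzB)]
      exact hBW.trans hW
    have h6 : x ∈ closure (A (σ k).1) := compl_mOpen_subset _ (σ k).2
    have h7 : A (σ k).1 ⊆ V := by
      rintro _ ⟨w, hw, rfl⟩
      apply hk
      rw [PiNat.cylinder_eq_res]
      change PiNat.res w k = PiNat.res z k
      have hw' : PiNat.res w (σ k).1.length = (σ k).1 := hw
      rw [hσz k, PiNat.res_length] at hw'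
      exact hw'
    exact hV3 (closure_minimal h7 hV2 h6)
  refine ⟨interior (mOpen (A []))ᶜ, isOpen_interior, ?_, ?_⟩
  · have h8 : IsMeagre ((mOpen (A []))ᶜ \ interior (mOpen (A []))ᶜ) := by
      have hcl : IsClosed (mOpen (A []))ᶜ := (isOpen_mOpen _).isClosed_compl
      have : (mOpen (A []))ᶜ \ interior (mOpen (A []))ᶜ = frontier (mOpen (A []))ᶜ := by
        rw [hcl.frontier_eq]
      rw [this]
      refine IsNowhereDense.isMeagre ?_
      rw [isClosed_frontier.isNowhereDense_iff]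
      exact interior_frontier hcl
    refine ((isMeagre_inter_mOpen (A [])).union h8).mono ?_
    rintro x ⟨hx1, hx2⟩
    by_cases hx : x ∈ mOpen (A [])
    · exact Or.inl ⟨hA0 ▸ hx1, hx⟩
    · exact Or.inr ⟨hx, hx2⟩
  · refine hM.mono ?_
    rintro x ⟨hx1, hx2⟩
    by_contra hxM
    exact hx2 (h5 ⟨interior_subset hx1, hxM⟩)

end Pool.Agent.Lib.MP_a0554b_an.P
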