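import Mathlib
import Pool.Agent.Lib.MP_a0554b_an.P.R1

set_option autoImplicit false

/-!
# The Baire category theorem for analytic sets
-/

noncomputable section

namespace Pool.Agent.Lib.MP_a0554b_an.P

open Filter Topology Set
open MeasureTheory

/-- PROOF. Let `U k` be the open set of `analytic_baire` for `G k`. If all `U k` are empty then
`univ = ⋃ G k` is meagre, impossible in a nonempty Polish (Baire) space. Choose `k` with
`U k` nonempty. `U k \ G k` is meagre: its complement is in `residual P`, so it contains a dense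
`Gδ` set, which is `⋂ n, O n` with `O n` open; every `O n` contains the dense set, hence is
dense. -/
theorem exists_generic {P : Type*} [TopologicalSpace P] [PolishSpace P] [Nonempty P]
    (G : ℕ → Set P) (hG : ∀ k, AnalyticSet (G k)) (hU : ⋃ k, G k = univ) :
    ∃ (k : ℕ) (U : Set P) (O : ℕ → Set P), IsOpen U ∧ U.Nonempty ∧ (∀ n, IsOpen (O n)) ∧
      (∀ n, Dense (O n)) ∧ U ∩ ⋂ n, O n ⊆ G k := by
  choose U hUo hU1 hU2 using fun k => analytic_baire (hG k)
  obtain ⟨k, hk⟩ : ∃ k, (U k).Nonempty := by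
    by_contra hcon
    push Not at hcon
    have h1 : IsMeagre (univ : Set P) := by
      rw [← hU]
      refine isMeagre_iUnion fun k => ?_
      have h2 := hU1 k
      rwa [hcon k, Set.diff_empty] at h2
    have h3 := eq_empty_of_isMeagre isOpen_univ h1
    exact (Set.univ_nonempty (α := P)).ne_empty h3
  have h4 : (U k \ G k)ᶜ ∈ residual P := hU2 k
  rw [mem_residual] at h4
  obtain ⟨t, ht1, ht2, ht3⟩ := h4
  obtain ⟨O, hO1, hO2⟩ := isGδ_iff_eq_iInter_nat.1 ht2
  refine ⟨k, U k, O, hUo k, hk, hO1, fun n => ht3.mono ?_, ?_⟩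
  · rw [hO2]
    exact Set.iInter_subset _ n
  · rintro x ⟨hx1, hx2⟩
    rw [← hO2] at hx2
    by_contra hx3
    exact ht1 hx2 ⟨hx1, hx3⟩

end Pool.Agent.Lib.MP_a0554b_an.P
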