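import Mathlib
import Pool.Agent.Lib.MP_a0554b_an.P.Defs
import Pool.Agent.Lib.MP_a0554b_an.P.R2
import Pool.Agent.Lib.MP_a0554b_an.P.A3
import Pool.Agent.Lib.MP_a0554b_an.P.B0
set_option autoImplicit false

/-!
# The Baire category theorem for block sequences
-/

noncomputable section

namespace Pool.Agent.Lib.MP_a0554b_an.P

open Filter Topology Set
open scoped ENNReal
open Pool.Agent.Lib.MP_a0554b_an

universe u v w

variable {𝕜 : Type v} [RCLike 𝕜] {X : Type u} [NormedAddCommGroup X] [NormedSpace 𝕜 X]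

open MeasureTheory

theorem b1_pre_eq {z z' : ℕ → ℕ} {k : ℕ} : pre z k = pre z' k ↔ ∀ i < k, z i = z' i := by
  unfold pre
  rw [List.map_inj_left]
  simp only [List.mem_range]

theorem b1_isOpen_cyl (b : SchauderBasis 𝕜 X) (v : ℕ → X) (z : ℕ → ℕ) (N : ℕ) :
    IsOpen {z' : {z : ℕ → ℕ // AdmSeq b v z} | ∀ i < N, z'.1 i = z i} := by
  have h : {z' : {z : ℕ → ℕ // AdmSeq b v z} | ∀ i < N, z'.1 i = z i} =
      ⋂ i ∈ Finset.range N, (fun z' : {z : ℕ → ℕ // AdmSeq b v z} => z'.1 i) ⁻¹' {z i} := by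
    ext z'
    simp
  rw [h]
  refine isOpen_biInter_finset fun i _ => ?_
  exact (isOpen_discrete _).preimage ((continuous_apply i).comp continuous_subtype_val)

theorem b1_exists_cyl (b : SchauderBasis 𝕜 X) (v : ℕ → X)
    {W : Set {z : ℕ → ℕ // AdmSeq b v z}} (hW : IsOpen W) {z : {z : ℕ → ℕ // AdmSeq b v z}}
    (hz : z ∈ W) : ∃ N, ∀ z' : {z : ℕ → ℕ // AdmSeq b v z}, (∀ i < N, z'.1 i = z.1 i) → z' ∈ W := by
  obtain ⟨W', hW', rfl⟩ := isOpen_induced_iff.1 hW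
  obtain ⟨I, u, h1, h2⟩ := isOpen_pi_iff.1 hW' z.1 hz
  refine ⟨I.sup id + 1, fun z' hz' => h2 fun i hi => ?_⟩
  have h3 : i ≤ I.sup id := Finset.le_sup (f := id) hi
  rw [hz' i (by omega)]
  exact (h1 i hi).2

/-- PROOF. `P = {z // AdmSeq b v z}` is Polish (`isClosed_admSeq`) and nonempty (`exists_extend` for
`l = []`). `G k` = the set of `z` with `IsoB 𝕜 k X (closedSpan (v ∘ z))` is analytic
(`analytic_isoB`), and `⋃ k, G k = univ`: by `hb` there is `T : closedSpan (v ∘ z) ≃L[𝕜] X`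
(`AdmSeq.isBlock`); take `k ≥ ‖T‖, ‖T⁻¹‖`. `exists_generic` gives `k`, `U`, `O'`. Take `z₀ ∈ U` and `N`
such that every `z : P` with `z i = z₀ i` for `i < N` is in `U` (open sets of `ℕ → ℕ` contain
cylinders); `s = pre z₀ N`, admissible by `AdmSeq.adm_pre`. Let `O n l` mean: every `z : P` with
`pre z l.length = l` is in `O' n`. `mono`: if `l <+: l'` and `pre z l'.length = l'` then
`pre z l.length = l`. `dense`: extend `l` to `z : P` (`exists_extend`); the cylinder of `l` is open and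
nonempty, so it contains `z ∈ O' n` (dense); `O' n` is open, so it contains the cylinder of `pre z N'`
for some `N' ≥ l.length`; `l' = pre z N'`. Finally if `Gen b v s O z` then `z ∈ U` and
`z ∈ O' n` for all `n`, so `z ∈ G k`. -/
theorem exists_bdata [CompleteSpace X] (b : SchauderBasis 𝕜 X) (hb : BlockHomogeneous b)
    (v : ℕ → X) (hv : Fam b v) :
    ∃ (K : ℝ) (s : List ℕ) (O : ℕ → List ℕ → Prop), 0 ≤ K ∧ BData b v s O ∧
      ∀ z, Gen b v s O z → IsoB 𝕜 K X (closedSpan 𝕜 (fun k => v (z k))) := by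
  have : PolishSpace {z : ℕ → ℕ // AdmSeq b v z} := (isClosed_admSeq b v).polishSpace
  have : Nonempty {z : ℕ → ℕ // AdmSeq b v z} := by
    obtain ⟨z, hz, -⟩ := exists_extend hv (l := []) List.Pairwise.nil
    exact ⟨⟨z, hz⟩⟩
  obtain ⟨k, U, O', hUo, ⟨z₀, hz₀⟩, hOo, hOd, hsub⟩ := exists_generic
    (fun k : ℕ => {z : {z : ℕ → ℕ // AdmSeq b v z} |
      IsoB 𝕜 (k : ℝ) X (closedSpan 𝕜 (fun j => v (z.1 j)))})
    (fun k => analytic_isoB b v hv (Nat.cast_nonneg k)) (by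
      refine Set.eq_univ_of_forall fun z => ?_
      obtain ⟨T⟩ := hb _ (z.2.isBlock hv)
      obtain ⟨k, hk⟩ := exists_nat_ge (max ‖(T : closedSpan 𝕜 (fun j => v (z.1 j)) →L[𝕜] X)‖
        ‖(T.symm : X →L[𝕜] closedSpan 𝕜 (fun j => v (z.1 j)))‖)
      refine Set.mem_iUnion.2 ⟨k, T.symm, fun x => ?_, fun y => ?_⟩
      · exact ((T.symm : X →L[𝕜] closedSpan 𝕜 (fun j => v (z.1 j))).le_opNorm x).trans
          (mul_le_mul_of_nonneg_right ((le_max_right _ _).trans hk) (norm_nonneg _))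
      · exact ((T : closedSpan 𝕜 (fun j => v (z.1 j)) →L[𝕜] X).le_opNorm y).trans
          (mul_le_mul_of_nonneg_right ((le_max_left _ _).trans hk) (norm_nonneg _)))
  obtain ⟨N, hN⟩ := b1_exists_cyl b v hUo hz₀
  refine ⟨k, pre z₀.1 N, fun n l => ∀ z : {z : ℕ → ℕ // AdmSeq b v z},
    pre z.1 l.length = l → z ∈ O' n, Nat.cast_nonneg k, ⟨z₀.2.adm_pre hv N, ?_, ?_⟩, ?_⟩
  · intro n l hl _
    obtain ⟨z1, hz1, hz1l⟩ := exists_extend hv hl
    obtain ⟨z, hzW, hzO⟩ := (hOd n).inter_open_nonempty _ (b1_isOpen_cyl b v z1 l.length)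
      ⟨⟨z1, hz1⟩, fun i _ => rfl⟩
    obtain ⟨N', hN'⟩ := b1_exists_cyl b v (hOo n) hzO
    have h1 : pre z.1 l.length = l := by
      rw [← hz1l, pre_length]
      exact b1_pre_eq.2 hzW
    refine ⟨pre z.1 (max N' l.length), ?_, z.2.adm_pre hv _, fun z' hz' => ?_⟩
    · have h2 := pre_prefix z.1 (le_max_right N' l.length)
      rwa [h1] at h2
    · rw [pre_length] at hz'
      exact hN' z' fun i hi => b1_pre_eq.1 hz' i (lt_of_lt_of_le hi (le_max_left _ _))
  · intro n l l' hll hO z hz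
    apply hO z
    have h1 : pre z.1 l.length <+: l' := by
      have h2 := pre_prefix z.1 hll.length_le
      rwa [hz] at h2
    exact (List.prefix_of_prefix_length_le h1 hll (by rw [pre_length])).eq_of_length
      (pre_length _ _)
  · rintro z ⟨hz, hzs, hzO⟩
    rw [pre_length] at hzs
    have h1 : (⟨z, hz⟩ : {z : ℕ → ℕ // AdmSeq b v z}) ∈ U :=
      hN ⟨z, hz⟩ fun i hi => b1_pre_eq.1 hzs i hi
    have h2 : ∀ n, (⟨z, hz⟩ : {z : ℕ → ℕ // AdmSeq b v z}) ∈ O' n := fun n => by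
      obtain ⟨m, hm⟩ := hzO n
      exact hm ⟨z, hz⟩ (by rw [pre_length])
    have h3 : (⟨z, hz⟩ : {z : ℕ → ℕ // AdmSeq b v z}) ∈ U ∩ ⋂ n, O' n :=
      Set.mem_inter h1 (Set.mem_iInter.2 h2)
    have h4 := hsub h3
    rw [Set.mem_setOf_eq] at h4
    exact h4

end Pool.Agent.Lib.MP_a0554b_an.P
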