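import Mathlib
import Pool.Agent.Lib.MP_a0554b_an.P.Defs
import Pool.Agent.Lib.MP_a0554b_an.P.B0

set_option autoImplicit false

/-!
# Fusion: two interlaced pairs of generic block sequences
-/

noncomputable section

namespace Pool.Agent.Lib.MP_a0554b_an.P

open Filter Topology Set
open scoped ENNReal
open Pool.Agent.Lib.MP_a0554b_an

universe u v w

variable {𝕜 : Type v} [RCLike 𝕜] {X : Type u} [NormedAddCommGroup X] [NormedSpace 𝕜 X]

/-- a vector of the family which is beyond `m` and beyond all vectors of a finite list -/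
theorem F2_exists_beyond {b : SchauderBasis 𝕜 X} {v : ℕ → X} (hv : Fam b v) (l : List ℕ) (m : ℕ) :
    ∃ i, (∀ j ∈ l, Lt b (v j) (v i)) ∧ ∀ n, b.coord n (v i) ≠ 0 → m ≤ n := by
  have h1 : ∃ M, ∀ j ∈ l, ∀ n, b.coord n (v j) ≠ 0 → n < M := by
    induction l with
    | nil => exact ⟨0, fun j hj => by simp at hj⟩
    | cons a l ih =>
      obtain ⟨M, hM⟩ := ih
      obtain ⟨M', hM'⟩ := (hv.finite a).bddAbove
      refine ⟨max M (M' + 1), fun j hj n hn => ?_⟩
      rcases List.mem_cons.1 hj with rfl | hj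
      · exact lt_of_le_of_lt (hM' hn) (lt_of_lt_of_le (Nat.lt_succ_self _) (le_max_right _ _))
      · exact lt_of_lt_of_le (hM j hj n hn) (le_max_left _ _)
  obtain ⟨M, hM⟩ := h1
  obtain ⟨i, hi⟩ := hv.far (max M m)
  exact ⟨i, fun j hj n k hn hk => lt_of_lt_of_le (hM j hj n hn)
    ((le_max_left _ _).trans (hi k hk)), fun n hn => (le_max_right _ _).trans (hi n hn)⟩

theorem F2_prefix_of_le {L : ℕ → List ℕ} (hmono : ∀ n, L n <+: L (n + 1)) {m n : ℕ}
    (h : m ≤ n) : L m <+: L n := by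
  induction n, h using Nat.le_induction with
  | base => exact List.prefix_rfl
  | succ n _ ih => exact ih.trans (hmono n)

/-- A pair of finite block sequences `(P₁, P₂)`: `P₂` consists of the elements of `P₁` and of the
elements of `W`, and `P₁`, `W` are disjoint. -/
structure F2_Pair (b : SchauderBasis 𝕜 X) (v : ℕ → X) (s : List ℕ) (P₁ P₂ W : List ℕ) : Prop where
  adm₁ : Adm b v P₁
  adm₂ : Adm b v P₂
  pre₁ : s <+: P₁
  pre₂ : s <+: P₂
  mem : ∀ i, i ∈ P₂ ↔ i ∈ P₁ ∨ i ∈ W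
  disj : ∀ i ∈ P₁, i ∉ W

theorem F2_adm_append {b : SchauderBasis 𝕜 X} {v : ℕ → X} {l l' : List ℕ} (h : Adm b v l)
    (h' : Adm b v l') (h'' : ∀ i ∈ l, ∀ j ∈ l', Lt b (v i) (v j)) : Adm b v (l ++ l') :=
  List.pairwise_append.2 ⟨h, h', h''⟩

/-- One step. -/
theorem F2_step {b : SchauderBasis 𝕜 X} {v : ℕ → X} (hv : Fam b v) {s : List ℕ}
    {O : ℕ → List ℕ → Prop} (hD : BData b v s O) (n : ℕ) {P₁ P₂ W U : List ℕ}
    (h : F2_Pair b v s P₁ P₂ W) (hU : Adm b v U)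
    (hP1U : ∀ i ∈ P₁, ∀ j ∈ U, Lt b (v i) (v j)) (hPU : ∀ i ∈ P₂, ∀ j ∈ U, Lt b (v i) (v j)) :
    ∃ D : List ℕ, D ≠ [] ∧ F2_Pair b v s (P₁ ++ D) (P₂ ++ U ++ D) (W ++ U) ∧
      O n (P₁ ++ D) ∧ O n (P₂ ++ U ++ D) := by
  obtain ⟨i₀, hi₀, -⟩ := F2_exists_beyond hv (P₁ ++ (P₂ ++ U)) 0
  have a1 : ∀ i ∈ P₁, Lt b (v i) (v i₀) := fun i hi => hi₀ i (List.mem_append_left _ hi)
  have a2 : ∀ i ∈ P₂ ++ U, Lt b (v i) (v i₀) := fun i hi => hi₀ i (List.mem_append_right _ hi)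
  have hadm1 : Adm b v (P₁ ++ [i₀]) := F2_adm_append h.adm₁ (List.pairwise_singleton _ _)
    (fun i hi j hj => by rw [List.mem_singleton] at hj; subst hj; exact a1 i hi)
  obtain ⟨l', ⟨D', rfl⟩, hl'2, hl'3⟩ := hD.dense n (P₁ ++ [i₀]) hadm1
    (h.pre₁.trans (List.prefix_append _ _))
  -- `D₁ = i₀ :: D'`
  have e1 : P₁ ++ [i₀] ++ D' = P₁ ++ (i₀ :: D') := by simp
  rw [e1] at hl'2 hl'3
  have b1 : Adm b v (i₀ :: D') := (List.pairwise_append.1 hl'2).2.1
  have b2 : ∀ j ∈ i₀ :: D', j = i₀ ∨ Lt b (v i₀) (v j) := by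
    intro j hj
    rcases List.mem_cons.1 hj with rfl | hj
    · exact Or.inl rfl
    · exact Or.inr ((List.pairwise_cons.1 b1).1 j hj)
  have b3 : ∀ i ∈ P₂ ++ U, ∀ j ∈ i₀ :: D', Lt b (v i) (v j) := by
    intro i hi j hj
    rcases b2 j hj with rfl | h1
    · exact a2 i hi
    · exact (a2 i hi).trans (hv.ne_zero _) h1
  have hadm2 : Adm b v (P₂ ++ U ++ (i₀ :: D')) :=
    F2_adm_append (F2_adm_append h.adm₂ hU hPU) b1 b3
  obtain ⟨l'', ⟨D₂, rfl⟩, hl''2, hl''3⟩ := hD.dense n (P₂ ++ U ++ (i₀ :: D')) hadm2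
    ((h.pre₂.trans (List.prefix_append _ _)).trans (List.prefix_append _ _))
  have e2 : P₂ ++ U ++ (i₀ :: D') ++ D₂ = P₂ ++ U ++ (i₀ :: D' ++ D₂) := by simp
  rw [e2] at hl''2 hl''3
  have c1 : Adm b v (i₀ :: D' ++ D₂) := (List.pairwise_append.1 hl''2).2.1
  have c2 : ∀ i ∈ P₂ ++ U, ∀ j ∈ i₀ :: D' ++ D₂, Lt b (v i) (v j) :=
    (List.pairwise_append.1 hl''2).2.2
  have c3 : ∀ j ∈ i₀ :: D' ++ D₂, j = i₀ ∨ Lt b (v i₀) (v j) := by
    intro j hj
    rw [List.cons_append] at hj c1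
    rcases List.mem_cons.1 hj with rfl | hj
    · exact Or.inl rfl
    · exact Or.inr ((List.pairwise_cons.1 c1).1 j hj)
  have c4 : ∀ i ∈ P₁, ∀ j ∈ i₀ :: D' ++ D₂, Lt b (v i) (v j) := by
    intro i hi j hj
    rcases c3 j hj with rfl | h1
    · exact a1 i hi
    · exact (a1 i hi).trans (hv.ne_zero _) h1
  refine ⟨i₀ :: D' ++ D₂, by simp, ?_, ?_, hl''3⟩
  · refine ⟨F2_adm_append h.adm₁ c1 c4, hl''2, h.pre₁.trans (List.prefix_append _ _),
      (h.pre₂.trans (List.prefix_append _ _)).trans (List.prefix_append _ _), ?_, ?_⟩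
    · intro i
      simp only [List.mem_append]
      rw [h.mem i]
      tauto
    · intro i hi hiW
      rcases List.mem_append.1 hi with hi | hi
      · rcases List.mem_append.1 hiW with hW | hW
        · exact h.disj i hi hW
        · exact not_lt_self hv i (hP1U i hi i hW)
      · have hmem : i ∈ P₂ ++ U := by
          rcases List.mem_append.1 hiW with hW | hW
          · exact List.mem_append_left _ ((h.mem i).2 (Or.inr hW))
          · exact List.mem_append_right _ hW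
        exact not_lt_self hv i (c2 i hmem i hi)
  · refine hD.mono n _ _ ?_ hl'3
    exact ⟨D₂, by simp⟩

theorem F2_out {b : SchauderBasis 𝕜 X} {v : ℕ → X} {s : List ℕ}
    {O : ℕ → List ℕ → Prop} (L₁ L₂ W : ℕ → List ℕ)
    (hp : ∀ n, F2_Pair b v s (L₁ n) (L₂ n) (W n)) (h₁ : L₁ 0 = s) (h₂ : L₂ 0 = s)
    (m₁ : ∀ n, L₁ n <+: L₁ (n + 1)) (m₂ : ∀ n, L₂ n <+: L₂ (n + 1))
    (mW : ∀ n, W n <+: W (n + 1)) (l₁ : ∀ n, n ≤ (L₁ n).length) (l₂ : ∀ n, n ≤ (L₂ n).length)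
    (O₁ : ∀ n, O n (L₁ (n + 1))) (O₂ : ∀ n, O n (L₂ (n + 1))) :
    ∃ z z', Gen b v s O z ∧ Gen b v s O z' ∧ Set.range z' = Set.range z ∪ {i | ∃ n, i ∈ W n} ∧
      Disjoint (Set.range z) {i | ∃ n, i ∈ W n} := by
  obtain ⟨z, hz1, hz2, hz3⟩ := exists_limit L₁ (fun n => (hp n).adm₁) m₁ l₁
  obtain ⟨z', hz1', hz2', hz3'⟩ := exists_limit L₂ (fun n => (hp n).adm₂) m₂ l₂
  refine ⟨z, z', ⟨hz1, ?_, fun n => ⟨_, (hz2 (n + 1)).symm ▸ O₁ n⟩⟩,
    ⟨hz1', ?_, fun n => ⟨_, (hz2' (n + 1)).symm ▸ O₂ n⟩⟩, ?_, ?_⟩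
  · have := hz2 0
    rwa [h₁] at this
  · have := hz2' 0
    rwa [h₂] at this
  · rw [hz3, hz3']
    ext i
    simp only [Set.mem_union, Set.mem_ofPred_eq]
    constructor
    · rintro ⟨n, hn⟩
      rcases ((hp n).mem i).1 hn with h | h
      · exact Or.inl ⟨n, h⟩
      · exact Or.inr ⟨n, h⟩
    · rintro (⟨n, hn⟩ | ⟨n, hn⟩)
      · exact ⟨n, ((hp n).mem i).2 (Or.inl hn)⟩
      · exact ⟨n, ((hp n).mem i).2 (Or.inr hn)⟩
  · rw [hz3, Set.disjoint_left]
    rintro i ⟨m, hm⟩ ⟨n, hn⟩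
    have h1 : i ∈ L₁ (max m n) := (F2_prefix_of_le m₁ (le_max_left m n)).subset hm
    have h2 : i ∈ W (max m n) := (F2_prefix_of_le mW (le_max_right m n)).subset hn
    exact (hp (max m n)).disj i h1 h2

/-- the supports of a block sequence move to infinity -/
theorem F2_far {b : SchauderBasis 𝕜 X} {v : ℕ → X} (hv : Fam b v) {y : ℕ → ℕ}
    (hy : AdmSeq b v y) : ∀ j n, b.coord n (v (y j)) ≠ 0 → j ≤ n := by
  intro j
  induction j with
  | zero => exact fun n _ => Nat.zero_le n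
  | succ j ih =>
    intro n hn
    obtain ⟨m, hm⟩ := E1_exists_coord_ne (b := b) (hv.ne_zero (y j))
    exact lt_of_le_of_lt (ih m hm) (hy j m n hm hn)

theorem F2_beyond {b : SchauderBasis 𝕜 X} {v : ℕ → X} (hv : Fam b v) {y : ℕ → ℕ}
    (hy : AdmSeq b v y) (l : List ℕ) : ∃ M, ∀ j, M ≤ j → ∀ i ∈ l, Lt b (v i) (v (y j)) := by
  induction l with
  | nil => exact ⟨0, fun j _ i hi => by simp at hi⟩
  | cons a l ih =>
    obtain ⟨M, hM⟩ := ih
    obtain ⟨M', hM'⟩ := (hv.finite a).bddAbove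
    refine ⟨max M (M' + 1), fun j hj i hi => ?_⟩
    rcases List.mem_cons.1 hi with rfl | hi
    · intro m n hm hn
      have h1 : m ≤ M' := hM' hm
      have h2 := F2_far hv hy j n hn
      have h3 : M' + 1 ≤ j := (le_max_right _ _).trans hj
      omega
    · exact hM j ((le_max_left _ _).trans hj) i hi

/-- the state of the construction -/
structure F2_St where
  P₁ : List ℕ
  P₂ : List ℕ
  W : List ℕ
  Q₁ : List ℕ
  Q₂ : List ℕ
  W' : List ℕ
  k : ℕ

structure F2_Inv (b : SchauderBasis 𝕜 X) (v : ℕ → X) (s : List ℕ) (y : ℕ → ℕ) (st : F2_St) :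
    Prop where
  p : F2_Pair b v s st.P₁ st.P₂ st.W
  q : F2_Pair b v s st.Q₁ st.Q₂ st.W'
  r₁ : ∀ i ∈ st.P₁, ∀ j, st.k ≤ j → Lt b (v i) (v (y j))
  r₂ : ∀ i ∈ st.P₂, ∀ j, st.k ≤ j → Lt b (v i) (v (y j))

structure F2_Next (O : ℕ → List ℕ → Prop) (y : ℕ → ℕ) (n : ℕ) (st st' : F2_St) : Prop where
  k : st.k < st'.k
  p₁ : st'.P₁ = st.Q₁
  p₂ : st'.P₂ = st.Q₂
  w : st'.W = st.W'
  q : ∃ D, D ≠ [] ∧ st'.Q₁ = st.P₁ ++ D ∧
    st'.Q₂ = st.P₂ ++ (List.range' st.k (st'.k - st.k)).map y ++ D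
  w' : st'.W' = st.W ++ (List.range' st.k (st'.k - st.k)).map y
  o₁ : O n st'.Q₁
  o₂ : O n st'.Q₂

theorem F2_exists_next {b : SchauderBasis 𝕜 X} {v : ℕ → X} (hv : Fam b v) {s : List ℕ}
    {O : ℕ → List ℕ → Prop} (hD : BData b v s O) {y : ℕ → ℕ} (hy : AdmSeq b v y) (n : ℕ)
    {st : F2_St} (h : F2_Inv b v s y st) :
    ∃ st', F2_Inv b v s y st' ∧ F2_Next O y n st st' := by
  obtain ⟨M, hM⟩ := F2_beyond hv hy (st.Q₁ ++ st.Q₂)
  set k' := max M (st.k + 1) with hk'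
  have hk : st.k < k' := lt_of_lt_of_le (Nat.lt_succ_self _) (le_max_right _ _)
  set U := (List.range' st.k (k' - st.k)).map y with hU
  have hUadm : Adm b v U := by
    unfold Adm
    rw [hU, List.pairwise_map]
    refine (List.pairwise_lt_range' (s := st.k) (n := k' - st.k)).imp fun h => hy.lt hv h
  have hUmem : ∀ j ∈ U, ∃ i, st.k ≤ i ∧ y i = j := by
    intro j hj
    rw [hU, List.mem_map] at hj
    obtain ⟨i, hi, rfl⟩ := hj
    rw [List.mem_range'_1] at hi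
    exact ⟨i, hi.1, rfl⟩
  obtain ⟨D, hD1, hD2, hD3, hD4⟩ := F2_step hv hD n h.p hUadm
    (fun i hi j hj => by
      obtain ⟨m, hm, rfl⟩ := hUmem j hj
      exact h.r₁ i hi m hm)
    (fun i hi j hj => by
      obtain ⟨m, hm, rfl⟩ := hUmem j hj
      exact h.r₂ i hi m hm)
  refine ⟨⟨st.Q₁, st.Q₂, st.W', st.P₁ ++ D, st.P₂ ++ U ++ D, st.W ++ U, k'⟩, ?_, ?_⟩
  · refine ⟨h.q, hD2, fun i hi j hj => ?_, fun i hi j hj => ?_⟩
    · exact hM j ((le_max_left _ _).trans hj) i (List.mem_append_left _ hi)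
    · exact hM j ((le_max_left _ _).trans hj) i (List.mem_append_right _ hi)
  · exact ⟨hk, rfl, rfl, rfl, ⟨D, hD1, rfl, rfl⟩, rfl, hD3, hD4⟩

theorem fuse {b : SchauderBasis 𝕜 X} {v : ℕ → X} (hv : Fam b v) {s : List ℕ}
    {O : ℕ → List ℕ → Prop} (hD : BData b v s O) (y : ℕ → ℕ) (hy : AdmSeq b v y)
    (hsy : ∀ i ∈ s, ∀ k, Lt b (v i) (v (y k))) :
    ∃ A : Set ℕ,
      (∃ z z', Gen b v s O z ∧ Gen b v s O z' ∧ Set.range z' = Set.range z ∪ y '' A ∧
        Disjoint (Set.range z) (y '' A)) ∧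
      (∃ z z', Gen b v s O z ∧ Gen b v s O z' ∧ Set.range z' = Set.range z ∪ y '' Aᶜ ∧
        Disjoint (Set.range z) (y '' Aᶜ)) := by
  have hs0 : F2_Pair b v s s s [] :=
    ⟨hD.adm, hD.adm, List.prefix_rfl, List.prefix_rfl, fun i => by simp, fun i _ => by simp⟩
  have h0 : F2_Inv b v s y ⟨s, s, [], s, s, [], 0⟩ :=
    ⟨hs0, hs0, fun i hi j _ => hsy i hi j, fun i hi j _ => hsy i hi j⟩
  choose f hf1 hf2 using fun (n : ℕ) (st : {st : F2_St // F2_Inv b v s y st}) =>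
    F2_exists_next hv hD hy n st.2
  let T : ℕ → {st : F2_St // F2_Inv b v s y st} := fun t =>
    Nat.rec ⟨⟨s, s, [], s, s, [], 0⟩, h0⟩ (fun t st => ⟨f (t / 2) st, hf1 (t / 2) st⟩) t
  have hT0 : (T 0).1 = ⟨s, s, [], s, s, [], 0⟩ := rfl
  have hT : ∀ t, F2_Next O y (t / 2) (T t).1 (T (t + 1)).1 := fun t => hf2 (t / 2) (T t)
  let κ : ℕ → ℕ := fun t => (T t).1.k
  have hκ : StrictMono κ := strictMono_nat_of_lt_succ fun t => (hT t).k
  have hκ0 : κ 0 = 0 := rfl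
  -- the windows
  have hwin : ∀ j, ∃ t, κ t ≤ j ∧ j < κ (t + 1) := by
    intro j
    have hex : ∃ t, j < κ t := ⟨j + 1, lt_of_lt_of_le (Nat.lt_succ_self j) (hκ.id_le (j + 1))⟩
    classical
    have h1 := Nat.find_spec hex
    have h2 : Nat.find hex ≠ 0 := by
      intro h
      rw [h, hκ0] at h1
      exact Nat.not_lt_zero _ h1
    obtain ⟨t, ht⟩ := Nat.exists_eq_succ_of_ne_zero h2
    refine ⟨t, ?_, by rw [ht] at h1; exact h1⟩
    have h3 := Nat.find_min hex (m := t) (by rw [ht]; exact Nat.lt_succ_self t)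
    exact not_lt.1 h3
  have hwin1 : ∀ j t t', κ t ≤ j → j < κ (t + 1) → κ t' ≤ j → j < κ (t' + 1) → t = t' := by
    intro j t t' h1 h2 h3 h4
    have h5 : t < t' + 1 := hκ.lt_iff_lt.1 (lt_of_le_of_lt h1 h4)
    have h6 : t' < t + 1 := hκ.lt_iff_lt.1 (lt_of_le_of_lt h3 h2)
    omega
  let A : Set ℕ := {j | ∃ n, κ (2 * n) ≤ j ∧ j < κ (2 * n + 1)}
  have hAc : Aᶜ = {j | ∃ n, κ (2 * n + 1) ≤ j ∧ j < κ (2 * n + 2)} := by
    ext j
    simp only [Set.mem_compl_iff, A, Set.mem_ofPred_eq]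
    constructor
    · intro h
      obtain ⟨t, ht1, ht2⟩ := hwin j
      rcases Nat.even_or_odd' t with ⟨c, rfl | rfl⟩
      · exact absurd ⟨c, ht1, ht2⟩ h
      · exact ⟨c, ht1, ht2⟩
    · rintro ⟨n, h1, h2⟩ ⟨m, h3, h4⟩
      have := hwin1 j _ _ h1 h2 h3 h4
      omega
  have hmemU : ∀ (a c i : ℕ), a ≤ c → (i ∈ (List.range' a (c - a)).map y ↔
      ∃ j, a ≤ j ∧ j < c ∧ y j = i) := by
    intro a c i hac
    rw [List.mem_map]
    constructor
    · rintro ⟨j, hj, rfl⟩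
      rw [List.mem_range'_1] at hj
      exact ⟨j, hj.1, by omega, rfl⟩
    · rintro ⟨j, h1, h2, rfl⟩
      exact ⟨j, by rw [List.mem_range'_1]; omega, rfl⟩
  have e1 : ∀ n, 2 * n / 2 = n := fun n => by omega
  have e2 : ∀ n, (2 * n + 1) / 2 = n := fun n => by omega
  refine ⟨A, ?_, ?_⟩
  · -- the even pair
    have hn1 : ∀ n, F2_Next O y n (T (2 * n)).1 (T (2 * n + 1)).1 := fun n => by
      have := hT (2 * n); rwa [e1] at this
    have hn2 : ∀ n, F2_Next O y n (T (2 * n + 1)).1 (T (2 * n + 2)).1 := fun n => by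
      have := hT (2 * n + 1); rwa [e2] at this
    have hP₁ : ∀ n, (T (2 * (n + 1))).1.P₁ = (T (2 * n + 1)).1.Q₁ := fun n => (hn2 n).p₁
    have hP₂ : ∀ n, (T (2 * (n + 1))).1.P₂ = (T (2 * n + 1)).1.Q₂ := fun n => (hn2 n).p₂
    have hW : ∀ n, (T (2 * (n + 1))).1.W = (T (2 * n)).1.W ++
        (List.range' (κ (2 * n)) (κ (2 * n + 1) - κ (2 * n))).map y := fun n => by
      rw [show (T (2 * (n + 1))).1.W = (T (2 * n + 1)).1.W' from (hn2 n).w]
      exact (hn1 n).w'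
    have hset : {i | ∃ n, i ∈ (T (2 * n)).1.W} = y '' A := by
      ext i
      constructor
      · rintro ⟨n, hn⟩
        induction n with
        | zero => exact absurd hn (by rw [Nat.mul_zero, hT0]; simp)
        | succ n ih =>
          rw [hW n, List.mem_append] at hn
          rcases hn with hn | hn
          · exact ih hn
          · rw [hmemU _ _ _ (hκ.monotone (Nat.le_succ _))] at hn
            obtain ⟨j, h1, h2, rfl⟩ := hn
            exact ⟨j, ⟨n, h1, h2⟩, rfl⟩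
      · rintro ⟨j, ⟨n, h1, h2⟩, rfl⟩
        refine ⟨n + 1, ?_⟩
        rw [hW n, List.mem_append]
        exact Or.inr ((hmemU _ _ _ (hκ.monotone (Nat.le_succ _))).2 ⟨j, h1, h2, rfl⟩)
    rw [← hset]
    refine F2_out (fun n => (T (2 * n)).1.P₁) (fun n => (T (2 * n)).1.P₂)
      (fun n => (T (2 * n)).1.W) (fun n => (T (2 * n)).2.p) rfl rfl ?_ ?_ ?_ ?_ ?_ ?_ ?_
    · intro n
      obtain ⟨D, -, h1, -⟩ := (hn1 n).q
      change (T (2 * n)).1.P₁ <+: (T (2 * (n + 1))).1.P₁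
      rw [hP₁ n, h1]
      exact List.prefix_append _ _
    · intro n
      obtain ⟨D, -, -, h1⟩ := (hn1 n).q
      change (T (2 * n)).1.P₂ <+: (T (2 * (n + 1))).1.P₂
      rw [hP₂ n, h1, List.append_assoc]
      exact List.prefix_append _ _
    · intro n
      change (T (2 * n)).1.W <+: (T (2 * (n + 1))).1.W
      rw [hW n]
      exact List.prefix_append _ _
    · intro n
      induction n with
      | zero => exact Nat.zero_le _
      | succ n ih =>
        obtain ⟨D, h0, h1, -⟩ := (hn1 n).q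
        change n + 1 ≤ (T (2 * (n + 1))).1.P₁.length
        rw [hP₁ n, h1, List.length_append]
        have := List.length_pos_iff.2 h0
        have ih' : n ≤ (T (2 * n)).1.P₁.length := ih
        omega
    · intro n
      induction n with
      | zero => exact Nat.zero_le _
      | succ n ih =>
        obtain ⟨D, h0, -, h1⟩ := (hn1 n).q
        change n + 1 ≤ (T (2 * (n + 1))).1.P₂.length
        rw [hP₂ n, h1, List.length_append, List.length_append]
        have := List.length_pos_iff.2 h0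
        have ih' : n ≤ (T (2 * n)).1.P₂.length := ih
        omega
    · intro n
      change O n (T (2 * (n + 1))).1.P₁
      rw [hP₁ n]
      exact (hn1 n).o₁
    · intro n
      change O n (T (2 * (n + 1))).1.P₂
      rw [hP₂ n]
      exact (hn1 n).o₂
  · -- the odd pair
    have hn1 : ∀ n, F2_Next O y n (T (2 * n)).1 (T (2 * n + 1)).1 := fun n => by
      have := hT (2 * n); rwa [e1] at this
    have hn2 : ∀ n, F2_Next O y n (T (2 * n + 1)).1 (T (2 * n + 2)).1 := fun n => by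
      have := hT (2 * n + 1); rwa [e2] at this
    have hW : ∀ n, (T (2 * (n + 1))).1.W' = (T (2 * n)).1.W' ++
        (List.range' (κ (2 * n + 1)) (κ (2 * n + 2) - κ (2 * n + 1))).map y := fun n => by
      rw [← (hn1 n).w]
      exact (hn2 n).w'
    have hset : {i | ∃ n, i ∈ (T (2 * n)).1.W'} = y '' Aᶜ := by
      rw [hAc]
      ext i
      constructor
      · rintro ⟨n, hn⟩
        induction n with
        | zero => exact absurd hn (by rw [Nat.mul_zero, hT0]; simp)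
        | succ n ih =>
          rw [hW n, List.mem_append] at hn
          rcases hn with hn | hn
          · exact ih hn
          · rw [hmemU (κ (2 * n + 1)) (κ (2 * n + 2)) i (hn2 _).k.le] at hn
            obtain ⟨j, h1, h2, rfl⟩ := hn
            exact ⟨j, ⟨n, h1, h2⟩, rfl⟩
      · rintro ⟨j, ⟨n, h1, h2⟩, rfl⟩
        refine ⟨n + 1, ?_⟩
        rw [hW n, List.mem_append]
        exact Or.inr ((hmemU (κ (2 * n + 1)) (κ (2 * n + 2)) _ (hn2 _).k.le).2
          ⟨j, h1, h2, rfl⟩)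
    rw [← hset]
    have hq : ∀ n, ∃ D, D ≠ [] ∧ (T (2 * (n + 1))).1.Q₁ = (T (2 * n)).1.Q₁ ++ D ∧
        ∃ U, (T (2 * (n + 1))).1.Q₂ = (T (2 * n)).1.Q₂ ++ U ++ D := by
      intro n
      obtain ⟨D, h0, h1, h2⟩ := (hn2 n).q
      rw [(hn1 n).p₁] at h1
      rw [(hn1 n).p₂] at h2
      exact ⟨D, h0, h1, _, h2⟩
    refine F2_out (fun n => (T (2 * n)).1.Q₁) (fun n => (T (2 * n)).1.Q₂)
      (fun n => (T (2 * n)).1.W') (fun n => (T (2 * n)).2.q) rfl rfl ?_ ?_ ?_ ?_ ?_ ?_ ?_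
    · intro n
      obtain ⟨D, -, h1, -⟩ := hq n
      change (T (2 * n)).1.Q₁ <+: (T (2 * (n + 1))).1.Q₁
      rw [h1]
      exact List.prefix_append _ _
    · intro n
      obtain ⟨D, -, -, U, h1⟩ := hq n
      change (T (2 * n)).1.Q₂ <+: (T (2 * (n + 1))).1.Q₂
      rw [h1, List.append_assoc]
      exact List.prefix_append _ _
    · intro n
      change (T (2 * n)).1.W' <+: (T (2 * (n + 1))).1.W'
      rw [hW n]
      exact List.prefix_append _ _
    · intro n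
      induction n with
      | zero => exact Nat.zero_le _
      | succ n ih =>
        obtain ⟨D, h0, h1, -⟩ := hq n
        change n + 1 ≤ (T (2 * (n + 1))).1.Q₁.length
        rw [h1, List.length_append]
        have := List.length_pos_iff.2 h0
        have ih' : n ≤ (T (2 * n)).1.Q₁.length := ih
        omega
    · intro n
      induction n with
      | zero => exact Nat.zero_le _
      | succ n ih =>
        obtain ⟨D, h0, -, U, h1⟩ := hq n
        change n + 1 ≤ (T (2 * (n + 1))).1.Q₂.length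
        rw [h1, List.length_append, List.length_append]
        have := List.length_pos_iff.2 h0
        have ih' : n ≤ (T (2 * n)).1.Q₂.length := ih
        omega
    · intro n
      exact (hn2 n).o₁
    · intro n
      exact (hn2 n).o₂

end Pool.Agent.Lib.MP_a0554b_an.P
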