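import Mathlib
import Pool.Agent.Lib.MP_a0554b_an.P.Defs
set_option autoImplicit false

/-!
# Unconditional bases: bounded multipliers and projections
-/

noncomputable section

namespace Pool.Agent.Lib.MP_a0554b_an.P

open Filter Topology Set
open scoped ENNReal
open Pool.Agent.Lib.MP_a0554b_an

universe u v w

variable {𝕜 : Type v} [RCLike 𝕜] {X : Type u} [NormedAddCommGroup X] [NormedSpace 𝕜 X]

/-- a real family with bounded partial sums -/
theorem U1_real {F : Finset ℕ} {r : ℕ → ℝ} {R : ℝ} (h : ∀ F' ⊆ F, |∑ i ∈ F', r i| ≤ R) :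
    ∑ i ∈ F, |r i| ≤ 2 * R := by
  classical
  have h1 := h (F.filter fun i => 0 ≤ r i) (Finset.filter_subset _ _)
  have h2 := h (F.filter fun i => ¬ 0 ≤ r i) (Finset.filter_subset _ _)
  rw [← Finset.sum_filter_add_sum_filter_not F (fun i => 0 ≤ r i) (fun i => |r i|)]
  have h3 : ∑ i ∈ F.filter (fun i => 0 ≤ r i), |r i| = ∑ i ∈ F.filter (fun i => 0 ≤ r i), r i :=
    Finset.sum_congr rfl fun i hi => abs_of_nonneg (Finset.mem_filter.1 hi).2
  have h4 : ∑ i ∈ F.filter (fun i => ¬ 0 ≤ r i), |r i| =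
      -∑ i ∈ F.filter (fun i => ¬ 0 ≤ r i), r i := by
    rw [← Finset.sum_neg_distrib]
    refine Finset.sum_congr rfl fun i hi => ?_
    rw [abs_of_nonpos (le_of_lt (not_le.1 (Finset.mem_filter.1 hi).2))]
  rw [h3, h4]
  have h5 := (abs_le.1 h1).2
  have h6 := (abs_le.1 h2).1
  linarith

/-- the norm of a scalar is at most the sum of the real and the imaginary part -/
theorem U1_norm (a : 𝕜) : ‖a‖ ≤ |RCLike.re a| + |RCLike.im a| := by
  have h1 : ‖a‖ = ‖((RCLike.re a : ℝ) : 𝕜) + ((RCLike.im a : ℝ) : 𝕜) * RCLike.I‖ := by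
    rw [RCLike.re_add_im]
  rw [h1]
  refine (norm_add_le _ _).trans ?_
  rw [norm_mul, RCLike.norm_ofReal, RCLike.norm_ofReal]
  have h2 : ‖(RCLike.I : 𝕜)‖ ≤ 1 := by
    rw [RCLike.norm_I]
    split_ifs
    · exact zero_le_one
    · exact le_refl _
  have h3 := mul_le_mul_of_nonneg_left h2 (abs_nonneg (RCLike.im a))
  linarith

/-- the coordinates of the basis vectors -/
theorem U1_ortho (b : SchauderBasis 𝕜 X) (i j : ℕ) : b.coord i (b j) = if i = j then (1 : 𝕜) else 0 := by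
  have h1 := b.ortho i j
  by_cases h : i = j
  · subst h
    rw [if_pos rfl]
    refine h1.trans ?_
    simp only [Pi.single, Function.update_self]
  · rw [if_neg h]
    refine h1.trans ?_
    unfold Pi.single Function.update
    rw [dif_neg h]
    rfl

/-- a family of scalars with bounded partial sums -/
theorem U1_scal {F : Finset ℕ} {a : ℕ → 𝕜} {R : ℝ} (h : ∀ F' ⊆ F, ‖∑ i ∈ F', a i‖ ≤ R) :
    ∑ i ∈ F, ‖a i‖ ≤ 4 * R := by
  have h1 : ∑ i ∈ F, |RCLike.re (a i)| ≤ 2 * R := by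
    refine U1_real fun F' hF' => ?_
    have h2 := h F' hF'
    have h3 : ∑ i ∈ F', RCLike.re (a i) = RCLike.re (∑ i ∈ F', a i) := (map_sum _ _ _).symm
    rw [h3]
    exact (RCLike.abs_re_le_norm _).trans h2
  have h1' : ∑ i ∈ F, |RCLike.im (a i)| ≤ 2 * R := by
    refine U1_real fun F' hF' => ?_
    have h2 := h F' hF'
    have h3 : ∑ i ∈ F', RCLike.im (a i) = RCLike.im (∑ i ∈ F', a i) := (map_sum _ _ _).symm
    rw [h3]
    exact (RCLike.abs_im_le_norm _).trans h2
  have h4 : ∑ i ∈ F, ‖a i‖ ≤ ∑ i ∈ F, (|RCLike.re (a i)| + |RCLike.im (a i)|) :=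
    Finset.sum_le_sum fun i _ => U1_norm _
  rw [Finset.sum_add_distrib] at h4
  linarith

/-- all finite projections are uniformly bounded -/
theorem U1_bound [CompleteSpace X] (b : SchauderBasis 𝕜 X) (hu : Unconditional b) :
    ∃ C : ℝ, 0 ≤ C ∧ ∀ (F : Finset ℕ) (x : X), ‖∑ i ∈ F, b.coord i x • b i‖ ≤ C * ‖x‖ := by
  have hs : ∀ x : X, HasSum (fun i => b.coord i x • b i) x := by
    intro x
    have h1 := (hu x).hasSum
    have h2 := h1.tendsto_sum_nat
    have h3 := SchauderBasis.tendsto_proj b x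
    simp only [SchauderBasis.proj_apply] at h3
    have h4 := tendsto_nhds_unique h2 h3
    rw [h4] at h1
    exact h1
  let bu : UnconditionalSchauderBasis ℕ 𝕜 X :=
    { basis := b.basis
      coord := b.coord
      ortho := b.ortho
      expansion := hs }
  obtain ⟨C, hC⟩ := bu.exists_norm_proj_le
  refine ⟨max C 0, le_max_right _ _, fun F x => ?_⟩
  have h5 : ∑ i ∈ F, b.coord i x • b i = bu.proj F x := (bu.proj_apply F x).symm
  rw [h5]
  refine ((bu.proj F).le_opNorm x).trans ?_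
  exact mul_le_mul_of_nonneg_right ((hC F).trans (le_max_left _ _)) (norm_nonneg _)

/-- PROOF. `b` with the same coordinates is an `UnconditionalSchauderBasis ℕ 𝕜 X` (Mathlib,
Analysis/Normed/Module/Bases.lean: the expansion of `x` is summable by `hu`, and its sum is `x` by
`SchauderBasis.tendsto_proj`), so by `GeneralSchauderBasis.exists_norm_proj_le` there is `C` with
`‖∑ i ∈ F, b.coord i x • b i‖ ≤ C * ‖x‖` for all finite sets `F`. For scalars `a i`
(`i ∈ F`), `∑ i ∈ F, ‖a i‖ ≤ 4 * R` if `‖∑ i ∈ F', a i‖ ≤ R` for all `F' ⊆ F`: use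
`‖a‖ ≤ |re a| + |im a|` (`RCLike.norm_le_abs_re_add_abs_im`) and split `F` by the signs of `re`
and of `im`. With `a i = b.coord i x * f (b i)`, `‖f‖ ≤ 1`, `R = C * ‖x‖`:
`‖f (∑ i ∈ F, (c i * b.coord i x) • b i)‖ ≤ ∑ i ∈ F, ‖b.coord i x * f (b i)‖ ≤ 4 * C * ‖x‖`, and
by Hahn-Banach (`exists_dual_vector''`) `‖∑ i ∈ F, (c i * b.coord i x) • b i‖ ≤ 4 * C * ‖x‖`. Apply
this to `x' = ∑ i ∈ F, b.coord i x • b i` in the place of `x` to see that the series
`∑ (c i * b.coord i x) • b i` is summable (Cauchy criterion: `summable_iff_vanishing_norm`). Let `M x` be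
its sum; linear, bounded by `4 * C`, and `b.coord n (M x) = c n * b.coord n x` by continuity of
`b.coord n`. Take `K = max (4 * C) 1`. -/
theorem exists_mult [CompleteSpace X] (b : SchauderBasis 𝕜 X) (hu : Unconditional b) :
    ∃ K : ℝ, 1 ≤ K ∧ ∀ c : ℕ → 𝕜, (∀ n, ‖c n‖ ≤ 1) → ∃ M : X →L[𝕜] X,
      (∀ x n, b.coord n (M x) = c n * b.coord n x) ∧ ∀ x, ‖M x‖ ≤ K * ‖x‖ := by
  classical
  obtain ⟨C, hC0, hC⟩ := U1_bound b hu
  -- the bound with multipliers
  have key : ∀ c : ℕ → 𝕜, (∀ n, ‖c n‖ ≤ 1) → ∀ (F : Finset ℕ) (x : X),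
      ‖∑ i ∈ F, (c i * b.coord i x) • b i‖ ≤ 4 * C * ‖x‖ := by
    intro c hc F x
    obtain ⟨f, hf1, hf2⟩ := exists_dual_vector'' 𝕜 (∑ i ∈ F, (c i * b.coord i x) • b i)
    have h1 : ‖∑ i ∈ F, (c i * b.coord i x) • b i‖ =
        ‖f (∑ i ∈ F, (c i * b.coord i x) • b i)‖ := by
      rw [hf2, RCLike.norm_ofReal, abs_norm]
    rw [h1, map_sum]
    have h2 : ∑ i ∈ F, ‖b.coord i x * f (b i)‖ ≤ 4 * (C * ‖x‖) := by
      refine U1_scal fun F' _ => ?_
      have h3 : ∑ i ∈ F', b.coord i x * f (b i) = f (∑ i ∈ F', b.coord i x • b i) := by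
        rw [map_sum]
        refine Finset.sum_congr rfl fun i _ => ?_
        rw [map_smul, smul_eq_mul]
      rw [h3]
      have h4 := f.le_opNorm (∑ i ∈ F', b.coord i x • b i)
      have h5 := hC F' x
      have h6 : ‖f‖ * ‖∑ i ∈ F', b.coord i x • b i‖ ≤ 1 * ‖∑ i ∈ F', b.coord i x • b i‖ :=
        mul_le_mul_of_nonneg_right hf1 (norm_nonneg _)
      linarith
    calc ‖∑ i ∈ F, f ((c i * b.coord i x) • b i)‖
        ≤ ∑ i ∈ F, ‖f ((c i * b.coord i x) • b i)‖ := norm_sum_le _ _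
      _ ≤ ∑ i ∈ F, ‖b.coord i x * f (b i)‖ := by
          refine Finset.sum_le_sum fun i _ => ?_
          rw [map_smul, smul_eq_mul, mul_assoc, norm_mul (c i)]
          have := mul_le_mul_of_nonneg_right (hc i) (norm_nonneg (b.coord i x * f (b i)))
          rwa [one_mul] at this
      _ ≤ 4 * (C * ‖x‖) := h2
      _ = 4 * C * ‖x‖ := by ring
  have hcoordF : ∀ (F : Finset ℕ) (x : X), ∀ i ∈ F,
      b.coord i (∑ j ∈ F, b.coord j x • b j) = b.coord i x := by
    intro F x i hi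
    rw [map_sum, Finset.sum_eq_single i]
    · rw [map_smul, U1_ortho, if_pos rfl, smul_eq_mul, mul_one]
    · intro j _ hj
      rw [map_smul, U1_ortho, if_neg (Ne.symm hj), smul_zero]
    · intro h
      exact absurd hi h
  have key2 : ∀ c : ℕ → 𝕜, (∀ n, ‖c n‖ ≤ 1) → ∀ (F : Finset ℕ) (x : X),
      ‖∑ i ∈ F, (c i * b.coord i x) • b i‖ ≤ 4 * C * ‖∑ i ∈ F, b.coord i x • b i‖ := by
    intro c hc F x
    have h1 := key c hc F (∑ j ∈ F, b.coord j x • b j)
    have h2 : ∑ i ∈ F, (c i * b.coord i (∑ j ∈ F, b.coord j x • b j)) • b i =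
        ∑ i ∈ F, (c i * b.coord i x) • b i :=
      Finset.sum_congr rfl fun i hi => by rw [hcoordF F x i hi]
    rw [h2] at h1
    exact h1
  refine ⟨max (4 * C) 1, le_max_right _ _, fun c hc => ?_⟩
  have hsum : ∀ x, Summable fun i => (c i * b.coord i x) • b i := by
    intro x
    rw [summable_iff_vanishing_norm]
    intro ε hε
    have hpos : 0 < 4 * C + 1 := by positivity
    obtain ⟨s, hs⟩ := summable_iff_vanishing_norm.1 (hu x) (ε / (4 * C + 1)) (div_pos hε hpos)
    refine ⟨s, fun t ht => ?_⟩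
    have h1 := key2 c hc t x
    have h2 := hs t ht
    have h3 : 4 * C * ‖∑ i ∈ t, b.coord i x • b i‖ ≤ 4 * C * (ε / (4 * C + 1)) :=
      mul_le_mul_of_nonneg_left h2.le (by positivity)
    have h4 : 4 * C * (ε / (4 * C + 1)) < ε := by
      rw [← mul_div_assoc, div_lt_iff₀ hpos]
      nlinarith
    linarith
  let M0 : X →ₗ[𝕜] X :=
    { toFun := fun x => ∑' i, (c i * b.coord i x) • b i
      map_add' := by
        intro x y
        rw [← (hsum x).tsum_add (hsum y)]
        refine tsum_congr fun i => ?_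
        rw [map_add, mul_add, add_smul]
      map_smul' := by
        intro a x
        rw [RingHom.id_apply, ← (hsum x).tsum_const_smul a]
        refine tsum_congr fun i => ?_
        rw [map_smul, smul_eq_mul, smul_smul]
        congr 1
        ring }
  have hM0 : ∀ x, M0 x = ∑' i, (c i * b.coord i x) • b i := fun x => rfl
  have hbd : ∀ x, ‖M0 x‖ ≤ 4 * C * ‖x‖ := by
    intro x
    rw [hM0]
    exact le_of_tendsto (hsum x).hasSum.norm (Filter.Eventually.of_forall fun F => key c hc F x)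
  refine ⟨M0.mkContinuous (4 * C) hbd, fun x n => ?_, fun x => ?_⟩
  · show b.coord n (∑' i, (c i * b.coord i x) • b i) = _
    rw [(b.coord n).map_tsum (hsum x), tsum_eq_single n]
    · rw [map_smul, U1_ortho, if_pos rfl, smul_eq_mul, mul_one]
    · intro i hi
      rw [map_smul, U1_ortho, if_neg (Ne.symm hi), smul_zero]
  · refine (hbd x).trans (mul_le_mul_of_nonneg_right (le_max_left _ _) (norm_nonneg _))

/-- PROOF: `exists_mult` for the indicator function of `I`. -/
theorem exists_proj [CompleteSpace X] (b : SchauderBasis 𝕜 X) (hu : Unconditional b) :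
    ∃ K : ℝ, 1 ≤ K ∧ ∀ I : Set ℕ, ∃ P : X →L[𝕜] X,
      (∀ x, ∀ n ∈ I, b.coord n (P x) = b.coord n x) ∧ (∀ x, ∀ n, n ∉ I → b.coord n (P x) = 0) ∧
      ∀ x, ‖P x‖ ≤ K * ‖x‖ := by
  classical
  obtain ⟨K, hK, h⟩ := exists_mult b hu
  refine ⟨K, hK, fun I => ?_⟩
  obtain ⟨M, h1, h2⟩ := h (fun n => if n ∈ I then 1 else 0) (fun n => by
    split_ifs
    · rw [norm_one]
    · rw [norm_zero]; exact zero_le_one)
  refine ⟨M, fun x n hn => ?_, fun x n hn => ?_, h2⟩
  · rw [h1, if_pos hn, one_mul]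
  · rw [h1, if_neg hn, zero_mul]

/-- PROOF: all coordinates agree, so all `b.proj n` agree, and `b.proj n x → x`. -/
theorem ext_coord (b : SchauderBasis 𝕜 X) {x x' : X} (h : ∀ n, b.coord n x = b.coord n x') :
    x = x' := by
  have h1 : ∀ n, b.proj n x = b.proj n x' := by
    intro n
    rw [SchauderBasis.proj_apply, SchauderBasis.proj_apply]
    exact Finset.sum_congr rfl fun i _ => by rw [h i]
  have h2 := SchauderBasis.tendsto_proj b x
  simp only [h1] at h2
  exact tendsto_nhds_unique h2 (SchauderBasis.tendsto_proj b x')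

end Pool.Agent.Lib.MP_a0554b_an.P
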