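import Mathlib
import Pool.Agent.Lib.MP_a0554b_an.P.Defs
import Pool.Agent.Lib.MP_a0554b_an.P.U1
set_option autoImplicit false

/-!
# Splitting of closed spans along a set of coordinates
-/

noncomputable section

namespace Pool.Agent.Lib.MP_a0554b_an.P

open Filter Topology Set
open scoped ENNReal
open Pool.Agent.Lib.MP_a0554b_an

universe u v w

variable {𝕜 : Type v} [RCLike 𝕜] {X : Type u} [NormedAddCommGroup X] [NormedSpace 𝕜 X]

/-- PROOF. `K₀` from `exists_proj`, `K = max (K₀ + 1) 2` (norms of pairs are maxima). Given `S`, `S'`,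
`I` take `P` for `I`. `P x = x` for `x ∈ S`, hence (continuity, linearity) for
`x ∈ cs S`; `P x = 0` for `x ∈ S'`, hence for `x ∈ cs S'` (`ext_coord`). The map
`(x, x') ↦ x + x'` goes from `cs S × cs S'` to `cs (S ∪ S')` with norm at most `2`; the inverse is
`z ↦ (P z, z - P z)`: `P z ∈ cs S` and `z - P z ∈ cs S'` for `z ∈ S ∪ S'`, hence for all
`z ∈ cs (S ∪ S')` (closed subspaces, preimages under `P`). -/
theorem split [CompleteSpace X] (b : SchauderBasis 𝕜 X) (hu : Unconditional b) :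
    ∃ K : ℝ, 0 ≤ K ∧ ∀ (S S' : Set X) (I : Set ℕ),
      (∀ x ∈ S, ∀ n, n ∉ I → b.coord n x = 0) → (∀ x ∈ S', ∀ n ∈ I, b.coord n x = 0) →
      IsoB 𝕜 K (cs 𝕜 S × cs 𝕜 S') (cs 𝕜 (S ∪ S')) := by
  obtain ⟨K₀, hK₀, hP⟩ := exists_proj b hu
  refine ⟨max (K₀ + 1) 2, le_trans (by norm_num) (le_max_right _ _), ?_⟩
  intro S S' I hS hS'
  obtain ⟨P, h1, h2, h3⟩ := hP I
  have q1 : ∀ x ∈ S, P x = x := fun x hx => by
    refine ext_coord b fun n => ?_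
    by_cases hn : n ∈ I
    · exact h1 x n hn
    · rw [h2 x n hn, hS x hx n hn]
  have q2 : ∀ x ∈ S', P x = 0 := fun x hx => by
    refine ext_coord b fun n => ?_
    rw [map_zero]
    by_cases hn : n ∈ I
    · rw [h1 x n hn, hS' x hx n hn]
    · exact h2 x n hn
  have p1 : ∀ x ∈ cs 𝕜 S, P x = x := by
    have h : cs 𝕜 S ≤ LinearMap.eqLocus (P : X →ₗ[𝕜] X) LinearMap.id :=
      cs_le (isClosed_eq P.continuous continuous_id) fun x hx => q1 x hx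
    exact fun x hx => h hx
  have p2 : ∀ x ∈ cs 𝕜 S', P x = 0 := by
    have h : cs 𝕜 S' ≤ LinearMap.eqLocus (P : X →ₗ[𝕜] X) 0 :=
      cs_le (isClosed_eq P.continuous continuous_const) fun x hx => q2 x hx
    exact fun x hx => h hx
  have p3 : ∀ z ∈ cs 𝕜 (S ∪ S'), P z ∈ cs 𝕜 S := by
    have h : cs 𝕜 (S ∪ S') ≤ (cs 𝕜 S).comap (P : X →ₗ[𝕜] X) := by
      refine cs_le ((cs_isClosed S).preimage P.continuous) ?_
      rintro x (hx | hx)
      · change P x ∈ cs 𝕜 S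
        rw [q1 x hx]
        exact subset_cs S hx
      · change P x ∈ cs 𝕜 S
        rw [q2 x hx]
        exact Submodule.zero_mem _
    exact fun z hz => h hz
  have p4 : ∀ z ∈ cs 𝕜 (S ∪ S'), (ContinuousLinearMap.id 𝕜 X - P) z ∈ cs 𝕜 S' := by
    have h : cs 𝕜 (S ∪ S') ≤
        (cs 𝕜 S').comap ((ContinuousLinearMap.id 𝕜 X - P : X →L[𝕜] X) : X →ₗ[𝕜] X) := by
      refine cs_le ((cs_isClosed S').preimage
        (ContinuousLinearMap.id 𝕜 X - P : X →L[𝕜] X).continuous) ?_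
      rintro x (hx | hx)
      · change x - P x ∈ cs 𝕜 S'
        rw [q1 x hx, sub_self]
        exact Submodule.zero_mem _
      · change x - P x ∈ cs 𝕜 S'
        rw [q2 x hx, sub_zero]
        exact subset_cs S' hx
    exact fun z hz => h hz
  have h5 : ∀ y : cs 𝕜 S × cs 𝕜 S', (y.1 : X) + (y.2 : X) ∈ cs 𝕜 (S ∪ S') := fun y =>
    Submodule.add_mem _ (cs_mono subset_union_left y.1.2) (cs_mono subset_union_right y.2.2)
  let f : (cs 𝕜 S × cs 𝕜 S') →L[𝕜] cs 𝕜 (S ∪ S') :=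
    ((cs 𝕜 S).subtypeL.coprod (cs 𝕜 S').subtypeL).codRestrict _ (fun y => h5 y)
  let g : cs 𝕜 (S ∪ S') →L[𝕜] (cs 𝕜 S × cs 𝕜 S') :=
    ((P ∘L (cs 𝕜 (S ∪ S')).subtypeL).codRestrict _ (fun z => p3 z.1 z.2)).prod
      (((ContinuousLinearMap.id 𝕜 X - P) ∘L (cs 𝕜 (S ∪ S')).subtypeL).codRestrict _
        (fun z => p4 z.1 z.2))
  have hf : ∀ y, ((f y : cs 𝕜 (S ∪ S')) : X) = (y.1 : X) + (y.2 : X) := fun y => rfl
  have hg1 : ∀ z, ((g z).1 : X) = P (z : X) := fun z => rfl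
  have hg2 : ∀ z, ((g z).2 : X) = (z : X) - P (z : X) := fun z => rfl
  refine ⟨ContinuousLinearEquiv.equivOfInverse f g ?_ ?_, ?_, ?_⟩
  · intro y
    refine Prod.ext (Subtype.ext ?_) (Subtype.ext ?_)
    · rw [hg1, hf, map_add, p1 _ y.1.2, p2 _ y.2.2, add_zero]
    · rw [hg2, hf, map_add, p1 _ y.1.2, p2 _ y.2.2, add_zero, add_sub_cancel_left]
  · intro z
    refine Subtype.ext ?_
    rw [hf, hg1, hg2, add_sub_cancel]
  · intro y
    change ‖(y.1 : X) + (y.2 : X)‖ ≤ _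
    have e1 : ‖(y.1 : X)‖ ≤ ‖y‖ := norm_fst_le y
    have e2 : ‖(y.2 : X)‖ ≤ ‖y‖ := norm_snd_le y
    calc ‖(y.1 : X) + (y.2 : X)‖ ≤ ‖(y.1 : X)‖ + ‖(y.2 : X)‖ := norm_add_le _ _
      _ ≤ 2 * ‖y‖ := by linarith
      _ ≤ _ := mul_le_mul_of_nonneg_right (le_max_right _ _) (norm_nonneg _)
  · intro z
    change ‖g z‖ ≤ _
    have e0 : ‖(z : X)‖ = ‖z‖ := rfl
    have e1 : ‖P (z : X)‖ ≤ K₀ * ‖z‖ := h3 _
    have e2 : ‖(z : X) - P (z : X)‖ ≤ (K₀ + 1) * ‖z‖ := by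
      calc ‖(z : X) - P (z : X)‖ ≤ ‖(z : X)‖ + ‖P (z : X)‖ := norm_sub_le _ _
        _ ≤ ‖z‖ + K₀ * ‖z‖ := by rw [e0]; linarith
        _ = _ := by ring
    have e3 : (K₀ + 1) * ‖z‖ ≤ max (K₀ + 1) 2 * ‖z‖ :=
      mul_le_mul_of_nonneg_right (le_max_left _ _) (norm_nonneg _)
    rw [Prod.norm_def]
    apply max_le
    · change ‖P (z : X)‖ ≤ _
      have : 0 ≤ ‖z‖ := norm_nonneg _
      linarith
    · change ‖(z : X) - P (z : X)‖ ≤ _
      linarith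

end Pool.Agent.Lib.MP_a0554b_an.P
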