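import Mathlib
import Pool.Agent.Lib.MP_a0554b_an.P.Defs
import Pool.Agent.Lib.MP_a0554b_an.P.U2
set_option autoImplicit false

/-!
# `X × X ≃ X` and `𝕜 × X ≃ X`
-/

noncomputable section

namespace Pool.Agent.Lib.MP_a0554b_an.P

open Filter Topology Set
open scoped ENNReal
open Pool.Agent.Lib.MP_a0554b_an

universe u v w

variable {𝕜 : Type v} [RCLike 𝕜] {X : Type u} [NormedAddCommGroup X] [NormedSpace 𝕜 X]

theorem I1_of_isometry {Y Z : Type*} [NormedAddCommGroup Y] [NormedSpace 𝕜 Y]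
    [NormedAddCommGroup Z] [NormedSpace 𝕜 Z] (e : Y ≃ₗᵢ[𝕜] Z) : IsoB 𝕜 1 Y Z :=
  ⟨e.toContinuousLinearEquiv, fun y => by
    rw [one_mul]
    exact (e.norm_map y).le, fun z => by
    rw [one_mul]
    exact (e.symm.norm_map z).le⟩

theorem I1_top {M : Submodule 𝕜 X} (h : M = ⊤) : IsoB 𝕜 1 M X :=
  I1_of_isometry (LinearIsometryEquiv.ofTop X M h)

/-- PROOF: identity maps, norms of pairs are maxima. -/
theorem isoB_assoc (Y Z W : Type*) [NormedAddCommGroup Y] [NormedSpace 𝕜 Y]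
    [NormedAddCommGroup Z] [NormedSpace 𝕜 Z] [NormedAddCommGroup W] [NormedSpace 𝕜 W] :
    IsoB 𝕜 1 ((Y × Z) × W) (Y × (Z × W)) := by
  refine ⟨ContinuousLinearEquiv.prodAssoc 𝕜 Y Z W, fun y => ?_, fun z => ?_⟩
  · rw [one_mul, Prod.norm_def, Prod.norm_def, Prod.norm_def, Prod.norm_def]
    exact (max_assoc _ _ _).ge
  · rw [one_mul, Prod.norm_def, Prod.norm_def, Prod.norm_def, Prod.norm_def]
    exact (max_assoc _ _ _).le

theorem isoB_comm (Y Z : Type*) [NormedAddCommGroup Y] [NormedSpace 𝕜 Y]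
    [NormedAddCommGroup Z] [NormedSpace 𝕜 Z] : IsoB 𝕜 1 (Y × Z) (Z × Y) := by
  refine ⟨ContinuousLinearEquiv.prodComm 𝕜 Y Z, fun y => ?_, fun z => ?_⟩
  · rw [one_mul, Prod.norm_def, Prod.norm_def]
    exact (max_comm _ _).le
  · rw [one_mul, Prod.norm_def, Prod.norm_def]
    exact (max_comm _ _).le

theorem isoB_refl' (Y : Type*) [NormedAddCommGroup Y] [NormedSpace 𝕜 Y] : IsoB 𝕜 1 Y Y :=
  I1_of_isometry (LinearIsometryEquiv.refl 𝕜 Y)

/-- PROOF: any continuous linear equivalence is bounded in both directions. -/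
theorem exists_isoB {Y Z : Type*} [NormedAddCommGroup Y] [NormedSpace 𝕜 Y]
    [NormedAddCommGroup Z] [NormedSpace 𝕜 Z] (T : Y ≃L[𝕜] Z) : ∃ K : ℝ, 0 ≤ K ∧ IsoB 𝕜 K Y Z := by
  refine ⟨max ‖(T : Y →L[𝕜] Z)‖ ‖(T.symm : Z →L[𝕜] Y)‖, (norm_nonneg _).trans (le_max_left _ _), T,
    fun y => ?_, fun z => ?_⟩
  · exact ((T : Y →L[𝕜] Z).le_opNorm y).trans
      (mul_le_mul_of_nonneg_right (le_max_left _ _) (norm_nonneg _))
  · exact ((T.symm : Z →L[𝕜] Y).le_opNorm z).trans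
      (mul_le_mul_of_nonneg_right (le_max_right _ _) (norm_nonneg _))

/-- PROOF: `c ↦ (c * (‖x‖⁻¹ : ℝ)) • x` is isometric from `𝕜` onto `span {x}`, which is closed
(finite dimensional), so it is `cs {x}`. -/
theorem isoB_line {x : X} (hx : x ≠ 0) : IsoB 𝕜 1 𝕜 (cs 𝕜 ({x} : Set X)) := by
  have hx0 : ‖x‖ ≠ 0 := norm_ne_zero_iff.2 hx
  have hc0 : (((‖x‖⁻¹ : ℝ) : 𝕜)) ≠ 0 := by
    rw [Ne, RCLike.ofReal_eq_zero]
    exact inv_ne_zero hx0
  have hu : ‖((‖x‖⁻¹ : ℝ) : 𝕜) • x‖ = 1 := by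
    rw [norm_smul, RCLike.norm_ofReal, abs_inv, abs_norm, inv_mul_cancel₀ hx0]
  have h1 : Submodule.span 𝕜 {((‖x‖⁻¹ : ℝ) : 𝕜) • x} = cs 𝕜 ({x} : Set X) := by
    have h2 : IsClosed ((Submodule.span 𝕜 ({x} : Set X) : Submodule 𝕜 X) : Set X) :=
      Submodule.closed_of_finiteDimensional _
    have h3 : cs 𝕜 ({x} : Set X) = Submodule.span 𝕜 ({x} : Set X) :=
      h2.submodule_topologicalClosure_eq
    rw [h3]
    exact Submodule.span_singleton_smul_eq (IsUnit.mk0 _ hc0) x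
  exact I1_of_isometry ((LinearIsometryEquiv.toSpanUnitSingleton _ hu).trans
    (LinearIsometryEquiv.ofEq _ _ h1))

theorem I1_coord (b : SchauderBasis 𝕜 X) (i j : ℕ) : b.coord i (b j) = if i = j then 1 else 0 := by
  rw [b.ortho]
  simp only [Pi.single_apply]
  split_ifs <;> rfl

theorem I1_block (b : SchauderBasis 𝕜 X) {j : ℕ → ℕ} (hj : StrictMono j) :
    IsBlock b (fun n => b (j n)) := by
  have h1 : ∀ k n, b.coord n (b (j k)) ≠ 0 → n = j k := by
    intro k n hn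
    by_contra h
    rw [I1_coord, if_neg h] at hn
    exact hn rfl
  refine ⟨fun k h => ?_, fun k => ?_, fun k m n hm hn => ?_⟩
  · have h2 := I1_coord b (j k) (j k)
    rw [h, map_zero, if_pos rfl] at h2
    exact zero_ne_one h2
  · exact (Set.finite_singleton (j k)).subset fun n hn => h1 k n hn
  · rw [h1 k m hm, h1 (k + 1) n hn]
    exact hj (Nat.lt_succ_self k)

theorem I1_cs_top (b : SchauderBasis 𝕜 X) : cs 𝕜 (Set.range b) = ⊤ := by
  rw [eq_top_iff]
  intro x _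
  have h1 := SchauderBasis.tendsto_proj b x
  refine (cs_isClosed (Set.range b)).mem_of_tendsto h1 (Filter.Eventually.of_forall fun n => ?_)
  rw [SchauderBasis.proj_apply]
  exact Submodule.sum_mem _ fun i _ => Submodule.smul_mem _ _ (subset_cs _ ⟨i, rfl⟩)

/-- PROOF: `range b = range (b (2 n)) ∪ range (b (2 n + 1))`, both are block sequences, so their
closed spans are isomorphic to `X` (`hb`), and `cs (range b) = ⊤` (`SchauderBasis.tendsto_proj`).
Use `split` with `I` = the even numbers, `exists_isoB`, `IsoB.prod`, `IsoB.trans`. -/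
theorem exists_sq [CompleteSpace X] (b : SchauderBasis 𝕜 X) (hu : Unconditional b)
    (hb : BlockHomogeneous b) : ∃ K : ℝ, 0 ≤ K ∧ IsoB 𝕜 K (X × X) X := by
  obtain ⟨K, hK, hs⟩ := split b hu
  have h1 : IsBlock b (fun n => b (2 * n)) := I1_block b (fun a b h => by omega)
  have h2 : IsBlock b (fun n => b (2 * n + 1)) := I1_block b (fun a b h => by omega)
  obtain ⟨T1⟩ := hb _ h1
  obtain ⟨T2⟩ := hb _ h2
  obtain ⟨K1, hK1, i1⟩ := exists_isoB T1
  obtain ⟨K2, hK2, i2⟩ := exists_isoB T2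
  have h3 := hs (Set.range fun n => b (2 * n)) (Set.range fun n => b (2 * n + 1)) {n | Even n}
    (by
      rintro _ ⟨i, rfl⟩ n hn
      rw [I1_coord, if_neg]
      rintro rfl
      exact hn (even_two_mul i))
    (by
      rintro _ ⟨i, rfl⟩ n hn
      rw [I1_coord, if_neg]
      rintro rfl
      exact (Nat.not_even_bit1 i) hn)
  have h4 : (Set.range fun n => b (2 * n)) ∪ (Set.range fun n => b (2 * n + 1)) = Set.range b := by
    ext x
    constructor
    · rintro (⟨i, rfl⟩ | ⟨i, rfl⟩)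
      · exact ⟨_, rfl⟩
      · exact ⟨_, rfl⟩
    · rintro ⟨i, rfl⟩
      rcases Nat.even_or_odd' i with ⟨k, h | h⟩
      · left
        exact ⟨k, by rw [h]⟩
      · right
        exact ⟨k, by rw [h]⟩
  rw [h4] at h3
  have h5 : IsoB 𝕜 (max K1 K2) (X × X)
      (cs 𝕜 (Set.range fun n => b (2 * n)) × cs 𝕜 (Set.range fun n => b (2 * n + 1))) :=
    IsoB.prod (i1.symm.mono (le_max_left _ _)) (i2.symm.mono (le_max_right _ _))
  have hK3 : 0 ≤ max K1 K2 := hK1.trans (le_max_left _ _)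
  refine ⟨max K1 K2 * K * 1, by positivity, ?_⟩
  exact (h5.trans hK3 hK h3).trans (by positivity) zero_le_one (I1_top (I1_cs_top b))

/-- PROOF: the same with `range b = {b 0} ∪ range (b (n + 1))`, `I = {0}` and `isoB_line`. -/
theorem exists_line [CompleteSpace X] (b : SchauderBasis 𝕜 X) (hu : Unconditional b)
    (hb : BlockHomogeneous b) : ∃ K : ℝ, 0 ≤ K ∧ IsoB 𝕜 K (𝕜 × X) X := by
  obtain ⟨K, hK, hs⟩ := split b hu
  have h2 : IsBlock b (fun n => b (n + 1)) := I1_block b (fun a b h => by omega)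
  obtain ⟨T2⟩ := hb _ h2
  obtain ⟨K2, hK2, i2⟩ := exists_isoB T2
  have h3 := hs {b 0} (Set.range fun n => b (n + 1)) {0}
    (by
      intro x hx n hn
      rw [Set.mem_singleton_iff] at hx hn
      rw [hx, I1_coord, if_neg hn])
    (by
      rintro _ ⟨i, rfl⟩ n hn
      rw [Set.mem_singleton_iff] at hn
      rw [I1_coord, if_neg]
      omega)
  have h4 : ({b 0} : Set X) ∪ (Set.range fun n => b (n + 1)) = Set.range b := by
    ext x
    constructor
    · rintro (h | ⟨i, rfl⟩)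
      · exact ⟨0, h.symm⟩
      · exact ⟨_, rfl⟩
    · rintro ⟨i, rfl⟩
      cases i with
      | zero => exact Or.inl rfl
      | succ k => exact Or.inr ⟨k, rfl⟩
  rw [h4] at h3
  have h0 : b 0 ≠ 0 := by
    intro h
    have h6 := I1_coord b 0 0
    rw [h, map_zero, if_pos rfl] at h6
    exact zero_ne_one h6
  have h5 : IsoB 𝕜 (max 1 K2) (𝕜 × X)
      (cs 𝕜 ({b 0} : Set X) × cs 𝕜 (Set.range fun n => b (n + 1))) :=
    IsoB.prod ((isoB_line h0).mono (le_max_left _ _)) (i2.symm.mono (le_max_right _ _))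
  have hK3 : 0 ≤ max 1 K2 := zero_le_one.trans (le_max_left _ _)
  refine ⟨max 1 K2 * K * 1, by positivity, ?_⟩
  exact (h5.trans hK3 hK h3).trans (by positivity) zero_le_one (I1_top (I1_cs_top b))

end Pool.Agent.Lib.MP_a0554b_an.P
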