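import Mathlib
import Pool.Agent.Lib.MP_a0554b_an.P.Defs
import Pool.Agent.Lib.MP_a0554b_an.P.U2
import Pool.Agent.Lib.MP_a0554b_an.P.I1
import Pool.Agent.Lib.MP_a0554b_an.P.F2
set_option autoImplicit false

/-!
# Absorption of block sequences from a countable family
-/

noncomputable section

namespace Pool.Agent.Lib.MP_a0554b_an.P

open Filter Topology Set
open scoped ENNReal
open Pool.Agent.Lib.MP_a0554b_an

universe u v w

variable {𝕜 : Type v} [RCLike 𝕜] {X : Type u} [NormedAddCommGroup X] [NormedSpace 𝕜 X]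

theorem C1_sep {b : SchauderBasis 𝕜 X} {v : ℕ → X} (hv : Fam b v) {z' : ℕ → ℕ}
    (hz' : AdmSeq b v z') {i j : ℕ} (hi : i ∈ Set.range z') (hj : j ∈ Set.range z') (hij : i ≠ j)
    {n : ℕ} (h : b.coord n (v i) ≠ 0) : b.coord n (v j) = 0 := by
  obtain ⟨p, rfl⟩ := hi
  obtain ⟨q, rfl⟩ := hj
  by_contra h'
  rcases lt_trichotomy p q with hpq | hpq | hpq
  · exact absurd (hz'.lt hv hpq n n h h') (lt_irrefl n)
  · exact hij (by rw [hpq])
  · exact absurd (hz'.lt hv hpq n n h' h) (lt_irrefl n)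

theorem C1_half [CompleteSpace X] (b : SchauderBasis 𝕜 X) {v : ℕ → X}
    (hv : Fam b v) {K K₁ : ℝ} (hK : 0 ≤ K) (hK₁ : 0 ≤ K₁)
    (hs : ∀ (S S' : Set X) (I : Set ℕ),
      (∀ x ∈ S, ∀ n, n ∉ I → b.coord n x = 0) → (∀ x ∈ S', ∀ n ∈ I, b.coord n x = 0) →
      IsoB 𝕜 K₁ (cs 𝕜 S × cs 𝕜 S') (cs 𝕜 (S ∪ S'))) {z z' : ℕ → ℕ} {R : Set ℕ}
    (hz' : AdmSeq b v z') (h1 : IsoB 𝕜 K X (closedSpan 𝕜 (fun k => v (z k))))
    (h2 : IsoB 𝕜 K X (closedSpan 𝕜 (fun k => v (z' k))))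
    (hr : Set.range z' = Set.range z ∪ R) (hd : Disjoint (Set.range z) R) :
    IsoB 𝕜 (max K 1 * K₁ * K) (X × cs 𝕜 (v '' R)) X := by
  have e1 : v '' Set.range z = Set.range (fun k => v (z k)) := (Set.range_comp v z).symm
  have e2 : v '' Set.range z' = Set.range (fun k => v (z' k)) := (Set.range_comp v z').symm
  have h3 := hs (v '' Set.range z) (v '' R) {n | ∃ i ∈ Set.range z, b.coord n (v i) ≠ 0} (by
      rintro _ ⟨i, hi, rfl⟩ n hn
      by_contra h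
      exact hn ⟨i, hi, h⟩) (by
      rintro _ ⟨j, hj, rfl⟩ n ⟨i, hi, hn⟩
      refine C1_sep hv hz' (i := i) (j := j) ?_ ?_ ?_ hn
      · rw [hr]
        exact Or.inl hi
      · rw [hr]
        exact Or.inr hj
      · rintro rfl
        exact Set.disjoint_left.mp hd hi hj)
  rw [← Set.image_union, ← hr, e2, e1, ← closedSpan_eq_cs, ← closedSpan_eq_cs] at h3
  have hm : (0 : ℝ) ≤ max K 1 := le_trans zero_le_one (le_max_right _ _)
  have h4 : IsoB 𝕜 (max K 1) (X × cs 𝕜 (v '' R))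
      (closedSpan 𝕜 (fun k => v (z k)) × cs 𝕜 (v '' R)) :=
    IsoB.prod (h1.mono (le_max_left _ _)) ((isoB_refl' _).mono (le_max_right _ _))
  exact IsoB.trans (mul_nonneg hm hK₁) hK (IsoB.trans hm hK₁ h4 h3) h2.symm

/-- PROOF. Let `K₁` be the constant of `split`. Let `z`, `z'` be generic with
`range z' = range z ∪ y '' A`, disjoint. Put `S = v '' range z`, `S' = v '' (y '' A)`, `I` = the union of
the supports of the `v i`, `i ∈ range z`. Vectors of `S'` vanish on `I`: `i ∈ range z` and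
`j ∈ y '' A` are different members `z' p`, `z' q` of the block sequence `z'`
(`AdmSeq.lt`: their supports are disjoint). So `cs S × cs S' ≃ cs (S ∪ S')` (`K₁`),
`cs (S ∪ S') = closedSpan (v ∘ z') ≃ X` and `cs S = closedSpan (v ∘ z) ≃ X` (`K`), hence
`X × cs (v '' (y '' A)) ≃ X` with constant `K * K₁ * K` or so; the same for `Aᶜ` (`fuse`). Finally
`closedSpan (v ∘ y) = cs (S₁ ∪ S₂)` with `S₁ = v '' (y '' A)`, `S₂ = v '' (y '' Aᶜ)` separated by the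
union of the supports of `S₁` (`AdmSeq.lt` for `y`), so
`X × closedSpan (v ∘ y) ≃ X × (cs S₁ × cs S₂) ≃ (X × cs S₁) × cs S₂ ≃ X × cs S₂ ≃ X`. -/
theorem absorb_gen [CompleteSpace X] (b : SchauderBasis 𝕜 X) (hu : Unconditional b) {v : ℕ → X}
    (hv : Fam b v) {s : List ℕ} {O : ℕ → List ℕ → Prop} (hD : BData b v s O) {K : ℝ}
    (hK : 0 ≤ K)
    (hG : ∀ z, Gen b v s O z → IsoB 𝕜 K X (closedSpan 𝕜 (fun k => v (z k)))) :
    ∃ C : ℝ, 0 ≤ C ∧ ∀ y : ℕ → ℕ, AdmSeq b v y → (∀ i ∈ s, ∀ k, Lt b (v i) (v (y k))) →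
      IsoB 𝕜 C (X × closedSpan 𝕜 (fun k => v (y k))) X := by
  obtain ⟨K₁, hK₁, hs⟩ := split b hu
  set C₁ := max K 1 * K₁ * K with hC₁
  have hm : (0 : ℝ) ≤ max K 1 := le_trans zero_le_one (le_max_right _ _)
  have hm1 : (0 : ℝ) ≤ max 1 K₁ := le_trans zero_le_one (le_max_left _ _)
  have hm2 : (0 : ℝ) ≤ max C₁ 1 := le_trans zero_le_one (le_max_right _ _)
  have hC₁0 : 0 ≤ C₁ := mul_nonneg (mul_nonneg hm hK₁) hK
  refine ⟨max 1 K₁ * 1 * max C₁ 1 * C₁,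
    mul_nonneg (mul_nonneg (mul_nonneg hm1 zero_le_one) hm2) hC₁0, ?_⟩
  intro y hy hsy
  obtain ⟨A, ⟨z, z', g, g', hr, hd⟩, ⟨w, w', k, k', hr', hd'⟩⟩ := fuse hv hD y hy hsy
  have a1 : IsoB 𝕜 C₁ (X × cs 𝕜 (v '' (y '' A))) X :=
    C1_half b hv hK hK₁ hs g'.1 (hG z g) (hG z' g') hr hd
  have a2 : IsoB 𝕜 C₁ (X × cs 𝕜 (v '' (y '' Aᶜ))) X :=
    C1_half b hv hK hK₁ hs k'.1 (hG w k) (hG w' k') hr' hd'
  have h3 := hs (v '' (y '' A)) (v '' (y '' Aᶜ)) {n | ∃ i ∈ y '' A, b.coord n (v i) ≠ 0} (by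
      rintro _ ⟨i, hi, rfl⟩ n hn
      by_contra h
      exact hn ⟨i, hi, h⟩) (by
      rintro _ ⟨_, ⟨q, hq, rfl⟩, rfl⟩ n ⟨_, ⟨p, hp, rfl⟩, hn⟩
      by_contra h'
      rcases lt_trichotomy p q with hpq | hpq | hpq
      · exact absurd (hy.lt hv hpq n n hn h') (lt_irrefl n)
      · exact hq (hpq ▸ hp)
      · exact absurd (hy.lt hv hpq n n h' hn) (lt_irrefl n))
  have e3 : v '' (y '' A) ∪ v '' (y '' Aᶜ) = Set.range (fun k => v (y k)) := by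
    rw [← Set.image_union, ← Set.image_union, Set.union_compl_self, Set.image_univ]
    exact (Set.range_comp v y).symm
  rw [e3, ← closedSpan_eq_cs] at h3
  have b1 : IsoB 𝕜 (max 1 K₁) (X × closedSpan 𝕜 (fun k => v (y k)))
      (X × (cs 𝕜 (v '' (y '' A)) × cs 𝕜 (v '' (y '' Aᶜ)))) :=
    IsoB.prod ((isoB_refl' X).mono (le_max_left _ _)) (h3.symm.mono (le_max_right _ _))
  have b2 : IsoB 𝕜 1 (X × (cs 𝕜 (v '' (y '' A)) × cs 𝕜 (v '' (y '' Aᶜ))))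
      ((X × cs 𝕜 (v '' (y '' A))) × cs 𝕜 (v '' (y '' Aᶜ))) := (isoB_assoc _ _ _).symm
  have b3 : IsoB 𝕜 (max C₁ 1) ((X × cs 𝕜 (v '' (y '' A))) × cs 𝕜 (v '' (y '' Aᶜ)))
      (X × cs 𝕜 (v '' (y '' Aᶜ))) :=
    IsoB.prod (a1.mono (le_max_left _ _)) ((isoB_refl' _).mono (le_max_right _ _))
  exact IsoB.trans (mul_nonneg (mul_nonneg hm1 zero_le_one) hm2) hC₁0
    (IsoB.trans (mul_nonneg hm1 zero_le_one) hm2 (IsoB.trans hm1 zero_le_one b1 b2) b3) a2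

end Pool.Agent.Lib.MP_a0554b_an.P
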