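import Mathlib
import Pool.Agent.Lib.MP_a0554b_an.P.Defs
import Pool.Agent.Lib.MP_a0554b_an.P.U2
import Pool.Agent.Lib.MP_a0554b_an.P.I1
set_option autoImplicit false

/-!
# Removing finitely many vectors of a block sequence
-/

noncomputable section

namespace Pool.Agent.Lib.MP_a0554b_an.P

open Filter Topology Set
open scoped ENNReal
open Pool.Agent.Lib.MP_a0554b_an

universe u v w

variable {𝕜 : Type v} [RCLike 𝕜] {X : Type u} [NormedAddCommGroup X] [NormedSpace 𝕜 X]

/-- PROOF. `range y = {y 0} ∪ range (y (k + 1))` and the supports are separated (`I` = the support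
of `y 0`). By `split`, `isoB_line`, `exists_line`:
`X × closedSpan y ≃ X × (cs {y 0} × closedSpan (y (· + 1))) ≃ X × (𝕜 × closedSpan (y (· + 1)))
≃ (𝕜 × X) × closedSpan (y (· + 1)) ≃ X × closedSpan (y (· + 1))` with constants which do not depend on
`y` (`isoB_assoc`, `isoB_comm`, `IsoB.prod`, `IsoB.trans`). -/
theorem drop_one [CompleteSpace X] (b : SchauderBasis 𝕜 X) (hu : Unconditional b)
    (hb : BlockHomogeneous b) : ∃ K : ℝ, 0 ≤ K ∧ ∀ y : ℕ → X, IsBlock b y →
      IsoB 𝕜 K (X × closedSpan 𝕜 y) (X × closedSpan 𝕜 (fun k => y (k + 1))) := by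
  obtain ⟨K, hK, hs⟩ := split b hu
  obtain ⟨K1, hK1, hl⟩ := exists_line b hu hb
  have hm : 0 ≤ max 1 K := zero_le_one.trans (le_max_left _ _)
  have hm1 : 0 ≤ max K1 1 := hK1.trans (le_max_left _ _)
  refine ⟨max 1 K * 1 * 1 * 1 * max K1 1, by positivity, fun y hy => ?_⟩
  obtain ⟨e, he⟩ := hy.exists_cut
  have h1 := hs {y 0} (Set.range fun k => y (k + 1)) {n | b.coord n (y 0) ≠ 0}
    (by
      intro x hx n hn
      rw [Set.mem_singleton_iff] at hx
      rw [hx]
      by_contra h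
      exact hn h)
    (by
      rintro _ ⟨i, rfl⟩ n hn
      by_contra h
      have h2 := (he.supp 0 n hn).2
      have h3 := (he.supp (i + 1) n h).1
      have h4 : e (0 + 1) ≤ e (i + 1) := he.mono.monotone (by omega)
      omega)
  have h4 : ({y 0} : Set X) ∪ (Set.range fun k => y (k + 1)) = Set.range y := by
    ext x
    constructor
    · rintro (h | ⟨i, rfl⟩)
      · exact ⟨0, h.symm⟩
      · exact ⟨_, rfl⟩
    · rintro ⟨i, rfl⟩
      cases i with
      | zero => exact Or.inl rfl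
      | succ k => exact Or.inr ⟨k, rfl⟩
  rw [h4] at h1
  have h5 : IsoB 𝕜 (max 1 K) (X × closedSpan 𝕜 y)
      (X × (cs 𝕜 ({y 0} : Set X) × closedSpan 𝕜 (fun k => y (k + 1)))) :=
    IsoB.prod ((isoB_refl' X).mono (le_max_left _ _)) (h1.symm.mono (le_max_right _ _))
  have h6 : IsoB 𝕜 1 (X × (cs 𝕜 ({y 0} : Set X) × closedSpan 𝕜 (fun k => y (k + 1))))
      (X × (𝕜 × closedSpan 𝕜 (fun k => y (k + 1)))) :=
    IsoB.prod (isoB_refl' X) (IsoB.prod (isoB_line (hy.ne_zero 0)).symm (isoB_refl' _))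
  have h7 : IsoB 𝕜 1 (X × (𝕜 × closedSpan 𝕜 (fun k => y (k + 1))))
      ((X × 𝕜) × closedSpan 𝕜 (fun k => y (k + 1))) := (isoB_assoc _ _ _).symm
  have h8 : IsoB 𝕜 1 ((X × 𝕜) × closedSpan 𝕜 (fun k => y (k + 1)))
      ((𝕜 × X) × closedSpan 𝕜 (fun k => y (k + 1))) :=
    IsoB.prod (isoB_comm _ _) (isoB_refl' _)
  have h9 : IsoB 𝕜 (max K1 1) ((𝕜 × X) × closedSpan 𝕜 (fun k => y (k + 1)))
      (X × closedSpan 𝕜 (fun k => y (k + 1))) :=
    IsoB.prod (hl.mono (le_max_left _ _)) ((isoB_refl' _).mono (le_max_right _ _))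
  exact (((h5.trans hm zero_le_one h6).trans (by positivity) zero_le_one h7).trans
    (by positivity) zero_le_one h8).trans (by positivity) hm1 h9

/-- PROOF: induction on `N` (`IsBlock.shift`). -/
theorem drop_many [CompleteSpace X] (b : SchauderBasis 𝕜 X) (hu : Unconditional b)
    (hb : BlockHomogeneous b) (N : ℕ) : ∃ K : ℝ, 0 ≤ K ∧ ∀ y : ℕ → X, IsBlock b y →
      IsoB 𝕜 K (X × closedSpan 𝕜 y) (X × closedSpan 𝕜 (fun k => y (k + N))) := by
  obtain ⟨K1, hK1, h1⟩ := drop_one b hu hb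
  induction N with
  | zero => exact ⟨1, zero_le_one, fun y _ => isoB_refl' _⟩
  | succ N ih =>
    obtain ⟨K, hK, h⟩ := ih
    refine ⟨K * K1, mul_nonneg hK hK1, fun y hy => ?_⟩
    have h2 := h1 _ (hy.shift N)
    have h3 : (fun k => y (k + 1 + N)) = fun k => y (k + (N + 1)) := by
      funext k
      congr 1
      omega
    rw [h3] at h2
    exact (h y hy).trans hK hK1 h2

end Pool.Agent.Lib.MP_a0554b_an.P
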