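import Mathlib
import Pool.Agent.Lib.MP_a0554b_an.P.Defs
import Pool.Agent.Lib.MP_a0554b_an.P.B1
import Pool.Agent.Lib.MP_a0554b_an.P.I2
import Pool.Agent.Lib.MP_a0554b_an.P.C1
set_option autoImplicit false

/-!
# Uniform absorption: `X × Y ≃ X` for all block subspaces `Y`
-/

noncomputable section

namespace Pool.Agent.Lib.MP_a0554b_an.P

open Filter Topology Set
open scoped ENNReal
open Pool.Agent.Lib.MP_a0554b_an

universe u v w

variable {𝕜 : Type v} [RCLike 𝕜] {X : Type u} [NormedAddCommGroup X] [NormedSpace 𝕜 X]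

/-- PROOF. Suppose not: for every `N : ℕ` there is a block sequence `Y N` with
`¬ IsoB 𝕜 N (X × closedSpan (Y N)) X`. Let `v i = Y i.unpair.1 i.unpair.2` (all vectors of all
`Y N`); `Fam b v` (`far`: `Y 0 m` has its support in `[m, ∞)`: the supports of a block sequence are
successive and nonempty). `exists_bdata` gives `K`, `s`, `O` and `absorb_gen` a constant `C`. Let
`r` be larger than all indices of the supports of the `v i`, `i ∈ s`. For every `N` the
sequence `y k = Nat.pair N (k + r)` is `AdmSeq` with `v (y k) = Y N (k + r)` supported in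
`[r, ∞)`, so `X × closedSpan (Y N (· + r)) ≃ X` with constant `C`, and by `drop_many` (`N := r`)
`X × closedSpan (Y N) ≃ X` with a constant `C'` which does not depend on `N`: contradiction for
`N ≥ C'` (`IsoB.mono`). -/
theorem exists_absorb [CompleteSpace X] (b : SchauderBasis 𝕜 X) (hu : Unconditional b)
    (hb : BlockHomogeneous b) :
    ∃ C : ℝ, 0 ≤ C ∧ ∀ y : ℕ → X, IsBlock b y → IsoB 𝕜 C (X × closedSpan 𝕜 y) X := by
  by_contra hcon
  push Not at hcon
  choose Y hY hno using fun N : ℕ => hcon (N : ℝ) (Nat.cast_nonneg N)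
  set v : ℕ → X := fun i => Y i.unpair.1 i.unpair.2 with hv
  have hfar : ∀ N m n, b.coord n (Y N m) ≠ 0 → m ≤ n := by
    intro N m n hn
    obtain ⟨e, he⟩ := (hY N).exists_cut
    exact he.mono.le_apply.trans (he.supp m n hn).1
  have hvp : ∀ N m, v (Nat.pair N m) = Y N m := by
    intro N m
    simp only [hv, Nat.unpair_pair]
  have hF : Fam b v := by
    refine ⟨fun i => (hY _).ne_zero _, fun i => (hY _).finite _, fun m => ⟨Nat.pair 0 m, ?_⟩⟩
    intro n hn
    rw [hvp] at hn
    exact hfar 0 m n hn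
  obtain ⟨K, s, O, hK, hD, hG⟩ := exists_bdata b hb v hF
  obtain ⟨C, hC, habs⟩ := absorb_gen b hu hF hD hK hG
  have hfin : (⋃ i ∈ {i | i ∈ s}, {n | b.coord n (v i) ≠ 0}).Finite :=
    Set.Finite.biUnion (List.finite_toSet s) fun i _ => hF.finite i
  obtain ⟨r0, hr0⟩ := hfin.bddAbove
  have hr : ∀ i ∈ s, ∀ n, b.coord n (v i) ≠ 0 → n < r0 + 1 := by
    intro i hi n hn
    have : n ≤ r0 := hr0 (Set.mem_biUnion (show i ∈ {i | i ∈ s} from hi) hn)
    omega
  obtain ⟨K', hK', hdrop⟩ := drop_many b hu hb (r0 + 1)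
  set N : ℕ := ⌈K' * C⌉₊ with hN
  have h1 : (fun k => v (Nat.pair N (k + (r0 + 1)))) = fun k => Y N (k + (r0 + 1)) := by
    funext k
    exact hvp _ _
  have h2 := habs (fun k => Nat.pair N (k + (r0 + 1))) (by
    intro k
    rw [hvp, hvp]
    intro m n hm hn
    refine (hY N).lt (k + (r0 + 1)) m n hm ?_
    rw [show k + (r0 + 1) + 1 = k + 1 + (r0 + 1) by ring]
    exact hn) (by
    intro i hi k
    rw [hvp]
    intro m n hm hn
    have h3 := hr i hi m hm
    have h4 := hfar N _ n hn
    omega)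
  rw [h1] at h2
  exact hno N (((hdrop (Y N) (hY N)).trans hK' hC h2).mono (Nat.le_ceil _))

end Pool.Agent.Lib.MP_a0554b_an.P
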