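import Mathlib
import Pool.Agent.Lib.MP_a0554b_an.P.Defs
import Pool.Agent.Lib.MP_a0554b_an.P.B0
set_option autoImplicit false

/-!
# Generic block sequences which continue far out
-/

noncomputable section

namespace Pool.Agent.Lib.MP_a0554b_an.P

open Filter Topology Set
open scoped ENNReal
open Pool.Agent.Lib.MP_a0554b_an

universe u v w

variable {𝕜 : Type v} [RCLike 𝕜] {X : Type u} [NormedAddCommGroup X] [NormedSpace 𝕜 X]

/-- PROOF. `L 0 = s ++ [i]` with the support of `v i` in `[m, ∞)` (`exists_append`). Given `L n`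
(admissible, with prefix `s`), take `l'` from `hD.dense n (L n)` and then `L (n + 1) = l' ++ [j]` by
`exists_append`; so `O n (L (n + 1))` by `hD.mono`. `exists_limit` gives `z`; `pre z s.length = s`
since `s <+: L 0`. For `k ≥ s.length`: `z s.length = i`, and for `k > s.length` the support of
`v (z k)` is after the (nonempty) support of `v i` (`AdmSeq.lt`). -/
theorem gen_far {b : SchauderBasis 𝕜 X} {v : ℕ → X} (hv : Fam b v) {s : List ℕ}
    {O : ℕ → List ℕ → Prop} (hD : BData b v s O) (m : ℕ) :
    ∃ z, Gen b v s O z ∧ ∀ k, s.length ≤ k → ∀ n, b.coord n (v (z k)) ≠ 0 → m ≤ n := by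
  obtain ⟨i, hi, him⟩ := exists_append hv hD.adm m
  choose d hd1 hd2 hd3 using fun (n : ℕ) (p : {l : List ℕ // Adm b v l ∧ s <+: l}) =>
    hD.dense n p.1 p.2.1 p.2.2
  choose f hf using fun p : {l : List ℕ // Adm b v l} => exists_append hv p.2 0
  let M : ℕ → {l : List ℕ // Adm b v l ∧ s <+: l} := fun n =>
    Nat.rec ⟨s ++ [i], hi, List.prefix_append _ _⟩
      (fun n p => ⟨d n p ++ [f ⟨d n p, hd2 n p⟩], (hf ⟨d n p, hd2 n p⟩).1,
        (p.2.2.trans (hd1 n p)).trans (List.prefix_append _ _)⟩) n
  have hM : ∀ n, (M (n + 1)).1 = d n (M n) ++ [f ⟨d n (M n), hd2 n (M n)⟩] := fun _ => rfl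
  have hM0 : (M 0).1 = s ++ [i] := rfl
  have hlen : ∀ n, n ≤ ((M n).1).length := by
    intro n
    induction n with
    | zero => exact Nat.zero_le _
    | succ n ih =>
      have h1 := (hd1 n (M n)).length_le
      rw [hM, List.length_append, List.length_singleton]
      omega
  have hO : ∀ n, O n (M (n + 1)).1 := by
    intro n
    rw [hM]
    exact hD.mono n _ _ (List.prefix_append _ _) (hd3 n (M n))
  obtain ⟨z, hz1, hz2, -⟩ := exists_limit (fun n => (M n).1) (fun n => (M n).2.1)
    (fun n => by
      rw [hM]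
      exact (hd1 n (M n)).trans (List.prefix_append _ _)) hlen
  have h0 : pre z (s ++ [i]).length = s ++ [i] := hz2 0
  have hs : pre z s.length = s := by
    have h1 : pre z s.length <+: s ++ [i] := by
      have h2 := pre_prefix z (k := s.length) (l := (s ++ [i]).length) (by simp)
      rwa [h0] at h2
    have h3 : s <+: s ++ [i] := List.prefix_append _ _
    exact (List.prefix_of_prefix_length_le h1 h3 (by rw [pre_length])).eq_of_length
      (pre_length _ _)
  have hzi : z s.length = i := by
    have h1 : (pre z (s ++ [i]).length)[s.length]'(by rw [pre_length]; simp) = z s.length := by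
      unfold pre
      rw [List.getElem_map, List.getElem_range]
    rw [← h1]
    have h2 : ∀ (l : List ℕ) (hl : l = s ++ [i]) (h : s.length < l.length), l[s.length] = i := by
      rintro l rfl h
      simp
    exact h2 _ h0 _
  refine ⟨z, ⟨hz1, hs, fun n => ⟨((M (n + 1)).1).length, ?_⟩⟩, ?_⟩
  · have h2 : pre z ((M (n + 1)).1).length = (M (n + 1)).1 := hz2 (n + 1)
    rw [h2]
    exact hO n
  · intro k hk n hn
    rcases hk.eq_or_lt with h | h
    · rw [← h, hzi] at hn
      exact him n hn
    · have h1 := hz1.lt hv h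
      rw [hzi] at h1
      obtain ⟨q, hq⟩ := E1_exists_coord_ne (b := b) (hv.ne_zero i)
      exact (him q hq).trans (h1 q n hq hn).le

end Pool.Agent.Lib.MP_a0554b_an.P
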