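import Mathlib
import Pool.Agent.Lib.MP_a0554b_an.P.Defs
import Pool.Agent.Lib.MP_a0554b_an.P.I1
set_option autoImplicit false

/-!
# Cancellation of one dimensional summands
-/

noncomputable section

namespace Pool.Agent.Lib.MP_a0554b_an.P

open Filter Topology Set
open scoped ENNReal
open Pool.Agent.Lib.MP_a0554b_an

universe u v w

variable {𝕜 : Type v} [RCLike 𝕜] {X : Type u} [NormedAddCommGroup X] [NormedSpace 𝕜 X]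

theorem I3a_exists_w {Z : Type*} [NormedAddCommGroup Z] [NormedSpace 𝕜 Z] {K : ℝ} (hK : 0 ≤ K)
    (f g : Z →ₗ[𝕜] 𝕜) {p q : Z} (hp : ‖p‖ ≤ 1) (hq : ‖q‖ ≤ K) (hfp : f p = 1) (hgq : g q = 1) :
    ∃ w : Z, ‖w‖ ≤ 1 + K ∧ 1 / 2 ≤ ‖f w‖ ∧ 1 / 2 ≤ ‖g w‖ := by
  by_cases h1 : 1 / 2 ≤ ‖g p‖
  · exact ⟨p, by linarith, by rw [hfp, norm_one]; norm_num, h1⟩
  by_cases h2 : 1 / 2 ≤ ‖f q‖
  · exact ⟨q, by linarith, h2, by rw [hgq, norm_one]; norm_num⟩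
  push Not at h1 h2
  refine ⟨p + q, (norm_add_le _ _).trans (by linarith), ?_, ?_⟩
  · rw [map_add, hfp]
    have h3 : ‖(1 : 𝕜)‖ ≤ ‖1 + f q‖ + ‖f q‖ := by
      calc ‖(1 : 𝕜)‖ = ‖(1 + f q) - f q‖ := by congr 1; ring
        _ ≤ _ := norm_sub_le _ _
    rw [norm_one] at h3
    linarith
  · rw [map_add, hgq]
    have h3 : ‖(1 : 𝕜)‖ ≤ ‖g p + 1‖ + ‖g p‖ := by
      calc ‖(1 : 𝕜)‖ = ‖(g p + 1) - g p‖ := by congr 1; ring
        _ ≤ _ := norm_sub_le _ _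
    rw [norm_one] at h3
    linarith

theorem I3a_corr {Z : Type*} [NormedAddCommGroup Z] [NormedSpace 𝕜 Z] {L M : ℝ}
    (z w : Z) (a c : 𝕜) (hc : 1 / 2 ≤ ‖c‖) (ha : ‖a‖ ≤ L * ‖z‖) (hw : ‖w‖ ≤ M) (hL : 0 ≤ L) :
    ‖z - a • (c⁻¹ • w)‖ ≤ (1 + 2 * L * M) * ‖z‖ := by
  have hc0 : 0 < ‖c‖ := by linarith
  have h1 : ‖c‖⁻¹ ≤ 2 := by
    calc ‖c‖⁻¹ ≤ (1 / 2 : ℝ)⁻¹ := inv_anti₀ (by norm_num) hc
      _ = 2 := by norm_num
  have h2 : ‖a • (c⁻¹ • w)‖ ≤ L * ‖z‖ * (2 * M) := by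
    rw [norm_smul, norm_smul, norm_inv]
    refine mul_le_mul ha ?_ (by positivity) (by positivity)
    exact mul_le_mul h1 hw (norm_nonneg _) (by norm_num)
  calc ‖z - a • (c⁻¹ • w)‖ ≤ ‖z‖ + ‖a • (c⁻¹ • w)‖ := norm_sub_le _ _
    _ ≤ ‖z‖ + L * ‖z‖ * (2 * M) := by linarith
    _ = (1 + 2 * L * M) * ‖z‖ := by ring

/-- PROOF. Let `T : 𝕜 × H ≃ 𝕜 × H'`. On `Z = 𝕜 × H'` let `f z = z.1`, `g z = (T⁻¹ z).1`,
`p = (1, 0)`, `q = T (1, 0)`: `|f z| ≤ ‖z‖`, `|g z| ≤ K * ‖z‖`, `‖p‖ = 1`, `‖q‖ ≤ K`,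
`f p = 1`, `g q = 1`. There is `w ∈ {p, q, p + q}` with `|f w| ≥ 1/2` and `|g w| ≥ 1/2`: `w = p` if
`|g p| ≥ 1/2`, `w = q` if `|f q| ≥ 1/2`, otherwise `w = p + q`. `‖w‖ ≤ 1 + K`. The maps
`z ↦ z - (f z / f w) • w` from `ker g` to `ker f` and `z ↦ z - (g z / g w) • w` from `ker f` to
`ker g` are inverse to each other, with norms at most `1 + 2 * (1 + K)` and
`1 + 2 * K * (1 + K)`. `H ≃ ker g` by `h ↦ T (0, h)`, `z ↦ (T⁻¹ z).2`, and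
`ker f ≃ H'` by `z ↦ z.2`, `h' ↦ (0, h')`. (It is simpler to write the two composed maps
`H → H'` and `H' → H` directly:
`h ↦ (T (0, h) - (f (T (0, h)) / f w) • w).2` and
`h' ↦ (T⁻¹ ((0, h') - (g (0, h') / g w) • w)).2`, and to check that they are inverse.) -/
theorem cancel_line {H H' : Type*} [NormedAddCommGroup H] [NormedSpace 𝕜 H]
    [NormedAddCommGroup H'] [NormedSpace 𝕜 H'] {K : ℝ} (hK : 0 ≤ K)
    (h : IsoB 𝕜 K (𝕜 × H) (𝕜 × H')) :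
    IsoB 𝕜 (K * (3 + 2 * K) + K * (1 + 2 * K * (1 + K))) H H' := by
  obtain ⟨T, hT, hT'⟩ := h
  obtain ⟨w, hw, hfw, hgw⟩ := I3a_exists_w (Z := 𝕜 × H') hK (LinearMap.fst 𝕜 𝕜 H')
    ((LinearMap.fst 𝕜 𝕜 H).comp (T.symm.toLinearEquiv : (𝕜 × H') →ₗ[𝕜] (𝕜 × H)))
    (p := ((1 : 𝕜), (0 : H'))) (q := T ((1 : 𝕜), (0 : H)))
    (by rw [Prod.norm_def]; simp)
    ((hT _).trans (by rw [Prod.norm_def]; simp))
    (by simp) (by simp)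
  change 1 / 2 ≤ ‖w.1‖ at hfw
  change 1 / 2 ≤ ‖(T.symm w).1‖ at hgw
  have hfw0 : w.1 ≠ 0 := fun h0 => by rw [h0, norm_zero] at hfw; norm_num at hfw
  have hgw0 : (T.symm w).1 ≠ 0 := fun h0 => by rw [h0, norm_zero] at hgw; norm_num at hgw
  let S : (𝕜 × H') →L[𝕜] (𝕜 × H') := ContinuousLinearMap.id 𝕜 (𝕜 × H') -
    (ContinuousLinearMap.fst 𝕜 𝕜 H').smulRight ((w.1)⁻¹ • w)
  let S' : (𝕜 × H') →L[𝕜] (𝕜 × H') := ContinuousLinearMap.id 𝕜 (𝕜 × H') -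
    ((ContinuousLinearMap.fst 𝕜 𝕜 H) ∘L (T.symm : (𝕜 × H') →L[𝕜] (𝕜 × H))).smulRight
      ((T.symm w).1⁻¹ • w)
  let Φ : H →L[𝕜] H' := (ContinuousLinearMap.snd 𝕜 𝕜 H') ∘L S ∘L
    (T : (𝕜 × H) →L[𝕜] (𝕜 × H')) ∘L (ContinuousLinearMap.inr 𝕜 𝕜 H)
  let Ψ : H' →L[𝕜] H := (ContinuousLinearMap.snd 𝕜 𝕜 H) ∘L
    (T.symm : (𝕜 × H') →L[𝕜] (𝕜 × H)) ∘L S' ∘L (ContinuousLinearMap.inr 𝕜 𝕜 H')
  have hS : ∀ z, S z = z - z.1 • ((w.1)⁻¹ • w) := fun z => rfl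
  have hS' : ∀ z, S' z = z - (T.symm z).1 • ((T.symm w).1⁻¹ • w) := fun z => rfl
  have hΦ : ∀ x, Φ x = (S (T (0, x))).2 := fun x => rfl
  have hΨ : ∀ y, Ψ y = (T.symm (S' (0, y))).2 := fun y => rfl
  have hS1 : ∀ z, (S z).1 = 0 := by
    intro z
    rw [hS]
    change z.1 - z.1 • ((w.1)⁻¹ • w.1) = 0
    rw [smul_eq_mul, smul_eq_mul, inv_mul_cancel₀ hfw0, mul_one, sub_self]
  have hS1' : ∀ z, (T.symm (S' z)).1 = 0 := by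
    intro z
    rw [hS', map_sub, map_smul, map_smul]
    change (T.symm z).1 - (T.symm z).1 • ((T.symm w).1⁻¹ • (T.symm w).1) = 0
    rw [smul_eq_mul, smul_eq_mul, inv_mul_cancel₀ hgw0, mul_one, sub_self]
  have hl : Function.LeftInverse Ψ Φ := by
    intro x
    have e1 : ((0 : 𝕜), Φ x) = S (T (0, x)) := Prod.ext (hS1 _).symm rfl
    have e2 : S' (S (T (0, x))) = T (0, x) := by
      rw [hS', hS]
      have e3 : (T.symm (T (0, x) - (T (0, x)).1 • ((w.1)⁻¹ • w))).1 =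
          -((T (0, x)).1 * (w.1)⁻¹ * (T.symm w).1) := by
        rw [map_sub, map_smul, map_smul, T.symm_apply_apply]
        change (0 : 𝕜) - (T (0, x)).1 • ((w.1)⁻¹ • (T.symm w).1) = _
        rw [smul_eq_mul, smul_eq_mul]
        ring
      rw [e3, smul_smul, smul_smul]
      have e4 : -((T (0, x)).1 * (w.1)⁻¹ * (T.symm w).1) * (T.symm w).1⁻¹ =
          -((T (0, x)).1 * (w.1)⁻¹) := by
        rw [neg_mul, mul_assoc, mul_inv_cancel₀ hgw0, mul_one]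
      rw [e4, neg_smul]
      abel
    rw [hΨ, e1, e2, T.symm_apply_apply]
  have hr : Function.RightInverse Ψ Φ := by
    intro y
    have e1 : ((0 : 𝕜), Ψ y) = T.symm (S' (0, y)) := Prod.ext (hS1' _).symm rfl
    have e2 : S (S' (0, y)) = (0, y) := by
      rw [hS, hS']
      have e3 : (((0 : 𝕜), y) - (T.symm ((0 : 𝕜), y)).1 • ((T.symm w).1⁻¹ • w)).1 =
          -((T.symm ((0 : 𝕜), y)).1 * (T.symm w).1⁻¹ * w.1) := by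
        change (0 : 𝕜) - (T.symm ((0 : 𝕜), y)).1 • ((T.symm w).1⁻¹ • w.1) = _
        rw [smul_eq_mul, smul_eq_mul]
        ring
      rw [e3, smul_smul, smul_smul]
      have e4 : -((T.symm ((0 : 𝕜), y)).1 * (T.symm w).1⁻¹ * w.1) * (w.1)⁻¹ =
          -((T.symm ((0 : 𝕜), y)).1 * (T.symm w).1⁻¹) := by
        rw [neg_mul, mul_assoc, mul_inv_cancel₀ hfw0, mul_one]
      rw [e4, neg_smul]
      abel
    rw [hΦ, e1, T.apply_symm_apply, e2]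
  have hn1 : ∀ x, ‖Φ x‖ ≤ K * (3 + 2 * K) * ‖x‖ := by
    intro x
    rw [hΦ, hS]
    have h1 := I3a_corr (T (0, x)) w (T (0, x)).1 w.1 hfw
      (L := 1) (M := 1 + K) (by rw [one_mul]; exact norm_fst_le _) hw zero_le_one
    have h2 : ‖T (0, x)‖ ≤ K * ‖x‖ := (hT _).trans (by rw [Prod.norm_def]; simp)
    calc _ ≤ ‖T (0, x) - (T (0, x)).1 • ((w.1)⁻¹ • w)‖ := norm_snd_le _
      _ ≤ (1 + 2 * 1 * (1 + K)) * ‖T (0, x)‖ := h1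
      _ ≤ (1 + 2 * 1 * (1 + K)) * (K * ‖x‖) := mul_le_mul_of_nonneg_left h2 (by positivity)
      _ = K * (3 + 2 * K) * ‖x‖ := by ring
  have hn2 : ∀ y, ‖Ψ y‖ ≤ K * (1 + 2 * K * (1 + K)) * ‖y‖ := by
    intro y
    rw [hΨ, hS']
    have h1 := I3a_corr ((0 : 𝕜), y) w (T.symm ((0 : 𝕜), y)).1 (T.symm w).1 hgw
      (L := K) (M := 1 + K) ((norm_fst_le _).trans (hT' _)) hw hK
    have h2 : ‖((0 : 𝕜), y)‖ ≤ ‖y‖ := by rw [Prod.norm_def]; simp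
    calc _ ≤ ‖T.symm (((0 : 𝕜), y) - (T.symm ((0 : 𝕜), y)).1 • ((T.symm w).1⁻¹ • w))‖ :=
          norm_snd_le _
      _ ≤ K * ‖((0 : 𝕜), y) - (T.symm ((0 : 𝕜), y)).1 • ((T.symm w).1⁻¹ • w)‖ := hT' _
      _ ≤ K * ((1 + 2 * K * (1 + K)) * ‖((0 : 𝕜), y)‖) := mul_le_mul_of_nonneg_left h1 hK
      _ ≤ K * ((1 + 2 * K * (1 + K)) * ‖y‖) :=
          mul_le_mul_of_nonneg_left (mul_le_mul_of_nonneg_left h2 (by positivity)) hK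
      _ = K * (1 + 2 * K * (1 + K)) * ‖y‖ := by ring
  refine ⟨ContinuousLinearEquiv.equivOfInverse Φ Ψ hl hr, fun x => ?_, fun y => ?_⟩
  · refine (hn1 x).trans (mul_le_mul_of_nonneg_right ?_ (norm_nonneg _))
    have : 0 ≤ K * (1 + 2 * K * (1 + K)) := by positivity
    linarith
  · refine (hn2 y).trans (mul_le_mul_of_nonneg_right ?_ (norm_nonneg _))
    have : 0 ≤ K * (3 + 2 * K) := by positivity
    linarith

end Pool.Agent.Lib.MP_a0554b_an.P
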