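import Mathlib
import Pool.Agent.Lib.MP_a0554b_an.P.Defs
import Pool.Agent.Lib.MP_a0554b_an.P.I1
import Pool.Agent.Lib.MP_a0554b_an.P.I3a
set_option autoImplicit false

/-!
# Cancellation of finite dimensional summands
-/

noncomputable section

namespace Pool.Agent.Lib.MP_a0554b_an.P

open Filter Topology Set
open scoped ENNReal
open Pool.Agent.Lib.MP_a0554b_an

universe u v w

variable {𝕜 : Type v} [RCLike 𝕜] {X : Type u} [NormedAddCommGroup X] [NormedSpace 𝕜 X]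

theorem I3_prod_left {F F' H : Type*} [NormedAddCommGroup F] [NormedSpace 𝕜 F]
    [NormedAddCommGroup F'] [NormedSpace 𝕜 F'] [NormedAddCommGroup H] [NormedSpace 𝕜 H] {K : ℝ}
    (h : IsoB 𝕜 K F F') : IsoB 𝕜 (max K 1) (F × H) (F' × H) :=
  (h.mono (le_max_left _ _)).prod ((isoB_refl' H).mono (le_max_right _ _))

theorem I3_prod_right {F F' H : Type*} [NormedAddCommGroup F] [NormedSpace 𝕜 F]
    [NormedAddCommGroup F'] [NormedSpace 𝕜 F'] [NormedAddCommGroup H] [NormedSpace 𝕜 H] {K : ℝ}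
    (h : IsoB 𝕜 K F F') : IsoB 𝕜 (max K 1) (H × F) (H × F') :=
  ((isoB_refl' H).mono (le_max_right _ _)).prod (h.mono (le_max_left _ _))

/-- the first coordinate split off -/
def I3_cons (r : ℕ) : (Fin (r + 1) → 𝕜) ≃L[𝕜] 𝕜 × (Fin r → 𝕜) :=
  ContinuousLinearEquiv.equivOfInverse
    ((ContinuousLinearMap.proj (R := 𝕜) (φ := fun _ : Fin (r + 1) => 𝕜) 0).prod
      (ContinuousLinearMap.pi fun i => ContinuousLinearMap.proj (R := 𝕜)
        (φ := fun _ : Fin (r + 1) => 𝕜) i.succ))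
    (ContinuousLinearMap.pi fun i => Fin.cases (ContinuousLinearMap.fst 𝕜 𝕜 (Fin r → 𝕜))
      (fun k => (ContinuousLinearMap.proj (R := 𝕜) (φ := fun _ : Fin r => 𝕜) k).comp
        (ContinuousLinearMap.snd 𝕜 𝕜 (Fin r → 𝕜))) i)
    (fun x => by
      funext i
      refine Fin.cases ?_ (fun k => ?_) i
      · simp
      · simp)
    (fun x => by
      refine Prod.ext ?_ ?_
      · simp
      · funext k
        simp)

theorem I3_zero (H : Type*) [NormedAddCommGroup H] [NormedSpace 𝕜 H] :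
    IsoB 𝕜 1 H ((Fin 0 → 𝕜) × H) := by
  refine ⟨ContinuousLinearEquiv.equivOfInverse (ContinuousLinearMap.inr 𝕜 (Fin 0 → 𝕜) H)
    (ContinuousLinearMap.snd 𝕜 (Fin 0 → 𝕜) H) (fun x => rfl)
    (fun x => Prod.ext (Subsingleton.elim _ _) rfl), fun y => ?_, fun z => ?_⟩
  · rw [one_mul]
    change ‖((0 : Fin 0 → 𝕜), y)‖ ≤ ‖y‖
    rw [Prod.norm_def]
    exact max_le (by
      change ‖(0 : Fin 0 → 𝕜)‖ ≤ ‖y‖
      rw [norm_zero]
      exact norm_nonneg _) le_rfl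
  · rw [one_mul]
    exact norm_snd_le z

theorem I3_fin (hX : ∃ K : ℝ, 0 ≤ K ∧ IsoB 𝕜 K (𝕜 × X) X) (r : ℕ) :
    ∀ K : ℝ, 0 ≤ K → ∃ C : ℝ, 0 ≤ C ∧ ∀ (H : Type u) [NormedAddCommGroup H] [NormedSpace 𝕜 H],
      IsoB 𝕜 K ((Fin r → 𝕜) × H) X → IsoB 𝕜 C H X := by
  obtain ⟨K0, hK0, h0⟩ := hX
  induction r with
  | zero =>
    intro K hK
    refine ⟨1 * K, by positivity, fun H _ _ h => ?_⟩
    exact (I3_zero H).trans zero_le_one hK h
  | succ r ih =>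
    intro K hK
    obtain ⟨K1, hK1, h1⟩ := exists_isoB (I3_cons (𝕜 := 𝕜) r)
    set K2 : ℝ := 1 * (max K1 1 * (K * K0)) with hK2
    have hK2' : 0 ≤ K2 := by positivity
    obtain ⟨C, hC, hCH⟩ := ih (K2 * (3 + 2 * K2) + K2 * (1 + 2 * K2 * (1 + K2))) (by positivity)
    refine ⟨C, hC, fun H _ _ h => hCH H ?_⟩
    refine cancel_line hK2' ?_
    have a1 : IsoB 𝕜 1 (𝕜 × ((Fin r → 𝕜) × H)) ((𝕜 × (Fin r → 𝕜)) × H) :=
      (isoB_assoc 𝕜 (Fin r → 𝕜) H).symm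
    have a2 : IsoB 𝕜 (max K1 1) ((𝕜 × (Fin r → 𝕜)) × H) ((Fin (r + 1) → 𝕜) × H) :=
      (I3_prod_left h1).symm
    have a3 : IsoB 𝕜 (K * K0) ((Fin (r + 1) → 𝕜) × H) (𝕜 × X) := h.trans hK hK0 h0.symm
    exact a1.trans zero_le_one (by positivity) (a2.trans (by positivity) (by positivity) a3)

/-- PROOF. First for `F = (Fin r → 𝕜)` by induction on `r`: `(Fin (r + 1) → 𝕜) × H ≃
𝕜 × ((Fin r → 𝕜) × H)` (`Fin.consEquivL`/`Fin.insertNthEquiv`, constants from `exists_isoB` for a fixed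
`r` before the product with `H`), so from `(Fin (r + 1) → 𝕜) × H ≃ X ≃ 𝕜 × X` (`hX`) and
`cancel_line`, `(Fin r → 𝕜) × H ≃ X` with a constant which does not depend on `H`. For
`r = 0`: `(Fin 0 → 𝕜) × H ≃ H`. General `F`: `F ≃ (Fin r → 𝕜)` (`ContinuousLinearEquiv.ofFinrankEq`,
`exists_isoB`). -/
theorem cancel_fin (hX : ∃ K : ℝ, 0 ≤ K ∧ IsoB 𝕜 K (𝕜 × X) X) (F : Type*)
    [NormedAddCommGroup F] [NormedSpace 𝕜 F] [FiniteDimensional 𝕜 F] {K : ℝ} (hK : 0 ≤ K) :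
    ∃ C : ℝ, 0 ≤ C ∧ ∀ (H : Type u) [NormedAddCommGroup H] [NormedSpace 𝕜 H],
      IsoB 𝕜 K (F × H) X → IsoB 𝕜 C H X := by
  have e : F ≃L[𝕜] (Fin (Module.finrank 𝕜 F) → 𝕜) :=
    ContinuousLinearEquiv.ofFinrankEq (by simp)
  obtain ⟨K1, hK1, h1⟩ := exists_isoB e
  obtain ⟨C, hC, hCH⟩ := I3_fin hX (Module.finrank 𝕜 F) (max K1 1 * K) (by positivity)
  refine ⟨C, hC, fun H _ _ h => hCH H ?_⟩
  exact (I3_prod_left h1).symm.trans (by positivity) hK h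

end Pool.Agent.Lib.MP_a0554b_an.P
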