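import Mathlib
import Pool.Agent.Lib.MP_a0554b_an.P.Defs
import Pool.Agent.Lib.MP_a0554b_an.P.B1
import Pool.Agent.Lib.MP_a0554b_an.P.F1
import Pool.Agent.Lib.MP_a0554b_an.P.U1
import Pool.Agent.Lib.MP_a0554b_an.P.U2
import Pool.Agent.Lib.MP_a0554b_an.P.I3
set_option autoImplicit false

/-!
# `X` is uniformly complemented in its tails
-/

noncomputable section

namespace Pool.Agent.Lib.MP_a0554b_an.P

open Filter Topology Set
open scoped ENNReal
open Pool.Agent.Lib.MP_a0554b_an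

universe u v w

variable {𝕜 : Type v} [RCLike 𝕜] {X : Type u} [NormedAddCommGroup X] [NormedSpace 𝕜 X]

theorem C3_coord (b : SchauderBasis 𝕜 X) (n i : ℕ) :
    b.coord n (b i) = if n = i then 1 else 0 := by
  rw [b.ortho]
  by_cases h : n = i
  · subst h
    simp
  · rw [if_neg h]
    simp [h]

theorem C3_fam (b : SchauderBasis 𝕜 X) : Fam b (fun i => b i) where
  ne_zero i h0 := by
    have h := C3_coord b i i
    rw [if_pos rfl] at h
    change b i = 0 at h0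
    rw [h0, map_zero] at h
    exact zero_ne_one h
  finite i := (Set.finite_singleton i).subset fun n hn => by
    by_contra hne
    exact hn (by rw [C3_coord, if_neg (fun h : n = i => hne h)])
  far m := ⟨m, fun n hn => by
    by_contra hlt
    exact hn (by rw [C3_coord, if_neg (by omega)])⟩

theorem C3_fin (S : Set X) (hS : S.Finite) : FiniteDimensional 𝕜 (cs 𝕜 S) := by
  have h1 : FiniteDimensional 𝕜 (Submodule.span 𝕜 S) := FiniteDimensional.span_of_finite 𝕜 hS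
  have h2 : cs 𝕜 S = Submodule.span 𝕜 S :=
    (Submodule.closed_of_finiteDimensional (Submodule.span 𝕜 S)).submodule_topologicalClosure_eq
  rw [h2]
  exact h1

theorem C3_ker {f : X →L[𝕜] 𝕜} {S : Set X} (h : ∀ x ∈ S, f x = 0) {x : X} (hx : x ∈ cs 𝕜 S) :
    f x = 0 := by
  have h1 : cs 𝕜 S ≤ LinearMap.ker (f : X →ₗ[𝕜] 𝕜) :=
    cs_le (f.isClosed_ker) h
  exact h1 hx

theorem C3_mem (b : SchauderBasis 𝕜 X) {I : Set ℕ} {x : X} (h : ∀ n, n ∉ I → b.coord n x = 0) :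
    x ∈ cs 𝕜 ((fun i => b i) '' I) := by
  refine (cs_isClosed _).mem_of_tendsto (SchauderBasis.tendsto_proj b x)
    (Eventually.of_forall fun N => ?_)
  rw [SchauderBasis.proj_apply]
  refine Submodule.sum_mem _ fun i _ => ?_
  by_cases hi : i ∈ I
  · exact Submodule.smul_mem _ _ (subset_cs _ ⟨i, hi, rfl⟩)
  · rw [h i hi, zero_smul]
    exact Submodule.zero_mem _

theorem C3_range (b : SchauderBasis 𝕜 X) {s : List ℕ} {z : ℕ → ℕ} (hz : pre z s.length = s) :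
    Set.range (fun k => b (z k)) =
      (fun i => b i) '' {i | i ∈ s} ∪ (fun i => b i) '' {i | ∃ k, s.length ≤ k ∧ z k = i} := by
  ext x
  constructor
  · rintro ⟨k, rfl⟩
    rcases lt_or_ge k s.length with hk | hk
    · left
      refine ⟨z k, ?_, rfl⟩
      change z k ∈ s
      rw [← hz]
      exact List.mem_map.2 ⟨k, List.mem_range.2 hk, rfl⟩
    · exact Or.inr ⟨z k, ⟨k, hk, rfl⟩, rfl⟩
  · rintro (⟨i, hi, rfl⟩ | ⟨i, ⟨k, _, rfl⟩, rfl⟩)
    · change i ∈ s at hi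
      rw [← hz] at hi
      obtain ⟨k, _, rfl⟩ := List.mem_map.1 hi
      exact ⟨k, rfl⟩
    · exact ⟨k, rfl⟩

/-- PROOF. The family `v = b` satisfies `Fam b b` (`b.coord n (b i)` is `1` for `n = i` and `0` otherwise:
`b.ortho`). Take `K`, `s`, `O` from `exists_bdata`, `K₁` from `split`, and `C` from `cancel_fin` for
`F = cs (b '' {i | i ∈ s})` (a closed span of a finite set: finite dimensional; it does not depend on `m`)
and the constant of `F × cs S' ≃ cs (S ∪ S') ≃ X`. Given `m` take `z` from `gen_far`, and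
`I = {i | ∃ k ≥ s.length, z k = i}`, `S' = b '' I`. `range z = {i | i ∈ s} ∪ I`, disjoint
(`AdmSeq.lt`). So `closedSpan (b ∘ z) = cs (b '' {i ∈ s} ∪ S')` and by `split`, `cancel_fin` there is
`τ : cs S' ≃ X` bounded by `C` in both directions. `S x = τ⁻¹ x`; its coordinates `n < m`
vanish since all elements of `I` are `≥ m`. `T x = τ (P x)` with the projection `P` of `exists_proj`
for `I`: `P x ∈ cs S'` since `b.proj N (P x)` is a linear combination of the `b i`, `i ∈ I`; and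
`P x = x` for `x ∈ cs S'`. -/
theorem exists_tails [CompleteSpace X] (b : SchauderBasis 𝕜 X) (hu : Unconditional b)
    (hb : BlockHomogeneous b) :
    ∃ C : ℝ, 0 ≤ C ∧ ∀ m : ℕ, ∃ S T : X →L[𝕜] X, (∀ x, T (S x) = x) ∧
      (∀ x, ∀ n < m, b.coord n (S x) = 0) ∧ (∀ x, ‖S x‖ ≤ C * ‖x‖) ∧ ∀ x, ‖T x‖ ≤ C * ‖x‖ := by
  obtain ⟨K, s, O, hK, hD, hiso⟩ := exists_bdata b hb (fun i => b i) (C3_fam b)
  obtain ⟨K₁, hK₁, hsplit⟩ := split b hu
  obtain ⟨K₂, hK₂, hproj⟩ := exists_proj b hu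
  set S : Set X := (fun i => b i) '' {i | i ∈ s} with hS
  have hSfin : S.Finite := (List.finite_toSet s).image _
  have hFD : FiniteDimensional 𝕜 (cs 𝕜 S) := C3_fin S hSfin
  obtain ⟨C, hC, hcan⟩ := cancel_fin (exists_line b hu hb) (cs 𝕜 S) (K := K₁ * K)
    (mul_nonneg hK₁ hK)
  refine ⟨C * K₂, mul_nonneg hC (by linarith), fun m => ?_⟩
  obtain ⟨z, hz, hfar⟩ := gen_far (C3_fam b) hD m
  set I : Set ℕ := {i | ∃ k, s.length ≤ k ∧ z k = i} with hI
  set S' : Set X := (fun i => b i) '' I with hS'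
  have hrange : closedSpan 𝕜 (fun k => b (z k)) = cs 𝕜 (S ∪ S') := by
    rw [closedSpan_eq_cs, C3_range b hz.2.1]
  have hdisj : ∀ n i, n ∈ s → i ∈ I → n ≠ i := by
    intro n i hn hi
    rw [← hz.2.1] at hn
    obtain ⟨k, hk, rfl⟩ := List.mem_map.1 hn
    obtain ⟨k', hk', rfl⟩ := hi
    have hlt := hz.1.lt (C3_fam b) (lt_of_lt_of_le (List.mem_range.1 hk) hk')
    refine (hlt (z k) (z k') ?_ ?_).ne
    · rw [C3_coord, if_pos rfl]; exact one_ne_zero
    · rw [C3_coord, if_pos rfl]; exact one_ne_zero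
  have hsp : IsoB 𝕜 K₁ (cs 𝕜 S × cs 𝕜 S') (cs 𝕜 (S ∪ S')) := by
    refine hsplit S S' {i | i ∈ s} ?_ ?_
    · rintro x ⟨i, hi, rfl⟩ n hn
      rw [C3_coord, if_neg fun h => hn (by rw [h]; exact hi)]
    · rintro x ⟨i, hi, rfl⟩ n hn
      rw [C3_coord, if_neg (hdisj n i hn hi)]
  have hX : IsoB 𝕜 K (cs 𝕜 (S ∪ S')) X := by
    have h1 := (hiso z hz).symm
    rw [hrange] at h1
    exact h1
  obtain ⟨τ, hτ, hτ'⟩ := hcan (cs 𝕜 S') (hsp.trans hK₁ hK hX)
  obtain ⟨P, hP1, hP2, hP3⟩ := hproj I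
  have hPmem : ∀ x, P x ∈ cs 𝕜 S' := fun x => C3_mem b fun n hn => hP2 x n hn
  have hcs0 : ∀ x ∈ cs 𝕜 S', ∀ n, n ∉ I → b.coord n x = 0 := by
    intro x hx n hn
    refine C3_ker ?_ hx
    rintro y ⟨i, hi, rfl⟩
    rw [C3_coord, if_neg fun h => hn (by rw [h]; exact hi)]
  have hPfix : ∀ x ∈ cs 𝕜 S', P x = x := by
    intro x hx
    refine ext_coord b fun n => ?_
    by_cases hn : n ∈ I
    · exact hP1 x n hn
    · rw [hP2 x n hn, hcs0 x hx n hn]
  have hIm : ∀ i ∈ I, m ≤ i := by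
    rintro i ⟨k, hk, rfl⟩
    exact hfar k hk (z k) (by rw [C3_coord, if_pos rfl]; exact one_ne_zero)
  refine ⟨(cs 𝕜 S').subtypeL ∘L (τ.symm : X →L[𝕜] cs 𝕜 S'),
    (τ : cs 𝕜 S' →L[𝕜] X) ∘L (P.codRestrict (cs 𝕜 S') hPmem), fun x => ?_, fun x n hn => ?_,
    fun x => ?_, fun x => ?_⟩
  · change τ ⟨P (τ.symm x : X), hPmem _⟩ = x
    have h1 : (⟨P (τ.symm x : X), hPmem _⟩ : cs 𝕜 S') = τ.symm x :=
      Subtype.ext (hPfix _ (τ.symm x).2)
    rw [h1, τ.apply_symm_apply]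
  · change b.coord n (τ.symm x : X) = 0
    exact hcs0 _ (τ.symm x).2 n fun h => absurd (hIm n h) (by omega)
  · change ‖(τ.symm x : X)‖ ≤ _
    have h1 : ‖(τ.symm x : X)‖ ≤ C * ‖x‖ := hτ' x
    refine h1.trans (mul_le_mul_of_nonneg_right ?_ (norm_nonneg _))
    nlinarith
  · change ‖τ ⟨P x, hPmem x⟩‖ ≤ _
    have h1 : ‖τ ⟨P x, hPmem x⟩‖ ≤ C * ‖P x‖ := hτ _
    calc _ ≤ C * ‖P x‖ := h1
      _ ≤ C * (K₂ * ‖x‖) := mul_le_mul_of_nonneg_left (hP3 x) hC
      _ = C * K₂ * ‖x‖ := by ring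

end Pool.Agent.Lib.MP_a0554b_an.P
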