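import Mathlib
import Pool.Agent.Lib.MP_a0554b_an.P.Defs

set_option autoImplicit false

/-!
# Equivalent sequences
-/

noncomputable section

namespace Pool.Agent.Lib.MP_a0554b_an.P

open Filter Topology Set
open scoped ENNReal
open Pool.Agent.Lib.MP_a0554b_an

universe u v w

variable {𝕜 : Type v} [RCLike 𝕜] {X : Type u} [NormedAddCommGroup X] [NormedSpace 𝕜 X]

/-- PROOF: `2 * C * 0`; direct from the definition (`C * 0`, reflexivity, symmetry by exchanging the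
two inequalities). -/
theorem Equi.symm {C : ℝ} {y z : ℕ → X} (h : Equi 𝕜 C y z) : Equi 𝕜 C z y :=
  fun N a => ⟨(h N a).2, (h N a).1⟩

theorem Equi.mono {C C' : ℝ} {y z : ℕ → X} (h : Equi 𝕜 C y z) (hC : C ≤ C') : Equi 𝕜 C' y z :=
  fun N a => ⟨(h N a).1.trans (mul_le_mul_of_nonneg_right hC (norm_nonneg _)),
    (h N a).2.trans (mul_le_mul_of_nonneg_right hC (norm_nonneg _))⟩

theorem Equi.trans {C C' : ℝ} (hC : 0 ≤ C) (hC' : 0 ≤ C') {x y z : ℕ → X} (h : Equi 𝕜 C x y)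
    (h' : Equi 𝕜 C' y z) : Equi 𝕜 (C * C') x z := by
  intro N a
  obtain ⟨h1, h2⟩ := h N a
  obtain ⟨h3, h4⟩ := h' N a
  constructor
  · calc ‖∑ i ∈ Finset.range N, a i • x i‖ ≤ C * ‖∑ i ∈ Finset.range N, a i • y i‖ := h1
      _ ≤ C * (C' * ‖∑ i ∈ Finset.range N, a i • z i‖) := mul_le_mul_of_nonneg_left h3 hC
      _ = C * C' * ‖∑ i ∈ Finset.range N, a i • z i‖ := by ring
  · calc ‖∑ i ∈ Finset.range N, a i • z i‖ ≤ C' * ‖∑ i ∈ Finset.range N, a i • y i‖ := h4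
      _ ≤ C' * (C * ‖∑ i ∈ Finset.range N, a i • x i‖) := mul_le_mul_of_nonneg_left h2 hC'
      _ = C * C' * ‖∑ i ∈ Finset.range N, a i • x i‖ := by ring

theorem E0_comp_sum (y : ℕ → X) {j : ℕ → ℕ} (hj : StrictMono j) (N : ℕ) (a : ℕ → 𝕜) :
    ∑ i ∈ Finset.range N, a i • y (j i) =
      ∑ m ∈ Finset.range (j N), Function.extend j a 0 m • y m := by
  classical
  have h1 : ∑ m ∈ Finset.range (j N), Function.extend j a 0 m • y m =
      ∑ m ∈ (Finset.range N).image j, Function.extend j a 0 m • y m := by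
    symm
    apply Finset.sum_subset
    · intro m hm
      obtain ⟨i, hi, rfl⟩ := Finset.mem_image.mp hm
      exact Finset.mem_range.mpr (hj (Finset.mem_range.mp hi))
    · intro m hm hn
      have h2 : ¬ ∃ i, j i = m := by
        rintro ⟨i, rfl⟩
        apply hn
        exact Finset.mem_image_of_mem _ (Finset.mem_range.mpr
          (hj.lt_iff_lt.mp (Finset.mem_range.mp hm)))
      rw [Function.extend_apply' _ _ _ h2]
      simp
  rw [h1, Finset.sum_image (fun a _ b _ h => hj.injective h)]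
  refine Finset.sum_congr rfl fun i _ => ?_
  rw [hj.injective.extend_apply]

theorem Equi.comp {C : ℝ} {y z : ℕ → X} (h : Equi 𝕜 C y z) {j : ℕ → ℕ} (hj : StrictMono j) :
    Equi 𝕜 C (fun k => y (j k)) (fun k => z (j k)) := by
  intro N a
  have h1 := E0_comp_sum (𝕜 := 𝕜) y hj N a
  have h2 := E0_comp_sum (𝕜 := 𝕜) z hj N a
  simp only
  rw [h1, h2]
  exact h (j N) _

/-- Limits of the same combinations. -/
def E0R (𝕜 : Type v) [RCLike 𝕜] {X : Type u} [NormedAddCommGroup X] [NormedSpace 𝕜 X]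
    (y z : ℕ → X) (u w : X) : Prop :=
  ∃ c : ℕ → (ℕ →₀ 𝕜),
    Tendsto (fun n => Finsupp.linearCombination 𝕜 y (c n)) atTop (𝓝 u) ∧
    Tendsto (fun n => Finsupp.linearCombination 𝕜 z (c n)) atTop (𝓝 w)

theorem E0R.swap {y z : ℕ → X} {u w : X} (h : E0R 𝕜 y z u w) : E0R 𝕜 z y w u := by
  obtain ⟨c, h1, h2⟩ := h
  exact ⟨c, h2, h1⟩

theorem E0R.add {y z : ℕ → X} {u w u' w' : X} (h : E0R 𝕜 y z u w) (h' : E0R 𝕜 y z u' w') :
    E0R 𝕜 y z (u + u') (w + w') := by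
  obtain ⟨c, h1, h2⟩ := h
  obtain ⟨c', h1', h2'⟩ := h'
  refine ⟨fun n => c n + c' n, ?_, ?_⟩
  · simp only [map_add]
    exact h1.add h1'
  · simp only [map_add]
    exact h2.add h2'

theorem E0R.smul {y z : ℕ → X} {u w : X} (a : 𝕜) (h : E0R 𝕜 y z u w) :
    E0R 𝕜 y z (a • u) (a • w) := by
  obtain ⟨c, h1, h2⟩ := h
  refine ⟨fun n => a • c n, ?_, ?_⟩
  · simp only [map_smul]
    exact h1.const_smul a
  · simp only [map_smul]
    exact h2.const_smul a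

theorem E0_comb_le {C : ℝ} {y z : ℕ → X} (h : Equi 𝕜 C y z) (c : ℕ →₀ 𝕜) :
    ‖Finsupp.linearCombination 𝕜 y c‖ ≤ C * ‖Finsupp.linearCombination 𝕜 z c‖ := by
  obtain ⟨N, hN⟩ := c.support.bddAbove
  have hsub : c.support ⊆ Finset.range (N + 1) := by
    intro i hi
    exact Finset.mem_range.mpr (Nat.lt_succ_of_le (hN hi))
  have h1 : ∀ y : ℕ → X, Finsupp.linearCombination 𝕜 y c =
      ∑ i ∈ Finset.range (N + 1), c i • y i := by
    intro y
    rw [Finsupp.linearCombination_apply]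
    exact Finsupp.sum_of_support_subset _ hsub _ (fun i _ => zero_smul _ _)
  rw [h1, h1]
  exact (h (N + 1) c).1

theorem E0R.le {C : ℝ} {y z : ℕ → X} (h : Equi 𝕜 C y z) {u w : X} (hR : E0R 𝕜 y z u w) :
    ‖u‖ ≤ C * ‖w‖ := by
  obtain ⟨c, h1, h2⟩ := hR
  exact le_of_tendsto_of_tendsto' h1.norm (h2.norm.const_mul C) (fun n => E0_comb_le h (c n))

theorem E0R.unique {C : ℝ} {y z : ℕ → X} (h : Equi 𝕜 C y z) {u w w' : X} (hR : E0R 𝕜 y z u w)
    (hR' : E0R 𝕜 y z u w') : w = w' := by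
  have h1 := hR.add (hR'.smul (-1 : 𝕜))
  have h2 := h1.swap.le h.symm
  have h3 : u + (-1 : 𝕜) • u = 0 := by
    rw [neg_one_smul, add_neg_cancel]
  rw [h3, norm_zero, mul_zero] at h2
  have h4 : w + (-1 : 𝕜) • w' = 0 := norm_le_zero_iff.mp h2
  rw [neg_one_smul, ← sub_eq_add_neg, sub_eq_zero] at h4
  exact h4

theorem E0R.mem {y z : ℕ → X} {u w : X} (hR : E0R 𝕜 y z u w) : u ∈ closedSpan 𝕜 y := by
  obtain ⟨c, h1, _⟩ := hR
  have h2 : IsClosed (closedSpan 𝕜 y : Set X) := Submodule.isClosed_topologicalClosure _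
  refine h2.mem_of_tendsto h1 (Filter.Eventually.of_forall fun n => ?_)
  apply (Submodule.span 𝕜 (Set.range y)).le_topologicalClosure
  rw [← Finsupp.range_linearCombination]
  exact ⟨c n, rfl⟩

theorem E0R.ex [CompleteSpace X] {C : ℝ} (hC : 0 ≤ C) {y z : ℕ → X} (h : Equi 𝕜 C y z) {u : X}
    (hu : u ∈ closedSpan 𝕜 y) : ∃ w, E0R 𝕜 y z u w := by
  have h1 : u ∈ closure ((Submodule.span 𝕜 (Set.range y) : Submodule 𝕜 X) : Set X) := hu
  rw [mem_closure_iff_seq_limit] at h1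
  obtain ⟨x, hx, hxu⟩ := h1
  have h2 : ∀ n, ∃ c : ℕ →₀ 𝕜, Finsupp.linearCombination 𝕜 y c = x n := by
    intro n
    have h3 := hx n
    rw [← Finsupp.range_linearCombination] at h3
    exact h3
  choose c hc using h2
  have h3 : CauchySeq (fun n => Finsupp.linearCombination 𝕜 z (c n)) := by
    have h4 := hxu.cauchySeq
    rw [Metric.cauchySeq_iff] at h4 ⊢
    intro ε hε
    obtain ⟨N, hN⟩ := h4 (ε / (C + 1)) (by positivity)
    refine ⟨N, fun m hm n hn => ?_⟩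
    have h5 := hN m hm n hn
    have h6 := E0_comb_le h.symm (c m - c n)
    rw [map_sub, map_sub, hc, hc] at h6
    rw [dist_eq_norm] at h5 ⊢
    rw [lt_div_iff₀ (by positivity)] at h5
    have h7 := norm_nonneg (x m - x n)
    nlinarith
  obtain ⟨w, hw⟩ := cauchySeq_tendsto_of_complete h3
  refine ⟨w, c, ?_, hw⟩
  simp only [hc]
  exact hxu

theorem Equi.exists_equiv [CompleteSpace X] {C : ℝ} (hC : 0 ≤ C) {y z : ℕ → X}
    (h : Equi 𝕜 C y z) :
    ∃ T : closedSpan 𝕜 y ≃L[𝕜] closedSpan 𝕜 z, (∀ x, ‖T x‖ ≤ C * ‖x‖) ∧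
      (∀ x, ‖T.symm x‖ ≤ C * ‖x‖) ∧
      ∀ (i : ℕ) (hi : y i ∈ closedSpan 𝕜 y), (T ⟨y i, hi⟩ : X) = z i := by
  have h1 : ∀ u : closedSpan 𝕜 y, ∃ w : closedSpan 𝕜 z, E0R 𝕜 y z u w := by
    intro u
    obtain ⟨w, hw⟩ := E0R.ex hC h u.2
    exact ⟨⟨w, hw.swap.mem⟩, hw⟩
  have h2 : ∀ w : closedSpan 𝕜 z, ∃ u : closedSpan 𝕜 y, E0R 𝕜 z y w u := by
    intro w
    obtain ⟨u, hu⟩ := E0R.ex hC h.symm w.2
    exact ⟨⟨u, hu.swap.mem⟩, hu⟩
  choose f hf using h1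
  choose g hg using h2
  let e : closedSpan 𝕜 y ≃ₗ[𝕜] closedSpan 𝕜 z :=
    { toFun := f
      invFun := g
      map_add' := fun a b => Subtype.ext (E0R.unique h (hf (a + b)) ((hf a).add (hf b)))
      map_smul' := fun a b => Subtype.ext (E0R.unique h (hf (a • b)) ((hf b).smul a))
      left_inv := fun u => Subtype.ext (E0R.unique h.symm (hg (f u)) (hf u).swap)
      right_inv := fun w => Subtype.ext (E0R.unique h (hf (g w)) (hg w).swap) }
  have he : ∀ u, ‖e u‖ ≤ C * ‖u‖ := fun u => (hf u).swap.le h.symm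
  have he' : ∀ w, ‖e.symm w‖ ≤ C * ‖w‖ := fun w => (hg w).swap.le h
  refine ⟨e.toContinuousLinearEquivOfBounds C C he he', he, he', fun i hi => ?_⟩
  refine E0R.unique h (hf ⟨y i, hi⟩) ⟨fun _ => Finsupp.single i 1, ?_, ?_⟩
  · simp
  · simp

end Pool.Agent.Lib.MP_a0554b_an.P
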