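import Mathlib
import Pool.Agent.Lib.MP_a0554b_an.P.Defs

set_option autoImplicit false

/-!
# Block sequences of block sequences: the intervals
-/

noncomputable section

namespace Pool.Agent.Lib.MP_a0554b_an.P

open Filter Topology Set
open scoped ENNReal
open Pool.Agent.Lib.MP_a0554b_an

universe u v w

variable {𝕜 : Type v} [RCLike 𝕜] {X : Type u} [NormedAddCommGroup X] [NormedSpace 𝕜 X]

theorem E1a_proj_zero {b : SchauderBasis 𝕜 X} {x : X} {N : ℕ}
    (h : ∀ n, b.coord n x ≠ 0 → N ≤ n) : b.proj N x = 0 := by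
  rw [SchauderBasis.proj_apply]
  refine Finset.sum_eq_zero fun m hm => ?_
  have h2 : b.coord m x = 0 := by
    by_contra h3
    exact absurd (Finset.mem_range.1 hm) (not_lt.2 (h m h3))
  rw [h2, zero_smul]

theorem E1a_proj_self {b : SchauderBasis 𝕜 X} {x : X} {N : ℕ}
    (h : ∀ n, b.coord n x ≠ 0 → n < N) : b.proj N x = x := by
  have h1 : ∀ n, N ≤ n → b.proj n x = b.proj N x := fun n hn => by
    rw [SchauderBasis.proj_apply, SchauderBasis.proj_apply]
    refine (Finset.sum_subset (Finset.range_mono hn) fun m _ hm => ?_).symm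
    have h2 : b.coord m x = 0 := by
      by_contra h3
      exact hm (Finset.mem_range.2 (h m h3))
    rw [h2, zero_smul]
  have h6 : Tendsto (fun n => b.proj n x) atTop (𝓝 (b.proj N x)) := by
    refine tendsto_const_nhds.congr' ?_
    filter_upwards [eventually_ge_atTop N] with n hn
    exact (h1 n hn).symm
  exact tendsto_nhds_unique h6 (SchauderBasis.tendsto_proj b x)

theorem E1a_coord_proj_zero (b : SchauderBasis 𝕜 X) {N i : ℕ} (h : N ≤ i) (w : X) :
    b.coord i (b.proj N w) = 0 := by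
  rw [SchauderBasis.proj_apply, map_sum]
  refine Finset.sum_eq_zero fun j hj => ?_
  have h1 : i ≠ j := by
    have := Finset.mem_range.1 hj
    omega
  have ho : b.coord i (b j) = 0 := by
    rw [b.ortho]
    simp [Ne.symm h1, h1]
  rw [map_smul, ho, smul_zero]

/-- PROOF. `e` = the cut points of `y'` (`IsBlock.exists_cut`). Let `m` be in the support of `x` and
`x = ∑ i ∈ F, c i • y' i` (`F` a finite set): if `c i = 0` for all `i ≥ k` then `x ∈ span (y' '' Iio k)` has its
support in `[0, e k)`. So if the support of `x` is in `[e k, ∞)` then `c i = 0` for `i < k` (apply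
`b.proj (e k)`, which is the identity on `y' i`, `i < k`, and zero on the others,
`IsCut.proj_apply`; the nonzero vectors `y' i` have disjoint supports, hence are linearly
independent). -/
theorem mem_span_Ici {b : SchauderBasis 𝕜 X} {y' : ℕ → X} {e : ℕ → ℕ} (he : IsCut b y' e) {x : X}
    (hx : x ∈ Submodule.span 𝕜 (Set.range y')) {k : ℕ}
    (h : ∀ n, b.coord n x ≠ 0 → e k ≤ n) : x ∈ Submodule.span 𝕜 (y' '' Set.Ici k) := by
  have h1 : Submodule.span 𝕜 (Set.range y') ≤ (Submodule.span 𝕜 (y' '' Set.Ici k)).comap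
      (LinearMap.id - (b.proj (e k) : X →ₗ[𝕜] X)) := by
    rw [Submodule.span_le]
    rintro _ ⟨i, rfl⟩
    change y' i - b.proj (e k) (y' i) ∈ Submodule.span 𝕜 (y' '' Set.Ici k)
    rw [he.proj_apply]
    split_ifs with hi
    · rw [sub_self]
      exact Submodule.zero_mem _
    · rw [sub_zero]
      exact Submodule.subset_span ⟨i, not_lt.1 hi, rfl⟩
  have h2 : x - b.proj (e k) x ∈ Submodule.span 𝕜 (y' '' Set.Ici k) := h1 hx
  rwa [E1a_proj_zero h, sub_zero] at h2

/-- The largest index of a cut point not after `n`. -/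
theorem E1a_idx {b : SchauderBasis 𝕜 X} {y' : ℕ → X} {e : ℕ → ℕ} (he : IsCut b y' e) (n : ℕ) :
    ∃ p, e p ≤ n ∧ n < e (p + 1) := by
  have h1 : ∃ q, n < e q := ⟨n + 1, lt_of_lt_of_le (Nat.lt_succ_self n) (he.mono.id_le _)⟩
  classical
  obtain ⟨p, hp⟩ : ∃ p, Nat.find h1 = p + 1 := by
    apply Nat.exists_eq_succ_of_ne_zero
    intro h0
    have h2 := Nat.find_spec h1
    rw [h0, he.zero] at h2
    omega
  refine ⟨p, not_lt.1 (Nat.find_min h1 (by omega)), ?_⟩
  rw [← hp]
  exact Nat.find_spec h1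

theorem E1a_lt {b : SchauderBasis 𝕜 X} {y' : ℕ → X} {e : ℕ → ℕ} (he : IsCut b y' e) {m n p q : ℕ}
    (h1 : e p ≤ m) (h2 : n < e (q + 1)) (h : m ≤ n) : p ≤ q := by
  have h3 : e p < e (q + 1) := lt_of_le_of_lt (h1.trans h) h2
  exact Nat.lt_succ_iff.1 (he.mono.lt_iff_lt.1 h3)

/-- All of the support of `y' i` is in the support of `x` if one point of the interval is. -/
theorem E1a_full {b : SchauderBasis 𝕜 X} {y' : ℕ → X} {e : ℕ → ℕ} (he : IsCut b y' e) {x : X}
    (hx : x ∈ Submodule.span 𝕜 (Set.range y')) {i n m : ℕ} (h1 : e i ≤ n) (h2 : n < e (i + 1))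
    (hn : b.coord n x ≠ 0) (hm : b.coord m (y' i) ≠ 0) : b.coord m x ≠ 0 := by
  have hxc : x ∈ closedSpan 𝕜 y' := (Submodule.span 𝕜 (Set.range y')).le_topologicalClosure hx
  have h3 := he.proj_sub_mem (Nat.le_succ i) hxc
  have h4 : Set.Ico i i.succ = {i} := by
    ext j
    simp only [Set.mem_Ico, Set.mem_singleton_iff]
    omega
  rw [h4, Set.image_singleton, Submodule.mem_span_singleton] at h3
  obtain ⟨c, hc⟩ := h3
  have h5 : ∀ l, e i ≤ l → l < e (i + 1) → b.coord l x = c * b.coord l (y' i) := by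
    intro l hl1 hl2
    have h6 := congrArg (b.coord l) hc
    rw [map_smul, map_sub, L0_coord_proj b _ _ hl2, E1a_coord_proj_zero b hl1, sub_zero,
      smul_eq_mul] at h6
    exact h6.symm
  have h7 := he.supp i m hm
  rw [h5 m h7.1 h7.2]
  refine mul_ne_zero ?_ hm
  rintro rfl
  apply hn
  rw [h5 n h1 h2, zero_mul]

/-- PROOF. `e` = the cut points of `y'`. For each `k` the vector `y k` is in `span (range y')`; let
`p k` be the largest `p` such that the support of `y k` is in `[e p, ∞)` (exists: `e p ≥ p`, `e 0 = 0`).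
Then `y k ∈ span (y' '' Ici (p k))`, in fact `y k ∈ span (y' '' Ico (p k) (q k))` where `q k` is the
smallest `q` such that the support of `y k` is in `[0, e q)`, and `q k ≤ p (k + 1)`: write
`y k = ∑ i ∈ F, c i • y' i`; then the support of `y k` is the union of the supports of the `y' i` with
`c i ≠ 0`; so the sets `{i | c i ≠ 0}` are successive. -/
theorem exists_intervals {b : SchauderBasis 𝕜 X} {y' y : ℕ → X} (hy' : IsBlock b y')
    (hy : BlockOf b y' y) :
    ∃ p q : ℕ → ℕ, (∀ k, p k < q k) ∧ (∀ k, q k ≤ p (k + 1)) ∧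
      ∀ k, y k ∈ Submodule.span 𝕜 (y' '' Set.Ico (p k) (q k)) := by
  obtain ⟨e, he⟩ := hy'.exists_cut
  have hne : ∀ k, ((hy.isBlock.finite k).toFinset).Nonempty := fun k => by
    obtain ⟨n, hn⟩ := E1_exists_coord_ne (b := b) (hy.isBlock.ne_zero k)
    exact ⟨n, (hy.isBlock.finite k).mem_toFinset.2 hn⟩
  let M : ℕ → ℕ := fun k => ((hy.isBlock.finite k).toFinset).max' (hne k)
  have hM : ∀ k, b.coord (M k) (y k) ≠ 0 := fun k =>
    (hy.isBlock.finite k).mem_toFinset.1 (Finset.max'_mem _ (hne k))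
  have hM' : ∀ k n, b.coord n (y k) ≠ 0 → n ≤ M k := fun k n hn =>
    Finset.le_max' _ _ ((hy.isBlock.finite k).mem_toFinset.2 hn)
  let m : ℕ → ℕ := fun k => ((hy.isBlock.finite k).toFinset).min' (hne k)
  have hm : ∀ k, b.coord (m k) (y k) ≠ 0 := fun k =>
    (hy.isBlock.finite k).mem_toFinset.1 (Finset.min'_mem _ (hne k))
  have hm' : ∀ k n, b.coord n (y k) ≠ 0 → m k ≤ n := fun k n hn =>
    Finset.min'_le _ _ ((hy.isBlock.finite k).mem_toFinset.2 hn)
  choose g hg1 hg2 using fun n => E1a_idx he n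
  have hpq : ∀ k, g (m k) ≤ g (M k) := fun k => E1a_lt he (hg1 _) (hg2 _) (hm' k _ (hM k))
  refine ⟨fun k => g (m k), fun k => g (M k) + 1, fun k => Nat.lt_succ_of_le (hpq k),
    fun k => ?_, fun k => ?_⟩
  · have h1 : M k < m (k + 1) := hy.isBlock.lt k _ _ (hM k) (hm (k + 1))
    have h2 : g (M k) ≤ g (m (k + 1)) := E1a_lt he (hg1 _) (hg2 _) h1.le
    rcases h2.lt_or_eq with h3 | h3
    · exact h3
    · exfalso
      obtain ⟨n, hn⟩ := E1_exists_coord_ne (b := b) (hy'.ne_zero (g (M k)))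
      have h4 := E1a_full he (hy.mem k) (hg1 (M k)) (hg2 (M k)) (hM k) hn
      have h5 := E1a_full he (hy.mem (k + 1)) (i := g (M k)) (n := m (k + 1))
        (by rw [h3]; exact hg1 _) (by rw [h3]; exact hg2 _) (hm (k + 1)) hn
      exact lt_irrefl n (hy.isBlock.lt k n n h4 h5)
  · have hxc : y k ∈ closedSpan 𝕜 y' :=
      (Submodule.span 𝕜 (Set.range y')).le_topologicalClosure (hy.mem k)
    have h1 := he.proj_sub_mem (k := g (m k)) (l := g (M k) + 1) ((hpq k).trans (Nat.le_succ _)) hxc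
    rwa [E1a_proj_self (fun n hn => lt_of_le_of_lt (hM' k n hn) (hg2 _)),
      E1a_proj_zero (fun n hn => (hg1 _).trans (hm' k n hn)), sub_zero] at h1

end Pool.Agent.Lib.MP_a0554b_an.P
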