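import Mathlib
import Pool.Agent.Lib.MP_a0554b_an.P.Defs
import Pool.Agent.Lib.MP_a0554b_an.P.E0
import Pool.Agent.Lib.MP_a0554b_an.P.E1a

set_option autoImplicit false

/-!
# Block sequences of equivalent sequences
-/

noncomputable section

namespace Pool.Agent.Lib.MP_a0554b_an.P

open Filter Topology Set
open scoped ENNReal
open Pool.Agent.Lib.MP_a0554b_an

universe u v w

variable {𝕜 : Type v} [RCLike 𝕜] {X : Type u} [NormedAddCommGroup X] [NormedSpace 𝕜 X]

/-- PROOF: `exists_intervals`: `q k ≤ p (k + 1)`, so `p k ≥ k`, and `y (k + N) ∈ span (y' '' Ici N)`. -/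
theorem BlockOf.shift {b : SchauderBasis 𝕜 X} {y' y : ℕ → X} (hy' : IsBlock b y')
    (hy : BlockOf b y' y) (N : ℕ) :
    BlockOf b (fun k => y' (k + N)) (fun k => y (k + N)) := by
  obtain ⟨p, q, h1, h2, h3⟩ := exists_intervals hy' hy
  have h4 : ∀ k, k ≤ p k := by
    intro k
    induction k with
    | zero => exact Nat.zero_le _
    | succ k ih => exact lt_of_le_of_lt ih (lt_of_lt_of_le (h1 k) (h2 k))
  refine ⟨hy.isBlock.shift N, fun k => ?_⟩
  refine Submodule.span_mono ?_ (h3 (k + N))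
  rintro _ ⟨i, hi, rfl⟩
  have h5 := h4 (k + N)
  have h6 : p (k + N) ≤ i := hi.1
  refine ⟨i - N, ?_⟩
  change y' (i - N + N) = y' i
  rw [Nat.sub_add_cancel (by omega)]

/-- PROOF: `Submodule.span_le`, the range of `y` is in `span (range y')`. -/
theorem BlockOf.trans {b : SchauderBasis 𝕜 X} {y'' y' y : ℕ → X} (h : BlockOf b y'' y')
    (h' : BlockOf b y' y) : BlockOf b y'' y := by
  refine ⟨h'.isBlock, fun k => ?_⟩
  have h1 : Submodule.span 𝕜 (Set.range y') ≤ Submodule.span 𝕜 (Set.range y'') := by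
    rw [Submodule.span_le]
    rintro _ ⟨i, rfl⟩
    exact h.mem i
  exact h1 (h'.mem k)

theorem BlockOf.comp {b : SchauderBasis 𝕜 X} {y' y : ℕ → X} (h : BlockOf b y' y) {j : ℕ → ℕ}
    (hj : StrictMono j) : BlockOf b y' (fun k => y (j k)) := by
  refine ⟨?_, fun k => h.mem (j k)⟩
  obtain ⟨e, he⟩ := h.isBlock.exists_cut
  refine ⟨fun k => h.isBlock.ne_zero _, fun k => h.isBlock.finite _, fun k m n hm hn => ?_⟩
  have h1 := (he.supp (j k) m hm).2
  have h2 := (he.supp (j (k + 1)) n hn).1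
  have h3 : e (j k + 1) ≤ e (j (k + 1)) := he.mono.monotone (hj (Nat.lt_succ_self k))
  omega

theorem IsBlock.comp {b : SchauderBasis 𝕜 X} {y : ℕ → X} (h : IsBlock b y) {j : ℕ → ℕ}
    (hj : StrictMono j) : IsBlock b (fun k => y (j k)) := by
  obtain ⟨e, he⟩ := h.exists_cut
  refine ⟨fun k => h.ne_zero _, fun k => h.finite _, fun k m n hm hn => ?_⟩
  have h1 := (he.supp (j k) m hm).2
  have h2 := (he.supp (j (k + 1)) n hn).1
  have h3 : e (j k + 1) ≤ e (j (k + 1)) := he.mono.monotone (hj (Nat.lt_succ_self k))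
  omega

theorem E1_comb (p q : ℕ → ℕ) (c : ℕ → ℕ → 𝕜) (N M : ℕ) (hM : ∀ k ∈ Finset.range N, q k ≤ M)
    (a : ℕ → 𝕜) (u : ℕ → X) :
    ∑ k ∈ Finset.range N, a k • ∑ i ∈ Finset.Ico (p k) (q k), c k i • u i =
      ∑ i ∈ Finset.range M, (∑ k ∈ Finset.range N,
        if p k ≤ i ∧ i < q k then a k * c k i else 0) • u i := by
  have h1 : ∀ i ∈ Finset.range M, (∑ k ∈ Finset.range N,
      if p k ≤ i ∧ i < q k then a k * c k i else 0) • u i =
      ∑ k ∈ Finset.range N, if p k ≤ i ∧ i < q k then (a k * c k i) • u i else 0 := by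
    intro i _
    rw [Finset.sum_smul]
    refine Finset.sum_congr rfl fun k _ => ?_
    split_ifs
    · rfl
    · rw [zero_smul]
  rw [Finset.sum_congr rfl h1, Finset.sum_comm]
  refine Finset.sum_congr rfl fun k hk => ?_
  rw [Finset.smul_sum, ← Finset.sum_filter]
  have h2 : (Finset.range M).filter (fun i => p k ≤ i ∧ i < q k) = Finset.Ico (p k) (q k) := by
    ext i
    rw [Finset.mem_filter, Finset.mem_range, Finset.mem_Ico]
    have h3 := hM k hk
    constructor
    · exact fun h => h.2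
    · exact fun h => ⟨lt_of_lt_of_le h.2 h3, h⟩
  rw [h2]
  exact Finset.sum_congr rfl fun i _ => smul_smul _ _ _

/-- Block sequences are transported by an equivalence. PROOF. Let `p`, `q` be from
`exists_intervals` (`w` is a block sequence of `w'`), `w k = ∑ i ∈ Ico (p k) (q k), c i • w' i`
(the intervals are disjoint, so one coefficient sequence `c : ℕ → 𝕜` does it, with `c i = 0` outside
of the union of the intervals); `x k = ∑ i ∈ Ico (p k) (q k), c i • z' i`. `x k ≠ 0` since
`‖w k‖ ≤ C * ‖x k‖`; its support is finite and in the union of the supports of the `z' i`,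
`i ∈ Ico (p k) (q k)`, so `x` is a block sequence. `∑ k < N, a k • w k = ∑ i < q N, a' i • w' i` with
`a' i = a k * c i` for `i ∈ Ico (p k) (q k)`, `k < N`, and the same for `x`, `z'`. -/
theorem exists_transport {b : SchauderBasis 𝕜 X} {C : ℝ} {w' z' w : ℕ → X}
    (hw' : IsBlock b w') (hz' : IsBlock b z') (h : Equi 𝕜 C w' z') (hw : BlockOf b w' w) :
    ∃ x : ℕ → X, BlockOf b z' x ∧ Equi 𝕜 C w x := by
  obtain ⟨p, q, h1, h2, h3⟩ := exists_intervals hw' hw
  obtain ⟨e, he⟩ := hz'.exists_cut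
  have h4 : ∀ k, ∃ c : ℕ → 𝕜, ∑ i ∈ Finset.Ico (p k) (q k), c i • w' i = w k := by
    intro k
    have h5 := h3 k
    rw [← Finset.coe_Ico, Submodule.mem_span_image_finset_iff_exists_fun'] at h5
    exact h5
  choose c hc using h4
  have hq : ∀ N : ℕ, ∀ k ∈ Finset.range N, q k ≤ ∑ k ∈ Finset.range N, q k := fun N k hk =>
    Finset.single_le_sum (fun _ _ => Nat.zero_le _) hk
  set x : ℕ → X := fun k => ∑ i ∈ Finset.Ico (p k) (q k), c k i • z' i with hx
  have hE : Equi 𝕜 C w x := by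
    intro N a
    have e1 := E1_comb p q c N (∑ k ∈ Finset.range N, q k) (hq N) a w'
    have e2 := E1_comb p q c N (∑ k ∈ Finset.range N, q k) (hq N) a z'
    have e3 : ∑ k ∈ Finset.range N, a k • w k =
        ∑ k ∈ Finset.range N, a k • ∑ i ∈ Finset.Ico (p k) (q k), c k i • w' i :=
      Finset.sum_congr rfl fun k _ => by rw [hc k]
    rw [e3, e1]
    have e4 : ∑ k ∈ Finset.range N, a k • x k =
        ∑ k ∈ Finset.range N, a k • ∑ i ∈ Finset.Ico (p k) (q k), c k i • z' i := rfl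
    rw [e4, e2]
    exact h _ _
  have hsupp : ∀ k n, b.coord n (x k) ≠ 0 → e (p k) ≤ n ∧ n < e (q k) := by
    intro k n hn
    rw [hx, map_sum] at hn
    obtain ⟨i, hi, hi2⟩ := Finset.exists_ne_zero_of_sum_ne_zero hn
    rw [map_smul] at hi2
    have hi3 : b.coord n (z' i) ≠ 0 := fun h0 => hi2 (by rw [h0, smul_zero])
    have h5 := he.supp i n hi3
    rw [Finset.mem_Ico] at hi
    exact ⟨(he.mono.monotone hi.1).trans h5.1,
      lt_of_lt_of_le h5.2 (he.mono.monotone (show i + 1 ≤ q k from hi.2))⟩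
  have hne : ∀ k, x k ≠ 0 := by
    intro k hk
    have h5 := (hE (k + 1) (fun i => if i = k then 1 else 0)).1
    have h6 : ∀ u : ℕ → X, ∑ i ∈ Finset.range (k + 1), (if i = k then (1 : 𝕜) else 0) • u i
        = u k := by
      intro u
      rw [Finset.sum_eq_single k]
      · rw [if_pos rfl, one_smul]
      · intro i _ hi
        rw [if_neg hi, zero_smul]
      · intro hk2
        exact absurd (Finset.self_mem_range_succ k) hk2
    rw [h6, h6, hk, norm_zero, mul_zero] at h5
    exact hw.isBlock.ne_zero k (norm_le_zero_iff.mp h5)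
  refine ⟨x, ⟨⟨hne, fun k => ?_, fun k m n hm hn => ?_⟩, fun k => ?_⟩, hE⟩
  · exact (Set.finite_Iio (e (q k))).subset fun n hn => (hsupp k n hn).2
  · have h5 := (hsupp k m hm).2
    have h6 := (hsupp (k + 1) n hn).1
    have h7 : e (q k) ≤ e (p (k + 1)) := he.mono.monotone (h2 k)
    omega
  · exact Submodule.sum_mem _ fun i _ => Submodule.smul_mem _ _ (Submodule.subset_span ⟨i, rfl⟩)

end Pool.Agent.Lib.MP_a0554b_an.P
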