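import Mathlib
import Pool.Agent.Lib.MP_a0554b_an.P.Defs
set_option autoImplicit false

/-!
# Gliding hump
-/

noncomputable section

namespace Pool.Agent.Lib.MP_a0554b_an.P

open Filter Topology Set
open scoped ENNReal
open Pool.Agent.Lib.MP_a0554b_an

universe u v w

variable {𝕜 : Type v} [RCLike 𝕜] {X : Type u} [NormedAddCommGroup X] [NormedSpace 𝕜 X]

private theorem G1_proj_zero (b : SchauderBasis 𝕜 X) {y : ℕ → X} (hy : IsBlock b y) (k : ℕ) :
    b.proj k (y k) = 0 := by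
  obtain ⟨e, he⟩ := hy.exists_cut
  rw [SchauderBasis.proj_apply]
  refine Finset.sum_eq_zero fun i hi => ?_
  have h0 : b.coord i (y k) = 0 := by
    by_contra h
    have h1 := (he.supp k i h).1
    have h2 : k ≤ e k := he.mono.le_apply
    exact absurd (Finset.mem_range.1 hi) (not_lt.2 (h2.trans h1))
  rw [h0, zero_smul]

private theorem G1_functional (b : SchauderBasis 𝕜 X) (hs : Shrinking b) {y : ℕ → X}
    (hy : IsBlock b y) (f : X →L[𝕜] 𝕜) :
    Tendsto (fun k => f (((‖y k‖⁻¹ : ℝ) : 𝕜) • y k)) atTop (𝓝 0) := by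
  refine squeeze_zero_norm (fun k => ?_) (hs f)
  have h1 : (f ∘L (ContinuousLinearMap.id 𝕜 X - b.proj k)) (((‖y k‖⁻¹ : ℝ) : 𝕜) • y k) =
      f (((‖y k‖⁻¹ : ℝ) : 𝕜) • y k) := by
    rw [ContinuousLinearMap.comp_apply, sub_apply,
      ContinuousLinearMap.id_apply, map_smul (b.proj k), G1_proj_zero b hy k, smul_zero, sub_zero]
  have h2 : ‖((‖y k‖⁻¹ : ℝ) : 𝕜) • y k‖ = 1 := by
    rw [norm_smul, RCLike.norm_ofReal, abs_of_nonneg (inv_nonneg.2 (norm_nonneg _)),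
      inv_mul_cancel₀ (norm_ne_zero_iff.2 (hy.ne_zero k))]
  rw [← h1]
  refine (ContinuousLinearMap.le_opNorm _ _).trans ?_
  rw [h2, mul_one]

/-- PROOF. Let `x k = ‖y k‖⁻¹ • y k`, `u k = τ (x k)`. For a functional `f` of `X`, `f (x k) → 0`:
`b.proj k (x k) = 0` (the support of `y k` is in `[k, ∞)`), so `|f (x k)| ≤ ‖f ∘ (1 - b.proj k)‖`
(`hs`). Hence for every `m`, `b.proj m (u k) = ∑ i < m, b.coord i (u k) • b i → 0` as
`k → ∞` (the functionals `b.coord i ∘ τ`). And for every `k`, `b.proj (e m) (u k) → u k` as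
`m → ∞` (`e` strictly monotone). Choose `n 0 = 0`, and recursively `j k` (larger than `j (k - 1)`) with
`‖b.proj (e (n k)) (u (j k))‖ ≤ ε k`, then `n (k + 1) > n k` with
`‖u (j k) - b.proj (e (n (k + 1))) (u (j k))‖ ≤ ε k`. -/
theorem exists_gliding (b : SchauderBasis 𝕜 X) (hs : Shrinking b) (y₀ : ℕ → X)
    (τ : X ≃L[𝕜] closedSpan 𝕜 y₀) {e : ℕ → ℕ} (he : IsCut b y₀ e) (y : ℕ → X)
    (hy : IsBlock b y) (ε : ℕ → ℝ) (hε : ∀ k, 0 < ε k) :
    ∃ j n : ℕ → ℕ, StrictMono j ∧ StrictMono n ∧ ∀ k,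
      ‖b.proj (e (n k)) (τ (((‖y (j k)‖⁻¹ : ℝ) : 𝕜) • y (j k)) : X)‖ ≤ ε k ∧
      ‖(τ (((‖y (j k)‖⁻¹ : ℝ) : 𝕜) • y (j k)) : X) -
        b.proj (e (n (k + 1))) (τ (((‖y (j k)‖⁻¹ : ℝ) : 𝕜) • y (j k)) : X)‖ ≤ ε k := by
  let T : X →L[𝕜] X := (closedSpan 𝕜 y₀).subtypeL ∘L (τ : X →L[𝕜] closedSpan 𝕜 y₀)
  let x : ℕ → X := fun k => ((‖y k‖⁻¹ : ℝ) : 𝕜) • y k
  have hT : ∀ k, (τ (((‖y k‖⁻¹ : ℝ) : 𝕜) • y k) : X) = T (x k) := fun k => rfl
  have hA : ∀ (n j₀ k : ℕ), ∃ j, j₀ < j ∧ ‖b.proj (e n) (T (x j))‖ ≤ ε k := by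
    intro n j₀ k
    have h1 : Tendsto (fun j => b.proj (e n) (T (x j))) atTop (𝓝 0) := by
      have h2 : Tendsto (fun j => ∑ i ∈ Finset.range (e n), b.coord i (T (x j)) • b i) atTop
          (𝓝 (∑ i ∈ Finset.range (e n), (0 : 𝕜) • b i)) := by
        refine tendsto_finsetSum _ fun i _ => ?_
        exact (G1_functional b hs hy ((b.coord i) ∘L T)).smul_const (b i)
      simp only [zero_smul, Finset.sum_const_zero] at h2
      refine h2.congr fun j => ?_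
      rw [SchauderBasis.proj_apply]
    have h3 : ∀ᶠ j in atTop, ‖b.proj (e n) (T (x j))‖ ≤ ε k := by
      have h4 := h1.norm
      rw [norm_zero] at h4
      exact (h4.eventually (gt_mem_nhds (hε k))).mono fun j hj => le_of_lt hj
    obtain ⟨j, hj1, hj2⟩ := (h3.and (eventually_gt_atTop j₀)).exists
    exact ⟨j, hj2, hj1⟩
  have hB : ∀ (j n k : ℕ), ∃ n', n < n' ∧ ‖T (x j) - b.proj (e n') (T (x j))‖ ≤ ε k := by
    intro j n k
    have h1 : Tendsto (fun m => ‖T (x j) - b.proj (e m) (T (x j))‖) atTop (𝓝 0) := by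
      have h2 : Tendsto (fun m => b.proj (e m) (T (x j))) atTop (𝓝 (T (x j))) :=
        (SchauderBasis.tendsto_proj b (T (x j))).comp he.mono.tendsto_atTop
      have h3 := (tendsto_const_nhds (x := T (x j))).sub h2
      rw [sub_self] at h3
      have h4 := h3.norm
      rwa [norm_zero] at h4
    have h3 : ∀ᶠ m in atTop, ‖T (x j) - b.proj (e m) (T (x j))‖ ≤ ε k :=
      (h1.eventually (gt_mem_nhds (hε k))).mono fun j hj => le_of_lt hj
    obtain ⟨m, hm1, hm2⟩ := (h3.and (eventually_gt_atTop n)).exists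
    exact ⟨m, hm2, hm1⟩
  choose fA hA1 hA2 using hA
  choose fB hB1 hB2 using hB
  let q : ℕ → ℕ × ℕ := fun k => Nat.rec (fA 0 0 0, 0)
    (fun k p => (fA (fB p.1 p.2 k) p.1 (k + 1), fB p.1 p.2 k)) k
  have hq : ∀ k, q (k + 1) = (fA (fB (q k).1 (q k).2 k) (q k).1 (k + 1), fB (q k).1 (q k).2 k) :=
    fun k => rfl
  refine ⟨fun k => (q k).1, fun k => (q k).2, strictMono_nat_of_lt_succ fun k => ?_,
    strictMono_nat_of_lt_succ fun k => ?_, fun k => ⟨?_, ?_⟩⟩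
  · simp only [hq]
    exact hA1 _ _ _
  · simp only [hq]
    exact hB1 _ _ _
  · simp only [hT]
    cases k with
    | zero => exact hA2 0 0 0
    | succ k =>
      simp only [hq]
      exact hA2 _ _ _
  · simp only [hT, hq]
    exact hB2 _ _ _

end Pool.Agent.Lib.MP_a0554b_an.P
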