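import Mathlib
import Pool.Agent.Lib.MP_a0554b_an.P.Defs
set_option autoImplicit false

/-!
# Small perturbations of block sequences
-/

noncomputable section

namespace Pool.Agent.Lib.MP_a0554b_an.P

open Filter Topology Set
open scoped ENNReal
open Pool.Agent.Lib.MP_a0554b_an

universe u v w

variable {𝕜 : Type v} [RCLike 𝕜] {X : Type u} [NormedAddCommGroup X] [NormedSpace 𝕜 X]

private theorem G2_functional (b : SchauderBasis 𝕜 X) {K : ℝ} (hK : 0 ≤ K)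
    (hKb : ∀ n x, ‖b.proj n x‖ ≤ K * ‖x‖) (y : ℕ → X) (hy : IsBlock b y) {c : ℝ} (hc : 0 < c)
    (hyc : ∀ k, c ≤ ‖y k‖) (k : ℕ) :
    ∃ φ : X →L[𝕜] 𝕜, (∀ i, φ (y i) = if i = k then 1 else 0) ∧
      ∀ x, ‖φ x‖ ≤ 2 * K / c * ‖x‖ := by
  obtain ⟨e, he⟩ := hy.exists_cut
  obtain ⟨ψ, hψ1, hψ2⟩ := exists_dual_vector 𝕜 (y k) (norm_ne_zero_iff.2 (hy.ne_zero k))
  let Q : X →L[𝕜] X := b.proj (e (k + 1)) - b.proj (e k)
  have hQ : ∀ x, Q x = b.proj (e (k + 1)) x - b.proj (e k) x := fun x => rfl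
  have hn : (‖y k‖ : ℝ) ≠ 0 := norm_ne_zero_iff.2 (hy.ne_zero k)
  have hpos : 0 < ‖y k‖ := norm_pos_iff.2 (hy.ne_zero k)
  refine ⟨((‖y k‖⁻¹ : ℝ) : 𝕜) • (ψ ∘L Q), fun i => ?_, fun x => ?_⟩
  · rw [smul_apply, ContinuousLinearMap.comp_apply, hQ, he.proj_apply,
      he.proj_apply]
    rcases lt_trichotomy i k with h | h | h
    · rw [if_pos (Nat.lt_succ_of_lt h), if_pos h, sub_self, map_zero, smul_zero, if_neg h.ne]
    · subst h
      rw [if_pos (Nat.lt_succ_self i), if_neg (lt_irrefl i), sub_zero, hψ2, if_pos rfl,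
        smul_eq_mul, ← RCLike.ofReal_mul, inv_mul_cancel₀ hn, RCLike.ofReal_one]
    · rw [if_neg (not_lt.2 (Nat.succ_le_of_lt h)), if_neg (not_lt.2 h.le), sub_self, map_zero,
        smul_zero, if_neg h.ne']
  · rw [smul_apply, ContinuousLinearMap.comp_apply, norm_smul,
      RCLike.norm_ofReal, abs_of_nonneg (inv_nonneg.2 (norm_nonneg _))]
    have h1 : ‖ψ (Q x)‖ ≤ 2 * K * ‖x‖ := by
      refine (ψ.le_opNorm _).trans ?_
      rw [hψ1, one_mul, hQ]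
      refine (norm_sub_le _ _).trans ?_
      have h2 := hKb (e (k + 1)) x
      have h3 := hKb (e k) x
      linarith
    have h4 : ‖y k‖⁻¹ ≤ c⁻¹ := inv_anti₀ hc (hyc k)
    calc ‖y k‖⁻¹ * ‖ψ (Q x)‖ ≤ c⁻¹ * (2 * K * ‖x‖) :=
          mul_le_mul h4 h1 (norm_nonneg _) (inv_nonneg.2 hc.le)
      _ = 2 * K / c * ‖x‖ := by ring

/-- PROOF. `e` = the cut points of `w`, `Q k = b.proj (e (k + 1)) - b.proj (e k)`: `Q k (w k) = w k`,
`Q k (w i) = 0` for `i ≠ k` (`IsCut.proj_apply`), `‖Q k x‖ ≤ 2 * K * ‖x‖`. By Hahn-Banach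
(`exists_dual_vector`) there is `ψ k` with `‖ψ k‖ = 1`, `ψ k (w k) = ‖w k‖`;
`φ k = (‖w k‖)⁻¹ • ψ k ∘ Q k`: `φ k (w i) = 1` for `i = k` and `0` otherwise, `‖φ k‖ ≤ 2 * K / c`.
`E x = ∑' k, φ k x • (u k - w k)`, norm at most `∑ (2 * K / c) * δ k ≤ 1/2`. -/
theorem exists_correction [CompleteSpace X] (b : SchauderBasis 𝕜 X) {K : ℝ} (hK : 0 ≤ K)
    (hKb : ∀ n x, ‖b.proj n x‖ ≤ K * ‖x‖) (w u : ℕ → X) (hw : IsBlock b w) {c : ℝ} (hc : 0 < c)
    (hwc : ∀ k, c ≤ ‖w k‖) (δ : ℕ → ℝ) (hδ : ∀ k, ‖u k - w k‖ ≤ δ k) (hsum : Summable δ)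
    (hδs : (2 * K / c) * ∑' k, δ k ≤ 1 / 2) :
    ∃ E : X →L[𝕜] X, (∀ k, E (w k) = u k - w k) ∧ (∀ x, ‖E x‖ ≤ 1 / 2 * ‖x‖) ∧
      ∀ x, E x ∈ cs 𝕜 (Set.range fun k => u k - w k) := by
  choose φ hφ1 hφ2 using G2_functional b hK hKb w hw hc hwc
  have hC : 0 ≤ 2 * K / c := div_nonneg (mul_nonneg zero_le_two hK) hc.le
  have hb : ∀ x k, ‖φ k x • (u k - w k)‖ ≤ 2 * K / c * ‖x‖ * δ k := fun x k => by
    rw [norm_smul]
    exact mul_le_mul (hφ2 k x) (hδ k) (norm_nonneg _) (mul_nonneg hC (norm_nonneg _))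
  have hs : ∀ x, Summable fun k => φ k x • (u k - w k) := fun x =>
    Summable.of_norm_bounded (hsum.mul_left (2 * K / c * ‖x‖)) (hb x)
  have hn : ∀ x, ‖∑' k, φ k x • (u k - w k)‖ ≤ 1 / 2 * ‖x‖ := fun x => by
    refine (tsum_of_norm_bounded (hsum.mul_left (2 * K / c * ‖x‖)).hasSum (hb x)).trans ?_
    rw [tsum_mul_left]
    calc 2 * K / c * ‖x‖ * ∑' k, δ k = (2 * K / c * ∑' k, δ k) * ‖x‖ := by ring
      _ ≤ 1 / 2 * ‖x‖ := mul_le_mul_of_nonneg_right hδs (norm_nonneg _)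
  let L : X →ₗ[𝕜] X :=
    { toFun := fun x => ∑' k, φ k x • (u k - w k)
      map_add' := fun x x' => by
        rw [← (hs x).tsum_add (hs x')]
        exact tsum_congr fun k => by rw [map_add, add_smul]
      map_smul' := fun a x => by
        rw [RingHom.id_apply, ← (hs x).tsum_const_smul a]
        exact tsum_congr fun k => by rw [map_smul, smul_eq_mul, mul_smul] }
  refine ⟨L.mkContinuous (1 / 2) hn, fun k => ?_, hn, fun x => ?_⟩
  · change ∑' i, φ i (w k) • (u i - w i) = u k - w k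
    rw [tsum_eq_single k]
    · rw [hφ1, if_pos rfl, one_smul]
    · intro i hi
      rw [hφ1, if_neg (fun h => hi h.symm), zero_smul]
  · change ∑' k, φ k x • (u k - w k) ∈ cs 𝕜 (Set.range fun k => u k - w k)
    refine (cs_isClosed (𝕜 := 𝕜) (Set.range fun k => u k - w k)).mem_of_tendsto (hs x).hasSum
      (Eventually.of_forall fun s => ?_)
    exact Submodule.sum_mem _ fun i _ => Submodule.smul_mem _ _ (subset_cs _ ⟨i, rfl⟩)

end Pool.Agent.Lib.MP_a0554b_an.P
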