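import Mathlib
import Pool.Agent.Lib.MP_a0554b_an.P.Defs
import Pool.Agent.Lib.MP_a0554b_an.P.G1
import Pool.Agent.Lib.MP_a0554b_an.P.G2

set_option autoImplicit false

/-!
# Transfer: the core
-/

noncomputable section

namespace Pool.Agent.Lib.MP_a0554b_an.P

open Filter Topology Set
open scoped ENNReal
open Pool.Agent.Lib.MP_a0554b_an

universe u v w

variable {𝕜 : Type v} [RCLike 𝕜] {X : Type u} [NormedAddCommGroup X] [NormedSpace 𝕜 X]

private theorem G3a_smul {b : SchauderBasis 𝕜 X} {y : ℕ → X} (hy : IsBlock b y) (a : ℕ → 𝕜)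
    (ha : ∀ k, a k ≠ 0) : IsBlock b (fun k => a k • y k) where
  ne_zero := fun k => smul_ne_zero (ha k) (hy.ne_zero k)
  finite := fun k => (hy.finite k).subset fun n hn => by
    simp only [map_smul, smul_eq_mul, ne_eq, mul_eq_zero, not_or, mem_ofPred_eq] at hn ⊢
    exact hn.2
  lt := fun k m n hm hn => by
    simp only [map_smul, smul_eq_mul, ne_eq, mul_eq_zero, not_or] at hm hn
    exact hy.lt k m n hm.2 hn.2

private theorem G3a_coord_proj (b : SchauderBasis 𝕜 X) (N i : ℕ) (w : X) :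
    b.coord i (b.proj N w) = if i < N then b.coord i w else 0 := by
  have ho : ∀ j, b.coord i (b j) = if i = j then 1 else 0 := fun j => by
    rw [b.ortho]
    simp only [Pi.single_apply]
    split_ifs <;> rfl
  rw [SchauderBasis.proj_apply, map_sum]
  have h1 : ∀ j ∈ Finset.range N, b.coord i (b.coord j w • b j) =
      if i = j then b.coord i w else 0 := by
    intro j _
    rw [map_smul, ho]
    split_ifs with h
    · rw [h, smul_eq_mul, mul_one]
    · rw [smul_zero]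
  rw [Finset.sum_congr rfl h1, Finset.sum_ite_eq]
  simp only [Finset.mem_range]

/-- PROOF. Let `‖b.proj n x‖ ≤ K₁ * ‖x‖`, `K₁ ≥ 1` (`SchauderBasis.exists_norm_proj_le`),
`M = max ‖τ‖ ‖τ⁻¹‖` (`> 0`), `e` the cut points of `y₀` (`IsBlock.exists_cut`), `c = 1 / (2 * M)`,
`ε k = η * 2⁻ᵏ` with `η > 0` small: `2 η ≤ c` and `(2 * K₁ / c) * ∑ 2 * ε k ≤ 1/2`. Take `j`, `n` from
`exists_gliding`, `u k = τ (‖y (j k)‖⁻¹ • y (j k))` (`‖u k‖ ≥ 1 / M`),
`w' k = b.proj (e (n (k + 1))) (u k) - b.proj (e (n k)) (u k)`: `‖u k - w' k‖ ≤ 2 * ε k`, so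
`‖w' k‖ ≥ c`; `w' k ∈ span (y₀ '' Ico (n k) (n (k + 1)))` (`IsCut.proj_sub_mem`), so `w'` is a block
sequence (its support is in `[e (n k), e (n (k + 1)))`) and `w' k ∈ span (range y₀)`. Let `E` be the
operator of `exists_correction` and `J = 1 + E`: `J (w' k) = u k`, `‖J x‖ ≤ 3/2 * ‖x‖`;
`exists_inverse` (file B1) gives the inverse `V` of `J`, `‖V x‖ ≤ 2 * ‖x‖`. `E` has values in
`closedSpan y₀` (`u k - w' k` is in it), so `J` maps `closedSpan y₀` to itself, and so does `V`: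
`V x = x - E (V x)`. Finally `w k = ‖y (j k)‖ • w' k`. -/
theorem transfer_core [CompleteSpace X] (b : SchauderBasis 𝕜 X) (hs : Shrinking b) (y₀ : ℕ → X)
    (hy₀ : IsBlock b y₀) (τ : X ≃L[𝕜] closedSpan 𝕜 y₀) (y : ℕ → X) (hy : IsBlock b y) :
    ∃ (w : ℕ → X) (j : ℕ → ℕ) (J V : X →L[𝕜] X), BlockOf b y₀ w ∧ StrictMono j ∧
      (∀ x, V (J x) = x) ∧ (∀ x, J (V x) = x) ∧ (∀ x, ‖J x‖ ≤ 2 * ‖x‖) ∧ (∀ x, ‖V x‖ ≤ 2 * ‖x‖) ∧
      (∀ x ∈ closedSpan 𝕜 y₀, J x ∈ closedSpan 𝕜 y₀) ∧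
      (∀ x ∈ closedSpan 𝕜 y₀, V x ∈ closedSpan 𝕜 y₀) ∧ ∀ k, J (w k) = (τ (y (j k)) : X) := by
  -- constants
  obtain ⟨K₀, hK₀⟩ := SchauderBasis.exists_norm_proj_le b
  set K₁ : ℝ := max K₀ 1 with hK₁
  have hK₁1 : 1 ≤ K₁ := le_max_right _ _
  have hKb : ∀ n x, ‖b.proj n x‖ ≤ K₁ * ‖x‖ := fun n x =>
    ((b.proj n).le_opNorm x).trans (mul_le_mul_of_nonneg_right ((hK₀ n).trans (le_max_left _ _))
      (norm_nonneg _))
  set M : ℝ := max ‖(τ.symm : closedSpan 𝕜 y₀ →L[𝕜] X)‖ 1 with hM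
  have hM1 : 1 ≤ M := le_max_right _ _
  have hM0 : 0 < M := lt_of_lt_of_le one_pos hM1
  have hτs : ∀ z, ‖τ.symm z‖ ≤ M * ‖z‖ := fun z =>
    ((τ.symm : closedSpan 𝕜 y₀ →L[𝕜] X).le_opNorm z).trans
      (mul_le_mul_of_nonneg_right (le_max_left _ _) (norm_nonneg _))
  obtain ⟨e, he⟩ := hy₀.exists_cut
  set c : ℝ := 1 / (2 * M) with hc
  have hc0 : 0 < c := by positivity
  set η : ℝ := c / (16 * K₁) with hη
  have hη0 : 0 < η := by positivity
  set ε : ℕ → ℝ := fun k => η * (1 / 2) ^ k with hε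
  have hε0 : ∀ k, 0 < ε k := fun k => by positivity
  have hεη : ∀ k, ε k ≤ η := fun k => by
    have : (1 / 2 : ℝ) ^ k ≤ 1 := pow_le_one₀ (by norm_num) (by norm_num)
    calc ε k = η * (1 / 2) ^ k := rfl
      _ ≤ η * 1 := mul_le_mul_of_nonneg_left this hη0.le
      _ = η := mul_one η
  obtain ⟨j, n, hj, hn, hjn⟩ := exists_gliding b hs y₀ τ he y hy ε hε0
  set x : ℕ → X := fun k => ((‖y (j k)‖⁻¹ : ℝ) : 𝕜) • y (j k) with hx
  set u : ℕ → X := fun k => (τ (x k) : X) with hu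
  set w' : ℕ → X := fun k => b.proj (e (n (k + 1))) (u k) - b.proj (e (n k)) (u k) with hw'
  have hynorm : ∀ k, 0 < ‖y (j k)‖ := fun k => norm_pos_iff.2 (hy.ne_zero _)
  have hxnorm : ∀ k, ‖x k‖ = 1 := fun k => by
    rw [hx]
    simp only
    rw [norm_smul, RCLike.norm_ofReal, abs_of_pos (inv_pos.2 (hynorm k)),
      inv_mul_cancel₀ (hynorm k).ne']
  have hunorm : ∀ k, 2 * c ≤ ‖u k‖ := fun k => by
    have h1 := hτs (τ (x k))
    rw [τ.symm_apply_apply, hxnorm] at h1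
    have h2 : ‖τ (x k)‖ = ‖u k‖ := rfl
    rw [h2] at h1
    have h3 : 2 * c = 1 / M := by
      rw [hc]; field_simp
    rw [h3, div_le_iff₀ hM0]
    linarith
  have hdiff : ∀ k, ‖u k - w' k‖ ≤ 2 * ε k := fun k => by
    have h1 : u k - w' k = (u k - b.proj (e (n (k + 1))) (u k)) + b.proj (e (n k)) (u k) := by
      rw [hw']
      simp only
      abel
    rw [h1]
    have h2 := (hjn k).1
    have h3 := (hjn k).2
    refine (norm_add_le _ _).trans ?_
    have h2' : ‖b.proj (e (n k)) (u k)‖ ≤ ε k := h2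
    have h3' : ‖u k - b.proj (e (n (k + 1))) (u k)‖ ≤ ε k := h3
    linarith
  have hηc : 2 * η ≤ c := by
    rw [hη]
    have : c / (16 * K₁) ≤ c / 16 := by
      refine div_le_div_of_nonneg_left hc0.le (by norm_num) (by linarith)
    linarith
  have hwc : ∀ k, c ≤ ‖w' k‖ := fun k => by
    have h1 : ‖u k‖ ≤ ‖w' k‖ + ‖u k - w' k‖ := by
      calc ‖u k‖ = ‖w' k + (u k - w' k)‖ := by rw [add_sub_cancel]
        _ ≤ _ := norm_add_le _ _
    have h2 := hunorm k
    have h3 := hdiff k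
    have h4 := hεη k
    linarith
  have humem : ∀ k, u k ∈ closedSpan 𝕜 y₀ := fun k => (τ (x k)).2
  have hwspan : ∀ k, w' k ∈ Submodule.span 𝕜 (y₀ '' Ico (n k) (n (k + 1))) := fun k =>
    he.proj_sub_mem (hn.monotone (Nat.le_succ k)) (humem k)
  have hwrange : ∀ k, w' k ∈ Submodule.span 𝕜 (Set.range y₀) := fun k =>
    Submodule.span_mono (Set.image_subset_range _ _) (hwspan k)
  have hwmem : ∀ k, w' k ∈ closedSpan 𝕜 y₀ := fun k =>
    (Submodule.span 𝕜 (Set.range y₀)).le_topologicalClosure (hwrange k)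
  have hsupp : ∀ k i, b.coord i (w' k) ≠ 0 → e (n k) ≤ i ∧ i < e (n (k + 1)) := by
    intro k i hi
    have h1 : b.coord i (w' k) = (if i < e (n (k + 1)) then b.coord i (u k) else 0) -
        (if i < e (n k) then b.coord i (u k) else 0) := by
      rw [hw']
      simp only
      rw [map_sub, G3a_coord_proj, G3a_coord_proj]
    have h2 : e (n k) ≤ e (n (k + 1)) := he.mono.monotone (hn.monotone (Nat.le_succ k))
    rw [h1] at hi
    constructor
    · by_contra h
      push Not at h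
      apply hi
      rw [if_pos h, if_pos (lt_of_lt_of_le h h2), sub_self]
    · by_contra h
      apply hi
      rw [if_neg h, if_neg (fun h' => h (lt_of_lt_of_le h' h2)), sub_self]
  have hwblock : IsBlock b w' := by
    refine ⟨fun k => ?_, fun k => ?_, fun k m i hm hi => ?_⟩
    · rw [← norm_pos_iff]
      exact lt_of_lt_of_le hc0 (hwc k)
    · exact (Set.finite_Iio (e (n (k + 1)))).subset fun i hi => (hsupp k i hi).2
    · exact lt_of_lt_of_le (hsupp k m hm).2 (hsupp (k + 1) i hi).1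
  have hgeo : Summable fun k : ℕ => (1 / 2 : ℝ) ^ k := summable_geometric_two
  have hsum : Summable fun k => 2 * ε k := by
    have : (fun k => 2 * ε k) = fun k : ℕ => 2 * η * (1 / 2 : ℝ) ^ k := by
      ext k
      rw [hε]
      ring
    rw [this]
    exact hgeo.mul_left _
  have htsum : ∑' k, 2 * ε k = 4 * η := by
    have : (fun k => 2 * ε k) = fun k : ℕ => 2 * η * (1 / 2 : ℝ) ^ k := by
      ext k
      rw [hε]
      ring
    rw [this, tsum_mul_left, tsum_geometric_two]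
    ring
  obtain ⟨E, hE1, hE2, hE3⟩ := exists_correction b (K := K₁) (by linarith) hKb w' u hwblock hc0 hwc
    (fun k => 2 * ε k) hdiff hsum (by
      rw [htsum, hη]
      apply le_of_eq
      field_simp
      norm_num)
  have hEmem : ∀ x, E x ∈ closedSpan 𝕜 y₀ := by
    intro x
    refine cs_le (closedSpan_isClosed y₀) ?_ (hE3 x)
    rintro _ ⟨k, rfl⟩
    exact Submodule.sub_mem _ (humem k) (hwmem k)
  set J : X →L[𝕜] X := ContinuousLinearMap.id 𝕜 X + E with hJ
  have hJx : ∀ x, J x = x + E x := fun x => rfl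
  obtain ⟨V, hV1, hV2, hV3⟩ := exists_inverse J (fun x => by
    rw [hJx, add_sub_cancel_left]
    exact hE2 x)
  have hVx : ∀ x, V x = x - E (V x) := fun x => by
    have h1 := hV2 x
    rw [hJx] at h1
    rw [eq_sub_iff_add_eq]
    exact h1
  refine ⟨fun k => ((‖y (j k)‖ : ℝ) : 𝕜) • w' k, j, J, V, ⟨?_, ?_⟩, hj, hV1, hV2, ?_, hV3, ?_, ?_, ?_⟩
  · refine G3a_smul hwblock _ fun k => ?_
    exact_mod_cast (hynorm k).ne'
  · intro k
    exact Submodule.smul_mem _ _ (hwrange k)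
  · intro x
    rw [hJx]
    have h1 := norm_add_le x (E x)
    have h2 := hE2 x
    have h3 := norm_nonneg x
    linarith
  · intro x hx
    rw [hJx]
    exact Submodule.add_mem _ hx (hEmem x)
  · intro x hx
    rw [hVx]
    exact Submodule.sub_mem _ hx (hEmem _)
  · intro k
    rw [map_smul, hJx, hE1, add_sub_cancel]
    have h1 : y (j k) = ((‖y (j k)‖ : ℝ) : 𝕜) • x k := by
      rw [hx]
      simp only
      rw [smul_smul, ← RCLike.ofReal_mul, mul_inv_cancel₀ (hynorm k).ne', RCLike.ofReal_one,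
        one_smul]
    conv_rhs => rw [h1]
    rw [map_smul]
    rfl

end Pool.Agent.Lib.MP_a0554b_an.P
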