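import Mathlib
import Pool.Agent.Lib.MP_a0554b_an.P.Defs
import Pool.Agent.Lib.MP_a0554b_an.P.G3a

set_option autoImplicit false

/-!
# Transfer of block sequences: equivalence
-/

noncomputable section

namespace Pool.Agent.Lib.MP_a0554b_an.P

open Filter Topology Set
open scoped ENNReal
open Pool.Agent.Lib.MP_a0554b_an

universe u v w

variable {𝕜 : Type v} [RCLike 𝕜] {X : Type u} [NormedAddCommGroup X] [NormedSpace 𝕜 X]

/-- PROOF. `w`, `j`, `J`, `V` from `transfer_core`, `M = max ‖τ‖ ‖τ⁻¹‖`, `C = 2 * M`: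
`J (∑ a i • w i) = τ (∑ a i • y (j i))`, and `w i = V (τ (y (j i)))`. -/
theorem transfer_equi [CompleteSpace X] (b : SchauderBasis 𝕜 X) (hs : Shrinking b) (y₀ : ℕ → X)
    (hy₀ : IsBlock b y₀) (τ : X ≃L[𝕜] closedSpan 𝕜 y₀) :
    ∃ C : ℝ, 0 ≤ C ∧ ∀ y : ℕ → X, IsBlock b y → ∃ (w : ℕ → X) (j : ℕ → ℕ), BlockOf b y₀ w ∧
      StrictMono j ∧ Equi 𝕜 C w (fun k => y (j k)) := by
  set M : ℝ := max (max ‖(τ.symm : closedSpan 𝕜 y₀ →L[𝕜] X)‖ ‖(τ : X →L[𝕜] closedSpan 𝕜 y₀)‖) 1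
    with hM
  have hM0 : 0 < M := lt_of_lt_of_le one_pos (le_max_right _ _)
  have hτs : ∀ z, ‖τ.symm z‖ ≤ M * ‖z‖ := fun z =>
    ((τ.symm : closedSpan 𝕜 y₀ →L[𝕜] X).le_opNorm z).trans
      (mul_le_mul_of_nonneg_right ((le_max_left _ _).trans (le_max_left _ _)) (norm_nonneg _))
  have hτ : ∀ z, ‖τ z‖ ≤ M * ‖z‖ := fun z =>
    ((τ : X →L[𝕜] closedSpan 𝕜 y₀).le_opNorm z).trans
      (mul_le_mul_of_nonneg_right ((le_max_right _ _).trans (le_max_left _ _)) (norm_nonneg _))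
  refine ⟨2 * M, by positivity, fun y hy => ?_⟩
  obtain ⟨w, j, J, V, hw, hj, hVJ, hJV, hJ, hV, -, -, hJw⟩ := transfer_core b hs y₀ hy₀ τ y hy
  refine ⟨w, j, hw, hj, fun N a => ?_⟩
  have h1 : J (∑ i ∈ Finset.range N, a i • w i) =
      (τ (∑ i ∈ Finset.range N, a i • y (j i)) : X) := by
    rw [map_sum, map_sum, Submodule.coe_sum]
    refine Finset.sum_congr rfl fun i _ => ?_
    rw [map_smul, hJw, map_smul]
    rfl
  constructor
  · have h2 := hV (J (∑ i ∈ Finset.range N, a i • w i))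
    rw [hVJ, h1] at h2
    have h3 := hτ (∑ i ∈ Finset.range N, a i • y (j i))
    have h4 : ‖(τ (∑ i ∈ Finset.range N, a i • y (j i)) : X)‖ =
      ‖τ (∑ i ∈ Finset.range N, a i • y (j i))‖ := rfl
    rw [h4] at h2
    linarith
  · have h2 := hτs (τ (∑ i ∈ Finset.range N, a i • y (j i)))
    rw [τ.symm_apply_apply] at h2
    have h3 := hJ (∑ i ∈ Finset.range N, a i • w i)
    rw [h1] at h3
    have h4 : ‖(τ (∑ i ∈ Finset.range N, a i • y (j i)) : X)‖ =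
      ‖τ (∑ i ∈ Finset.range N, a i • y (j i))‖ := rfl
    rw [h4] at h3
    nlinarith

end Pool.Agent.Lib.MP_a0554b_an.P
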