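import Mathlib
import Pool.Agent.Lib.MP_a0554b_an.P.Defs
import Pool.Agent.Lib.MP_a0554b_an.P.E1

set_option autoImplicit false

/-!
# The diagonal argument, general form
-/

noncomputable section

namespace Pool.Agent.Lib.MP_a0554b_an.P

open Filter Topology Set
open scoped ENNReal
open Pool.Agent.Lib.MP_a0554b_an

universe u v w

variable {𝕜 : Type v} [RCLike 𝕜] {X : Type u} [NormedAddCommGroup X] [NormedSpace 𝕜 X]

theorem N0_far {b : SchauderBasis 𝕜 X} {y : ℕ → X} (hy : IsBlock b y) (N : ℕ) :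
    ∃ j, ∀ n, b.coord n (y j) ≠ 0 → N ≤ n := by
  obtain ⟨e, he⟩ := hy.exists_cut
  exact ⟨N, fun n hn => he.mono.le_apply.trans (he.supp N n hn).1⟩

theorem N0_next {b : SchauderBasis 𝕜 X} {y : ℕ → X} (hy : IsBlock b y) (x : X)
    (hx : {n | b.coord n x ≠ 0}.Finite) : ∃ j, Lt b x (y j) := by
  obtain ⟨N, hN⟩ := hx.bddAbove
  obtain ⟨j, hj⟩ := N0_far hy (N + 1)
  refine ⟨j, fun m n hm hn => ?_⟩
  have h1 : m ≤ N := hN hm
  have h2 := hj n hn
  omega

/-- PROOF. Choose recursively block sequences `Y n`: `Y 0 = y`, `Y (n + 1)` is a block sequence of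
`Y n` with `R n (Y (n + 1))` (`hext`). Choose recursively `j n` such that the support of `Y n (j n)` is
after the support of `Y (n - 1) (j (n - 1))` (the support of `Y n m` is in `[m, ∞)`: supports of a block
sequence are successive and not empty). `d n = Y n (j n)` is a block sequence, and
`d k ∈ span (range (Y n))` for `k ≥ n` (`BlockOf.trans`), so `d (· + (n + 1))` is a block sequence of
`Y (n + 1)` and `R n (d (· + (n + 1)))` by `hher`. -/
theorem diagonal (b : SchauderBasis 𝕜 X) (R : ℕ → (ℕ → X) → Prop) (y : ℕ → X) (hy : IsBlock b y)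
    (hext : ∀ n y', BlockOf b y y' → ∃ y'', BlockOf b y' y'' ∧ R n y'')
    (hher : ∀ n y' y'', IsBlock b y' → BlockOf b y' y'' → R n y' → R n y'') :
    ∃ d, BlockOf b y d ∧ ∀ n, R n (fun k => d (k + (n + 1))) := by
  have hyy : BlockOf b y y := ⟨hy, fun k => Submodule.subset_span ⟨k, rfl⟩⟩
  choose f hf1 hf2 using fun (n : ℕ) (p : {y' : ℕ → X // BlockOf b y y'}) => hext n p.1 p.2
  let Y : ℕ → {y' : ℕ → X // BlockOf b y y'} := fun n =>
    Nat.rec ⟨y, hyy⟩ (fun n p => ⟨f n p, p.2.trans (hf1 n p)⟩) n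
  have hY0 : (Y 0).1 = y := rfl
  have hYs : ∀ n, (Y (n + 1)).1 = f n (Y n) := fun _ => rfl
  have hYb : ∀ n, BlockOf b (Y n).1 (Y (n + 1)).1 := fun n => by
    rw [hYs]
    exact hf1 n (Y n)
  have hYR : ∀ n, R n (Y (n + 1)).1 := fun n => by
    rw [hYs]
    exact hf2 n (Y n)
  have hYm : ∀ n m, n ≤ m → BlockOf b (Y n).1 (Y m).1 := by
    intro n m h
    induction m, h using Nat.le_induction with
    | base => exact ⟨(Y n).2.isBlock, fun k => Submodule.subset_span ⟨k, rfl⟩⟩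
    | succ m _ ih => exact ih.trans (hYb m)
  choose g hg using fun (n : ℕ) (i : ℕ) =>
    N0_next (Y (n + 1)).2.isBlock ((Y n).1 i) ((Y n).2.isBlock.finite i)
  let j : ℕ → ℕ := fun n => Nat.rec 0 (fun n i => g n i) n
  have hj : ∀ n, j (n + 1) = g n (j n) := fun _ => rfl
  have hd : IsBlock b (fun n => (Y n).1 (j n)) := by
    refine ⟨fun k => (Y k).2.isBlock.ne_zero _, fun k => (Y k).2.isBlock.finite _, ?_⟩
    intro k m n hm hn
    have h1 := hg k (j k)
    rw [← hj] at h1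
    exact h1 m n hm hn
  refine ⟨fun n => (Y n).1 (j n), ⟨hd, fun k => (Y k).2.mem _⟩, fun n => ?_⟩
  refine hher n (Y (n + 1)).1 _ (Y (n + 1)).2.isBlock ⟨hd.shift (n + 1), fun k => ?_⟩ (hYR n)
  exact (hYm (n + 1) (k + (n + 1)) (Nat.le_add_left _ _)).mem _

end Pool.Agent.Lib.MP_a0554b_an.P
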