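import Mathlib
import Pool.Agent.Lib.MP_a0554b_an.P.Defs
import Pool.Agent.Lib.MP_a0554b_an.P.E0
import Pool.Agent.Lib.MP_a0554b_an.P.E1
import Pool.Agent.Lib.MP_a0554b_an.P.N0
import Pool.Agent.Lib.MP_a0554b_an.P.G4

set_option autoImplicit false

/-!
# Uniform mutual embedding of block sequences
-/

noncomputable section

namespace Pool.Agent.Lib.MP_a0554b_an.P

open Filter Topology Set
open scoped ENNReal
open Pool.Agent.Lib.MP_a0554b_an

universe u v w

variable {𝕜 : Type v} [RCLike 𝕜] {X : Type u} [NormedAddCommGroup X] [NormedSpace 𝕜 X]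

/-- PROOF. Suppose not: for every `M : ℕ` there are block sequences `y`, `y₀` such that no subsequence
of `y` is `M`-equivalent to a block sequence of `y₀`. Let
`R n y₀ := ∃ y, IsBlock b y ∧ ¬ ∃ w j, BlockOf b y₀ w ∧ StrictMono j ∧ Equi 𝕜 n w (y ∘ j)`.
`hher`: `BlockOf.trans`. `hext`: let `y'` be a block sequence of `b`, `τ : X ≃ closedSpan y'` (`hb`), `C` from
`transfer_equi` for `y'`; take `y`, `y₀` as above for a natural number `M ≥ (n + 1) * C` (or
`≥ n * C`), and `w₀`, `j₀` from `transfer_equi` for the block sequence `y₀`: `BlockOf b y' w₀`,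
`Equi C w₀ (y₀ ∘ j₀)`. `R n w₀`, with the same `y`: if `w` is a block sequence of `w₀` and `Equi n w (y ∘ j)`,
then by `exists_transport` (for `w₀` and `y₀ ∘ j₀`, `IsBlock.comp`) there is a block sequence `x` of
`y₀ ∘ j₀`, hence of `y₀`, with `Equi C w x`, so `Equi (C * n) x (y ∘ j)` (`Equi.symm`, `Equi.trans`,
`Equi.mono`): contradiction. `diagonal` for `y := b` gives a block sequence `d` with
`R n (d (· + (n + 1)))` for all `n`. Let `C` be the constant of `transfer_equi` for `d` (`hb`) and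
`n ≥ C`; `y` from `R n (d (· + (n + 1)))`; `transfer_equi` gives `BlockOf b d w`, `Equi C w (y ∘ j)`; then
`w (· + (n + 1))` is a block sequence of `d (· + (n + 1))` (`BlockOf.shift`) and
`Equi n (w (· + (n + 1))) (y ∘ j ∘ (· + (n + 1)))` (`Equi.comp`, `Equi.mono`): contradiction. -/
theorem exists_embed [CompleteSpace X] (b : SchauderBasis 𝕜 X) (hs : Shrinking b)
    (hb : BlockHomogeneous b) :
    ∃ M : ℝ, ∀ y y₀ : ℕ → X, IsBlock b y → IsBlock b y₀ → ∃ (w : ℕ → X) (j : ℕ → ℕ),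
      BlockOf b y₀ w ∧ StrictMono j ∧ Equi 𝕜 M w (fun k => y (j k)) := by
  by_contra hcon
  push Not at hcon
  have hbb : IsBlock b (fun n => b n) := by
    have hne : ∀ m k, b.coord m (b k) ≠ 0 → m = k := by
      intro m k h
      by_contra hmk
      apply h
      simp only [b.ortho, Pi.single_apply, hmk, if_false]
    refine ⟨fun k h0 => ?_, fun k => (Set.finite_singleton k).subset fun m hm => hne m k hm, ?_⟩
    · have h2 : b.basis k = 0 := h0
      have h1 : b.coord k (b.basis k) = 1 := by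
        simp only [b.ortho, Pi.single_apply, if_true]
      rw [h2, map_zero] at h1
      exact zero_ne_one h1
    · intro k m n hm hn
      have h1 := hne m k hm
      have h2 := hne n (k + 1) hn
      omega
  set R : ℕ → (ℕ → X) → Prop := fun n y₀ => ∃ y : ℕ → X, IsBlock b y ∧
    ∀ (w : ℕ → X) (j : ℕ → ℕ), BlockOf b y₀ w → StrictMono j →
      ¬ Equi 𝕜 n w (fun k => y (j k)) with hR
  have hher : ∀ n y' y'', IsBlock b y' → BlockOf b y' y'' → R n y' → R n y'' := by
    rintro n y' y'' _ h2 ⟨y, hy, h3⟩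
    exact ⟨y, hy, fun w j hw hj => h3 w j (h2.trans hw) hj⟩
  have hext : ∀ n y', BlockOf b (fun n => b n) y' → ∃ y'', BlockOf b y' y'' ∧ R n y'' := by
    intro n y' hy'
    obtain ⟨τ⟩ := hb y' hy'.isBlock
    obtain ⟨C, hC, hT⟩ := transfer_equi b hs y' hy'.isBlock τ.symm
    obtain ⟨y, y₀, hy, hy₀, hno⟩ := hcon (C * n)
    obtain ⟨w₀, j₀, hw₀, hj₀, he₀⟩ := hT y₀ hy₀
    refine ⟨w₀, hw₀, y, hy, fun w j hw hj he => ?_⟩
    have hsub : BlockOf b y₀ (fun k => y₀ (j₀ k)) :=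
      ⟨Pool.Agent.Lib.MP_a0554b_an.P.IsBlock.comp hy₀ hj₀, fun k => Submodule.subset_span ⟨j₀ k, rfl⟩⟩
    obtain ⟨x, hx, hxe⟩ := exists_transport hw₀.isBlock
      (Pool.Agent.Lib.MP_a0554b_an.P.IsBlock.comp hy₀ hj₀) he₀ hw
    exact hno x j (hsub.trans hx) hj (hxe.symm.trans hC (Nat.cast_nonneg n) he)
  obtain ⟨d, hd, hdR⟩ := diagonal b R (fun n => b n) hbb hext hher
  obtain ⟨τ⟩ := hb d hd.isBlock
  obtain ⟨C, hC, hT⟩ := transfer_equi b hs d hd.isBlock τ.symm
  obtain ⟨y, hy, hno⟩ := hdR ⌈C⌉₊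
  obtain ⟨w, j, hw, hj, he⟩ := hT y hy
  have hsm : StrictMono fun k : ℕ => k + (⌈C⌉₊ + 1) := fun a c h => by
    simpa using h
  refine hno (fun k => w (k + (⌈C⌉₊ + 1))) (fun k => j (k + (⌈C⌉₊ + 1)))
    (hw.shift hd.isBlock (⌈C⌉₊ + 1)) (hj.comp hsm) ?_
  exact (he.comp hsm).mono (Nat.le_ceil C)

end Pool.Agent.Lib.MP_a0554b_an.P
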