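import Mathlib
import Pool.Agent.Lib.MP_a0554b_an.P.Defs
import Pool.Agent.Lib.MP_a0554b_an.P.U1

set_option autoImplicit false

/-!
# Subsequences span complemented subspaces
-/

noncomputable section

namespace Pool.Agent.Lib.MP_a0554b_an.P

open Filter Topology Set
open scoped ENNReal
open Pool.Agent.Lib.MP_a0554b_an

universe u v w

variable {𝕜 : Type v} [RCLike 𝕜] {X : Type u} [NormedAddCommGroup X] [NormedSpace 𝕜 X]

/-- Supports of different block vectors are disjoint. -/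
theorem E3_disj {b : SchauderBasis 𝕜 X} {y : ℕ → X} (hy : IsBlock b y) {k l n : ℕ}
    (hk : b.coord n (y k) ≠ 0) (hl : b.coord n (y l) ≠ 0) : k = l := by
  obtain ⟨e, he⟩ := hy.exists_cut
  have h1 := he.supp k n hk
  have h2 := he.supp l n hl
  by_contra hne
  rcases Nat.lt_or_gt_of_ne hne with h | h
  · have h3 : e (k + 1) ≤ e l := he.mono.monotone h
    omega
  · have h3 : e (l + 1) ≤ e k := he.mono.monotone h
    omega

/-- PROOF. `K₁` from `exists_proj`. `I` = the union of the supports of the `y (j k)`, `P` from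
`exists_proj`: `P (y (j k)) = y (j k)` and `P (y m) = 0` for `m` not in the range of `j` (`ext_coord`; the
supports of the `y m` are disjoint). So `P` maps `closedSpan y` into `closedSpan (y ∘ j)` and is the
identity on `closedSpan (y ∘ j)` (linearity, continuity, closed subspaces). If
`σ : closedSpan (y ∘ j) ≃ X` has constant `C`, then `A = σ⁻¹` (with values in
`closedSpan (y ∘ j) ≤ closedSpan y`) and `B = σ ∘ P`. `K = K₁ * C` works (`C ≥ 0`, `K₁ ≥ 1`). -/
theorem fac_of_subseq [CompleteSpace X] (b : SchauderBasis 𝕜 X) (hu : Unconditional b) {C : ℝ}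
    (hC : 0 ≤ C) :
    ∃ K : ℝ, 0 ≤ K ∧ ∀ (y : ℕ → X) (j : ℕ → ℕ), IsBlock b y → StrictMono j →
      IsoB 𝕜 C (closedSpan 𝕜 (fun k => y (j k))) X → Fac K (closedSpan 𝕜 y) (closedSpan 𝕜 y) := by
  obtain ⟨K₁, hK₁, hP⟩ := exists_proj b hu
  refine ⟨K₁ * C, by positivity, ?_⟩
  rintro y j hy hj ⟨σ, hσ1, hσ2⟩
  set I : Set ℕ := {n | ∃ k, b.coord n (y (j k)) ≠ 0} with hI
  obtain ⟨P, hP1, hP2, hP3⟩ := hP I
  have e1 : ∀ k, P (y (j k)) = y (j k) := by
    intro k
    refine ext_coord b fun n => ?_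
    by_cases hn : n ∈ I
    · exact hP1 _ n hn
    · rw [hP2 _ n hn]
      by_contra h
      exact hn ⟨k, fun h0 => h h0.symm⟩
  have e2 : ∀ m, m ∉ Set.range j → P (y m) = 0 := by
    intro m hm
    refine ext_coord b fun n => ?_
    rw [map_zero]
    by_cases hn : n ∈ I
    · rw [hP1 _ n hn]
      obtain ⟨k, hk⟩ := hn
      by_contra h
      exact hm ⟨k, E3_disj hy hk h⟩
    · exact hP2 _ n hn
  have hsub : closedSpan 𝕜 (fun k => y (j k)) ≤ closedSpan 𝕜 y := by
    rw [closedSpan_eq_cs, closedSpan_eq_cs]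
    refine cs_mono ?_
    rintro _ ⟨k, rfl⟩
    exact ⟨j k, rfl⟩
  have m1 : ∀ x ∈ closedSpan 𝕜 y, P x ∈ closedSpan 𝕜 (fun k => y (j k)) := by
    have hc : IsClosed (((closedSpan 𝕜 (fun k => y (j k))).comap (P : X →ₗ[𝕜] X) :
        Submodule 𝕜 X) : Set X) :=
      (closedSpan_isClosed _).preimage P.continuous
    have h1 : closedSpan 𝕜 y ≤ (closedSpan 𝕜 (fun k => y (j k))).comap (P : X →ₗ[𝕜] X) := by
      rw [closedSpan_eq_cs y]
      refine cs_le hc ?_
      rintro _ ⟨m, rfl⟩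
      change P (y m) ∈ closedSpan 𝕜 (fun k => y (j k))
      by_cases hm : m ∈ Set.range j
      · obtain ⟨k, rfl⟩ := hm
        rw [e1, closedSpan_eq_cs]
        exact subset_cs _ ⟨k, rfl⟩
      · rw [e2 m hm]
        exact Submodule.zero_mem _
    exact fun x hx => h1 hx
  have m2 : ∀ x ∈ closedSpan 𝕜 (fun k => y (j k)), P x = x := by
    have hc : IsClosed ((LinearMap.ker ((P - ContinuousLinearMap.id 𝕜 X : X →L[𝕜] X) :
        X →ₗ[𝕜] X) : Submodule 𝕜 X) : Set X) :=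
      ContinuousLinearMap.isClosed_ker (P - ContinuousLinearMap.id 𝕜 X)
    have h1 : closedSpan 𝕜 (fun k => y (j k)) ≤
        LinearMap.ker ((P - ContinuousLinearMap.id 𝕜 X : X →L[𝕜] X) : X →ₗ[𝕜] X) := by
      rw [closedSpan_eq_cs]
      refine cs_le hc ?_
      rintro _ ⟨k, rfl⟩
      change P (y (j k)) - y (j k) = 0
      rw [e1, sub_self]
    intro x hx
    have h2 : P x - x = 0 := h1 hx
    exact sub_eq_zero.1 h2
  have hKC : C ≤ K₁ * C := by nlinarith
  refine ⟨((closedSpan 𝕜 (fun k => y (j k))).subtypeL ∘L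
      (σ.symm : X →L[𝕜] closedSpan 𝕜 (fun k => y (j k)))).codRestrict (closedSpan 𝕜 y)
      (fun x => hsub (σ.symm x).2),
    (σ : closedSpan 𝕜 (fun k => y (j k)) →L[𝕜] X) ∘L
      (P ∘L (closedSpan 𝕜 y).subtypeL).codRestrict (closedSpan 𝕜 (fun k => y (j k)))
        (fun x => m1 x x.2), fun x => ?_, fun x => Subtype.prop _, fun x => ?_, fun x => ?_⟩
  · have h1 : (⟨P (σ.symm x : X), m1 _ (hsub (σ.symm x).2)⟩ :
        closedSpan 𝕜 (fun k => y (j k))) = σ.symm x :=
      Subtype.ext (m2 _ (σ.symm x).2)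
    change σ ⟨P (σ.symm x : X), m1 _ (hsub (σ.symm x).2)⟩ = x
    rw [h1, σ.apply_symm_apply]
  · change ‖σ.symm x‖ ≤ _
    exact (hσ2 x).trans (mul_le_mul_of_nonneg_right hKC (norm_nonneg _))
  · change ‖σ ⟨P (x : X), m1 _ x.2⟩‖ ≤ _
    refine (hσ1 _).trans ?_
    change C * ‖P (x : X)‖ ≤ K₁ * C * ‖(x : X)‖
    have h1 := mul_le_mul_of_nonneg_left (hP3 (x : X)) hC
    linarith

end Pool.Agent.Lib.MP_a0554b_an.P
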