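import Mathlib
import Pool.Agent.Lib.MP_a0554b_an.P.Defs
import Pool.Agent.Lib.MP_a0554b_an.P.G3a
set_option autoImplicit false

/-!
# Transfer of factorizations from blocks of `y₀` to blocks of `b`
-/

noncomputable section

namespace Pool.Agent.Lib.MP_a0554b_an.P

open Filter Topology Set
open scoped ENNReal
open Pool.Agent.Lib.MP_a0554b_an

universe u v w

variable {𝕜 : Type v} [RCLike 𝕜] {X : Type u} [NormedAddCommGroup X] [NormedSpace 𝕜 X]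

/-- PROOF. `w`, `j`, `J`, `V` from `transfer_core`, `M = max ‖τ‖ ‖τ⁻¹‖`. Let `A`, `B` be the
operators of `Fac K (closedSpan w) (closedSpan y₀)`. `A' x = τ⁻¹ (J (A x))`: `J (A x) ∈ closedSpan y₀`, and
`A' x ∈ closedSpan y`: the map `τ⁻¹ ∘ J` maps `w k` to `y (j k)`, hence (continuity, linearity) maps
`closedSpan w` into `closedSpan y`. `B' x = B (V (τ x))` (`V (τ x) ∈ closedSpan y₀`).
`B' (A' x) = B (V (J (A x))) = B (A x) = x`. Bounds: `2 * M * K` for both. So `C = 2 * M`. -/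
theorem transfer [CompleteSpace X] (b : SchauderBasis 𝕜 X) (hs : Shrinking b) (y₀ : ℕ → X)
    (hy₀ : IsBlock b y₀) (τ : X ≃L[𝕜] closedSpan 𝕜 y₀) :
    ∃ C : ℝ, 0 ≤ C ∧ ∀ y : ℕ → X, IsBlock b y → ∃ w : ℕ → X, IsBlock b w ∧
      (∀ k, w k ∈ Submodule.span 𝕜 (Set.range y₀)) ∧
      ∀ K : ℝ, 0 ≤ K → Fac K (closedSpan 𝕜 w) (closedSpan 𝕜 y₀) →
        FacX (C * K) (closedSpan 𝕜 y) := by
  set M : ℝ := max (max ‖(τ.symm : closedSpan 𝕜 y₀ →L[𝕜] X)‖ ‖(τ : X →L[𝕜] closedSpan 𝕜 y₀)‖) 1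
    with hM
  have hM0 : 0 < M := lt_of_lt_of_le one_pos (le_max_right _ _)
  have hτs : ∀ z, ‖τ.symm z‖ ≤ M * ‖z‖ := fun z =>
    ((τ.symm : closedSpan 𝕜 y₀ →L[𝕜] X).le_opNorm z).trans
      (mul_le_mul_of_nonneg_right ((le_max_left _ _).trans (le_max_left _ _)) (norm_nonneg _))
  have hτ : ∀ z, ‖τ z‖ ≤ M * ‖z‖ := fun z =>
    ((τ : X →L[𝕜] closedSpan 𝕜 y₀).le_opNorm z).trans
      (mul_le_mul_of_nonneg_right ((le_max_right _ _).trans (le_max_left _ _)) (norm_nonneg _))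
  refine ⟨2 * M, by positivity, fun y hy => ?_⟩
  obtain ⟨w, j, J, V, hw, hj, hVJ, hJV, hJ, hV, hJm, hVm, hJw⟩ :=
    transfer_core b hs y₀ hy₀ τ y hy
  refine ⟨w, hw.isBlock, hw.mem, fun K hK hFac => ?_⟩
  obtain ⟨A, B, hBA, hAm, hA, hB⟩ := hFac
  set JN : closedSpan 𝕜 y₀ →L[𝕜] closedSpan 𝕜 y₀ :=
    (J ∘L (closedSpan 𝕜 y₀).subtypeL).codRestrict _ (fun x => hJm x.1 x.2) with hJN
  set VN : closedSpan 𝕜 y₀ →L[𝕜] closedSpan 𝕜 y₀ :=
    (V ∘L (closedSpan 𝕜 y₀).subtypeL).codRestrict _ (fun x => hVm x.1 x.2) with hVN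
  have hJNx : ∀ x : closedSpan 𝕜 y₀, (JN x : X) = J (x : X) := fun x => rfl
  have hVNx : ∀ x : closedSpan 𝕜 y₀, (VN x : X) = V (x : X) := fun x => rfl
  have hNc : IsClosed (closedSpan 𝕜 y₀ : Set X) := closedSpan_isClosed y₀
  set T : closedSpan 𝕜 y₀ →L[𝕜] X := (τ.symm : closedSpan 𝕜 y₀ →L[𝕜] X) ∘L JN with hT
  have hTx : ∀ x : closedSpan 𝕜 y₀, T x = τ.symm (JN x) := fun x => rfl
  -- `T` maps the closed span of `w` to the closed span of `y`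
  have hTm : ∀ z : closedSpan 𝕜 y₀, (z : X) ∈ closedSpan 𝕜 w → T z ∈ closedSpan 𝕜 y := by
    set S : Submodule 𝕜 (closedSpan 𝕜 y₀) := (closedSpan 𝕜 y).comap (T : closedSpan 𝕜 y₀ →ₗ[𝕜] X) with hS
    have hSc : IsClosed (S : Set (closedSpan 𝕜 y₀)) := (closedSpan_isClosed y).preimage T.continuous
    have hMc : IsClosed ((S.map (closedSpan 𝕜 y₀).subtype : Submodule 𝕜 X) : Set X) := by
      rw [Submodule.map_coe]
      exact (hNc.isClosedEmbedding_subtypeVal).isClosedMap _ hSc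
    have hle : closedSpan 𝕜 w ≤ S.map (closedSpan 𝕜 y₀).subtype := by
      refine cs_le hMc ?_
      rintro _ ⟨k, rfl⟩
      have hk : w k ∈ closedSpan 𝕜 y₀ := (Submodule.span 𝕜 (Set.range y₀)).le_topologicalClosure (hw.mem k)
      refine ⟨⟨w k, hk⟩, ?_, rfl⟩
      change T ⟨w k, hk⟩ ∈ closedSpan 𝕜 y
      have h1 : JN ⟨w k, hk⟩ = τ (y (j k)) := by
        apply Subtype.ext
        rw [hJNx]
        exact hJw k
      rw [hTx, h1, τ.symm_apply_apply]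
      exact (Submodule.span 𝕜 (Set.range y)).le_topologicalClosure
        (Submodule.subset_span ⟨j k, rfl⟩)
    intro z hz
    obtain ⟨z', hz', h⟩ := hle hz
    have h1 : z' = z := Subtype.ext h
    rw [← h1]
    exact hz'
  refine ⟨T ∘L A, B ∘L VN ∘L (τ : X →L[𝕜] closedSpan 𝕜 y₀), fun x => ?_, fun x => hTm _ (hAm x), fun x => ?_,
    fun x => ?_⟩
  · change B (VN (τ (τ.symm (JN (A x))))) = x
    rw [τ.apply_symm_apply]
    have h1 : VN (JN (A x)) = A x := by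
      apply Subtype.ext
      rw [hVNx, hJNx, hVJ]
    rw [h1, hBA]
  · change ‖τ.symm (JN (A x))‖ ≤ _
    have h1 := hτs (JN (A x))
    have h2 : ‖JN (A x)‖ ≤ 2 * ‖A x‖ := hJ (A x : X)
    have h3 := hA x
    calc ‖τ.symm (JN (A x))‖ ≤ M * ‖JN (A x)‖ := h1
      _ ≤ M * (2 * (K * ‖x‖)) := by
        refine mul_le_mul_of_nonneg_left (h2.trans ?_) hM0.le
        linarith
      _ = _ := by ring
  · change ‖B (VN (τ x))‖ ≤ _
    have h1 := hB (VN (τ x))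
    have h2 : ‖VN (τ x)‖ ≤ 2 * ‖τ x‖ := hV (τ x : X)
    have h3 := hτ x
    calc ‖B (VN (τ x))‖ ≤ K * ‖VN (τ x)‖ := h1
      _ ≤ K * (2 * (M * ‖x‖)) := by
        refine mul_le_mul_of_nonneg_left (h2.trans ?_) hK
        linarith
      _ = _ := by ring

end Pool.Agent.Lib.MP_a0554b_an.P
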