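import Mathlib
import Pool.Agent.Lib.MP_a0554b_an.P.Defs
import Pool.Agent.Lib.MP_a0554b_an.P.U1
import Pool.Agent.Lib.MP_a0554b_an.A4
set_option autoImplicit false

/-!
# James: an unconditional basis which is not boundedly complete
-/

noncomputable section

namespace Pool.Agent.Lib.MP_a0554b_an.P

open Filter Topology Set
open scoped ENNReal
open Pool.Agent.Lib.MP_a0554b_an

universe u v w

variable {𝕜 : Type v} [RCLike 𝕜] {X : Type u} [NormedAddCommGroup X] [NormedSpace 𝕜 X]

theorem J1_coord (b : SchauderBasis 𝕜 X) (a : ℕ → 𝕜) (s : Finset ℕ) (i : ℕ) :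
    b.coord i (∑ j ∈ s, a j • b j) = if i ∈ s then a i else 0 := by
  classical
  rw [map_sum]
  simp only [map_smul, b.ortho, smul_eq_mul, Pi.single_apply, mul_ite, mul_one, mul_zero,
    Finset.sum_ite_eq]

/-- far blocks -/
theorem J1_blocks (b : SchauderBasis 𝕜 X) [CompleteSpace X] (h : ¬ BoundedlyComplete b) :
    ∃ (a : ℕ → 𝕜) (M δ : ℝ) (P Q : ℕ → ℕ), 0 < δ ∧
      (∀ n, ‖∑ i ∈ Finset.range n, a i • b i‖ ≤ M) ∧
      (∀ N, N ≤ P N) ∧ (∀ N, P N < Q N) ∧
      ∀ N, δ ≤ ‖∑ i ∈ Finset.Ico (P N) (Q N), a i • b i‖ := by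
  unfold BoundedlyComplete at h
  push Not at h
  obtain ⟨a, ⟨M, hM⟩, hlim⟩ := h
  have h1 : ¬ CauchySeq (fun n => ∑ i ∈ Finset.range n, a i • b i) := by
    intro hc
    obtain ⟨x, hx⟩ := cauchySeq_tendsto_of_complete hc
    exact hlim x hx
  rw [Metric.cauchySeq_iff'] at h1
  push Not at h1
  obtain ⟨δ, hδ, h2⟩ := h1
  choose q hq1 hq2 using h2
  refine ⟨a, M, δ, fun N => N, q, hδ, hM, fun N => le_rfl, fun N => ?_, fun N => ?_⟩
  · refine lt_of_le_of_ne (hq1 N) fun h3 => ?_
    have h4 := hq2 N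
    rw [← h3, dist_self] at h4
    linarith
  · have h4 := hq2 N
    rw [dist_eq_norm, ← Finset.sum_Ico_eq_sub _ (hq1 N)] at h4
    exact h4

/-- PROOF. `K` from `exists_mult`. There are scalars `a` with `‖∑ i < n, a i • b i‖ ≤ M` for all `n`
and the sums not convergent, hence not Cauchy: there are `δ > 0` and `p 0 < q 0 ≤ p 1 < q 1 ≤ ...` with
`‖x k‖ ≥ δ`, `x k = ∑ i ∈ Ico (p k) (q k), a i • b i`. For `z : S 𝕜 ∞ 𝕜` and finite `F`,
`∑ k ∈ F, ev k z • x k` is a multiplier (values `ev k z` on `Ico (p k) (q k)`, `k ∈ F`, zero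
elsewhere, divided by `R = max ‖ev k z‖`) applied to a sum `∑ i < n, a i • b i`, so its norm is at
most `K * M * max_{k ∈ F} ‖ev k z‖`. Since `ev k z → 0`, the series converges
(`summable_iff_vanishing_norm`) to `T z`, `‖T z‖ ≤ K * M * ‖z‖`. Lower bound: the multiplier
equal to `1` on `Ico (p k) (q k)` and `0` elsewhere maps `T z` to `ev k z • x k`, so
`δ * ‖ev k z‖ ≤ K * ‖T z‖`, and `‖z‖ = sup ‖ev k z‖`. -/
theorem contains_c0 [CompleteSpace X] (b : SchauderBasis 𝕜 X) (hu : Unconditional b)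
    (h : ¬ BoundedlyComplete b) : Contains 𝕜 (S 𝕜 ∞ 𝕜) X := by
  classical
  obtain ⟨L, hL1, hL⟩ := exists_mult b hu
  have hL0 : 0 < L := by linarith
  obtain ⟨a, M, δ, P0, Q0, hδ, hM, hP0, hPQ0, hbig⟩ := J1_blocks b h
  have hM0 : 0 ≤ M := (norm_nonneg _).trans (hM 0)
  let n : ℕ → ℕ := fun j => Nat.rec 0 (fun _ m => Q0 m) j
  have hn0 : n 0 = 0 := rfl
  have hns : ∀ j, n (j + 1) = Q0 (n j) := fun j => rfl
  have hmono : StrictMono n := strictMono_nat_of_lt_succ fun j => by
    rw [hns]; exact (hP0 _).trans_lt (hPQ0 _)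
  obtain ⟨P, hP⟩ : ∃ P : ℕ → ℕ, ∀ k, P k = P0 (n k) := ⟨_, fun k => rfl⟩
  obtain ⟨x, hx⟩ : ∃ x : ℕ → X, ∀ k, x k = ∑ i ∈ Finset.Ico (P k) (n (k + 1)), a i • b i :=
    ⟨_, fun k => rfl⟩
  have hxbig : ∀ k, δ ≤ ‖x k‖ := by
    intro k
    rw [hx, hP, hns]
    exact hbig _
  have hPn : ∀ k, n k ≤ P k := fun k => by rw [hP]; exact hP0 _
  have hcut : ∀ i, ∃ j, n j ≤ i ∧ i < n (j + 1) := by
    intro i
    have h1 : ∃ j, i < n (j + 1) := ⟨i, lt_of_lt_of_le (Nat.lt_succ_self i) hmono.le_apply⟩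
    refine ⟨Nat.find h1, ?_, Nat.find_spec h1⟩
    rcases Nat.eq_zero_or_pos (Nat.find h1) with h2 | h2
    · rw [h2, hn0]; exact Nat.zero_le _
    · have h3 := Nat.find_min h1 (m := Nat.find h1 - 1) (by omega)
      rw [Nat.sub_add_cancel h2] at h3
      exact not_lt.1 h3
  choose g hg1 hg2 using hcut
  have hguniq : ∀ i j, n j ≤ i → i < n (j + 1) → g i = j := by
    intro i j h1 h2
    have h3 := hg1 i
    have h4 := hg2 i
    by_contra hne
    rcases Nat.lt_or_gt_of_ne hne with h5 | h5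
    · have h6 : n (g i + 1) ≤ n j := hmono.monotone h5
      omega
    · have h6 : n (j + 1) ≤ n (g i) := hmono.monotone h5
      omega
  -- coordinates of `x k`
  have hxc : ∀ k i, b.coord i (x k) = if g i = k ∧ P k ≤ i then a i else 0 := by
    intro k i
    rw [hx, J1_coord]
    rcases Classical.em (g i = k ∧ P k ≤ i) with h1 | h1
    · have h2 : i ∈ Finset.Ico (P k) (n (k + 1)) := by
        rw [Finset.mem_Ico]
        exact ⟨h1.2, by rw [← h1.1]; exact hg2 i⟩
      rw [if_pos h1, if_pos h2]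
    · have h2 : i ∉ Finset.Ico (P k) (n (k + 1)) := by
        rw [Finset.mem_Ico]
        rintro ⟨h3, h4⟩
        exact h1 ⟨hguniq i k ((hPn k).trans h3) h4, h3⟩
      rw [if_neg h1, if_neg h2]
  -- upper estimate
  have key : ∀ (z : ℕ → 𝕜) (F : Finset ℕ) (R : ℝ), 0 ≤ R → (∀ k ∈ F, ‖z k‖ ≤ R) →
      ‖∑ k ∈ F, z k • x k‖ ≤ L * M * R := by
    intro z F R hR hz
    rcases hR.eq_or_lt with hR0 | hR0
    · have h1 : ∑ k ∈ F, z k • x k = 0 := by
        refine Finset.sum_eq_zero fun k hk => ?_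
        have h2 : ‖z k‖ ≤ 0 := by rw [hR0]; exact hz k hk
        rw [norm_le_zero_iff.1 h2, zero_smul]
      rw [h1, norm_zero, ← hR0, mul_zero]
    · obtain ⟨m, hm⟩ : ∃ m, ∀ k ∈ F, n (k + 1) ≤ m := by
        refine ⟨n (F.sup id + 1), fun k hk => ?_⟩
        have h1 : k ≤ F.sup id := Finset.le_sup (f := id) hk
        have h2 : k + 1 ≤ F.sup id + 1 := Nat.succ_le_succ h1
        exact hmono.monotone h2
      obtain ⟨T, hT1, hT2⟩ := hL
        (fun i => if g i ∈ F ∧ P (g i) ≤ i then z (g i) * ((R⁻¹ : ℝ) : 𝕜) else 0) (fun i => by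
          split_ifs with h1
          · rw [norm_mul, RCLike.norm_ofReal, abs_of_pos (inv_pos.2 hR0), ← div_eq_mul_inv,
              div_le_one hR0]
            exact hz _ h1.1
          · rw [norm_zero]; exact zero_le_one)
      have h1 : ∑ k ∈ F, z k • x k =
          ((R : ℝ) : 𝕜) • T (∑ i ∈ Finset.range m, a i • b i) := by
        refine ext_coord b fun i => ?_
        rw [map_sum, map_smul, smul_eq_mul, hT1, J1_coord]
        simp only [map_smul, smul_eq_mul, hxc]
        rcases Classical.em (g i ∈ F ∧ P (g i) ≤ i) with h2 | h2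
        · have h3 : i ∈ Finset.range m := by
            rw [Finset.mem_range]
            exact (hg2 i).trans_le (hm _ h2.1)
          rw [if_pos h2, if_pos h3, Finset.sum_eq_single (g i)]
          · rw [if_pos ⟨rfl, h2.2⟩]
            have h4 : ((R : ℝ) : 𝕜) * ((R⁻¹ : ℝ) : 𝕜) = 1 := by
              rw [← RCLike.ofReal_mul, mul_inv_cancel₀ hR0.ne', RCLike.ofReal_one]
            calc z (g i) * a i = (((R : ℝ) : 𝕜) * ((R⁻¹ : ℝ) : 𝕜)) * (z (g i) * a i) := by
                  rw [h4, one_mul]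
              _ = ((R : ℝ) : 𝕜) * (z (g i) * ((R⁻¹ : ℝ) : 𝕜) * a i) := by ring
          · intro k _ hk
            rw [if_neg (fun h5 => hk h5.1.symm), mul_zero]
          · intro h5
            exact absurd h2.1 h5
        · rw [if_neg h2, zero_mul, mul_zero]
          refine Finset.sum_eq_zero fun k hk => ?_
          rw [if_neg (fun h5 => h2 ⟨by rw [h5.1]; exact hk, by rw [h5.1]; exact h5.2⟩), mul_zero]
      rw [h1, norm_smul, RCLike.norm_ofReal, abs_of_pos hR0]
      calc R * ‖T (∑ i ∈ Finset.range m, a i • b i)‖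
          ≤ R * (L * M) := by
            refine mul_le_mul_of_nonneg_left ?_ hR
            exact (hT2 _).trans (mul_le_mul_of_nonneg_left (hM m) hL0.le)
        _ = L * M * R := by ring
  have hsum : ∀ z : S 𝕜 ∞ 𝕜, Summable (fun k => ev k z • x k) := by
    intro z
    rw [summable_iff_vanishing_norm]
    intro ε hε
    have h1 : 0 < ε / (L * M + 1) := by positivity
    have h2 := (tendsto_zero_iff_norm_tendsto_zero.1 (tendsto_ev z)).eventually (gt_mem_nhds h1)
    rw [eventually_atTop] at h2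
    obtain ⟨m, hm⟩ := h2
    refine ⟨Finset.range m, fun t ht => ?_⟩
    have h3 := key (fun k => ev k z) t (ε / (L * M + 1)) h1.le (fun k hk => by
      refine (hm k ?_).le
      by_contra h4
      exact (Finset.disjoint_left.1 ht hk) (Finset.mem_range.2 (not_le.1 h4)))
    refine h3.trans_lt ?_
    rw [mul_div_assoc', div_lt_iff₀ (by positivity)]
    nlinarith
  have hbd : ∀ z : S 𝕜 ∞ 𝕜, ‖∑' k, ev k z • x k‖ ≤ L * M * ‖z‖ := by
    intro z
    refine le_of_tendsto (hsum z).hasSum.norm (Eventually.of_forall fun F => ?_)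
    exact key _ F ‖z‖ (norm_nonneg z) (fun k _ => norm_ev_le k z)
  refine ⟨LinearMap.mkContinuous
    { toFun := fun z => ∑' k, ev k z • x k
      map_add' := fun y z => ?_
      map_smul' := fun c z => ?_ } (L * M) hbd, δ / L, by positivity, fun z => ?_⟩
  · refine HasSum.unique (hsum (y + z)).hasSum ?_
    refine ((hsum y).hasSum.add (hsum z).hasSum).congr_fun fun k => ?_
    simp only [map_add, add_smul]
  · refine HasSum.unique (hsum (c • z)).hasSum ?_
    refine ((hsum z).hasSum.const_smul c).congr_fun fun k => ?_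
    simp only [map_smul, smul_eq_mul, mul_smul]
  · change δ / L * ‖z‖ ≤ ‖∑' k, ev k z • x k‖
    set w : X := ∑' k, ev k z • x k with hw
    have h1 : ∀ k, δ * ‖ev k z‖ ≤ L * ‖w‖ := by
      intro k
      obtain ⟨T, hT1, hT2⟩ := hL (fun i => if g i = k then 1 else 0) (fun i => by
        split_ifs
        · rw [norm_one]
        · rw [norm_zero]; exact zero_le_one)
      have h2 : ∀ j, T (x j) = if j = k then x j else 0 := by
        intro j
        refine ext_coord b fun i => ?_
        rw [hT1]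
        rcases Classical.em (j = k) with h3 | h3
        · rw [if_pos h3, hxc]
          rcases Classical.em (g i = j ∧ P j ≤ i) with h4 | h4
          · rw [if_pos h4, if_pos (h4.1.trans h3), one_mul]
          · rw [if_neg h4, mul_zero]
        · rw [if_neg h3, map_zero, hxc]
          rcases Classical.em (g i = j ∧ P j ≤ i) with h4 | h4
          · rw [if_neg (fun h5 => h3 (h4.1.symm.trans h5)), zero_mul]
          · rw [if_neg h4, mul_zero]
      have h3 : HasSum (fun j => T (ev j z • x j)) (T w) := (hsum z).hasSum.mapL T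
      have h4 : HasSum (fun j => T (ev j z • x j)) (ev k z • x k) := by
        have h5 : ∀ j, j ≠ k → T (ev j z • x j) = 0 := by
          intro j hj
          rw [map_smul, h2, if_neg hj, smul_zero]
        have h6 := hasSum_single k h5
        rwa [map_smul, h2, if_pos rfl] at h6
      have h7 : T w = ev k z • x k := h3.unique h4
      calc δ * ‖ev k z‖ ≤ ‖x k‖ * ‖ev k z‖ :=
            mul_le_mul_of_nonneg_right (hxbig k) (norm_nonneg _)
        _ = ‖T w‖ := by rw [h7, norm_smul, mul_comm]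
        _ ≤ L * ‖w‖ := hT2 w
    have h2 : ‖z‖ ≤ L / δ * ‖w‖ := by
      refine lp.norm_le_of_forall_le (by positivity) fun k => ?_
      have h3 := h1 k
      change ‖ev k z‖ ≤ _
      rw [div_mul_eq_mul_div, le_div_iff₀ hδ]
      linarith
    calc δ / L * ‖z‖ ≤ δ / L * (L / δ * ‖w‖) := mul_le_mul_of_nonneg_left h2 (by positivity)
      _ = ‖w‖ := by field_simp

end Pool.Agent.Lib.MP_a0554b_an.P
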