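import Mathlib
import Pool.Agent.Lib.MP_a0554b_an.P.Defs
import Pool.Agent.Lib.MP_a0554b_an.P.U1
import Pool.Agent.Lib.MP_a0554b_an.L5a
set_option autoImplicit false

/-!
# James: an unconditional basis which is not shrinking
-/

noncomputable section

namespace Pool.Agent.Lib.MP_a0554b_an.P

open Filter Topology Set
open scoped ENNReal
open Pool.Agent.Lib.MP_a0554b_an

universe u v w

variable {𝕜 : Type v} [RCLike 𝕜] {X : Type u} [NormedAddCommGroup X] [NormedSpace 𝕜 X]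

theorem J2_coord_proj (b : SchauderBasis 𝕜 X) (i n : ℕ) (x : X) :
    b.coord i (b.proj n x) = if i < n then b.coord i x else 0 := by
  rw [SchauderBasis.proj_apply, map_sum]
  simp only [map_smul, b.ortho, smul_eq_mul, Pi.single_apply, mul_ite, mul_one, mul_zero,
    Finset.sum_ite_eq, Finset.mem_range]

/-- the recursive choice -/
theorem J2_step (b : SchauderBasis 𝕜 X) (f : X →L[𝕜] 𝕜) {η : ℝ} (hη : 0 < η)
    (h : ∀ n, η ≤ ‖f ∘L (ContinuousLinearMap.id 𝕜 X - b.proj n)‖) (n : ℕ) :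
    ∃ (z : X) (n' : ℕ), n < n' ∧ ‖z‖ ≤ 1 ∧ η / 4 ≤ ‖f (b.proj n' z - b.proj n z)‖ := by
  have h1 : η / 2 < ‖f ∘L (ContinuousLinearMap.id 𝕜 X - b.proj n)‖ :=
    lt_of_lt_of_le (half_lt_self hη) (h n)
  obtain ⟨z, hz, hz2⟩ := ContinuousLinearMap.exists_lt_apply_of_lt_opNorm _ h1
  have h2 : Tendsto (fun m => ‖f (b.proj m z - b.proj n z)‖) atTop
      (𝓝 ‖f (z - b.proj n z)‖) := by
    refine Tendsto.norm ((f.continuous.tendsto _).comp ?_)
    exact (SchauderBasis.tendsto_proj b z).sub_const _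
  have h3 : η / 4 < ‖f (z - b.proj n z)‖ := by
    have : (f ∘L (ContinuousLinearMap.id 𝕜 X - b.proj n)) z = f (z - b.proj n z) := rfl
    rw [this] at hz2
    linarith
  have h4 := (h2.eventually (lt_mem_nhds h3)).and (eventually_gt_atTop n)
  obtain ⟨n', h5, h6⟩ := h4.exists
  exact ⟨z, n', h6, hz.le, h5.le⟩

/-- a scalar of modulus one which makes `a` real and nonnegative -/
theorem J2_phase (a : 𝕜) : ∃ u : 𝕜, ‖u‖ ≤ 1 ∧ u * a = ((‖a‖ : ℝ) : 𝕜) := by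
  by_cases ha : a = 0
  · exact ⟨1, by simp, by simp [ha]⟩
  · have hn : ‖a‖ ≠ 0 := norm_ne_zero_iff.2 ha
    refine ⟨(starRingEnd 𝕜) a * ((‖a‖⁻¹ : ℝ) : 𝕜), ?_, ?_⟩
    · rw [norm_mul, RCLike.norm_conj, RCLike.norm_ofReal, abs_of_nonneg (by positivity),
        mul_inv_cancel₀ hn]
    · have h1 : (starRingEnd 𝕜) a * a = ((‖a‖ ^ 2 : ℝ) : 𝕜) := by
        rw [RCLike.conj_mul]; norm_cast
      calc (starRingEnd 𝕜) a * ((‖a‖⁻¹ : ℝ) : 𝕜) * a
          = ((starRingEnd 𝕜) a * a) * ((‖a‖⁻¹ : ℝ) : 𝕜) := by ring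
        _ = ((‖a‖ : ℝ) : 𝕜) := by
          rw [h1, ← RCLike.ofReal_mul]
          congr 1
          rw [sq, mul_assoc, mul_inv_cancel₀ hn, mul_one]

/-- PROOF. `K` from `exists_mult`, `‖b.proj n x‖ ≤ K₁ * ‖x‖`, `K₁ ≥ 1`. Let `f` be a functional for
which `‖f ∘ (1 - b.proj n)‖` does not tend to zero. For `n ≤ n'`,
`f ∘ (1 - b.proj n') = f ∘ (1 - b.proj n) ∘ (1 - b.proj n')`, so
`‖f ∘ (1 - b.proj n')‖ ≤ (1 + K₁) * ‖f ∘ (1 - b.proj n)‖`, hence there is `η > 0` with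
`‖f ∘ (1 - b.proj n)‖ ≥ η` for all `n`. As in `D2_step` (file D2) choose `n 0 = 0 < n 1 < ...` and
`z k` with `‖z k‖ ≤ 1`, `‖f (x k)‖ ≥ η / 4` for
`x k = b.proj (n (k + 1)) (z k) - b.proj (n k) (z k)`, `‖x k‖ ≤ 2 * K₁`; multiplying by a scalar of
modulus one we may assume that `f (x k)` is real, `≥ η / 4`. `T` from `exists_T` (file L5a):
`T z = ∑ ev k z • x k`, `‖T z‖ ≤ 2 * K₁ * ‖z‖`. Lower bound: the multiplier with values
`conj (ev k z) / ‖ev k z‖` (or `0`) on `Ico (n k) (n (k + 1))` maps `T z` to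
`∑ ‖ev k z‖ • x k`; applying `f`: `(η / 4) * ‖z‖ ≤ ∑ ‖ev k z‖ * f (x k) ≤ ‖f‖ * K * ‖T z‖`
(`hasSum_norm_ev` in L2a). -/
theorem contains_l1 [CompleteSpace X] (b : SchauderBasis 𝕜 X) (hu : Unconditional b)
    (h : ¬ Shrinking b) : Contains 𝕜 (S 𝕜 1 𝕜) X := by
  obtain ⟨L, hL1, hL⟩ := exists_mult b hu
  obtain ⟨K, hK⟩ := SchauderBasis.exists_norm_proj_le b
  have hK0 : 0 ≤ K := (ContinuousLinearMap.opNorm_nonneg _).trans (hK 0)
  unfold Shrinking at h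
  push Not at h
  obtain ⟨f, hcon⟩ := h
  have hη : ∃ η : ℝ, 0 < η ∧
      ∀ n, η ≤ ‖f ∘L (ContinuousLinearMap.id 𝕜 X - b.proj n)‖ := by
    rw [Metric.tendsto_atTop] at hcon
    push Not at hcon
    obtain ⟨ε, hε, h1⟩ := hcon
    refine ⟨ε / (1 + K), by positivity, fun n => ?_⟩
    obtain ⟨n', hn', h2⟩ := h1 n
    rw [dist_zero_right, Real.norm_eq_abs,
      abs_of_nonneg (ContinuousLinearMap.opNorm_nonneg _)] at h2
    have h3 : f ∘L (ContinuousLinearMap.id 𝕜 X - b.proj n') =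
        (f ∘L (ContinuousLinearMap.id 𝕜 X - b.proj n)) ∘L
          (ContinuousLinearMap.id 𝕜 X - b.proj n') := by
      ext x
      simp only [ContinuousLinearMap.comp_apply, sub_apply,
        ContinuousLinearMap.id_apply, map_sub, SchauderBasis.proj_comp, min_eq_left hn']
      abel
    have h4 : ‖ContinuousLinearMap.id 𝕜 X - b.proj n'‖ ≤ 1 + K := by
      refine ContinuousLinearMap.opNorm_le_bound _ (by positivity) fun x => ?_
      change ‖x - b.proj n' x‖ ≤ (1 + K) * ‖x‖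
      have h5 : ‖b.proj n' x‖ ≤ K * ‖x‖ :=
        ((b.proj n').le_opNorm x).trans (mul_le_mul_of_nonneg_right (hK n') (norm_nonneg _))
      have h6 : ‖x - b.proj n' x‖ ≤ ‖x‖ + ‖b.proj n' x‖ := norm_sub_le _ _
      linarith
    rw [div_le_iff₀ (by positivity)]
    calc ε ≤ ‖f ∘L (ContinuousLinearMap.id 𝕜 X - b.proj n')‖ := h2
      _ ≤ ‖f ∘L (ContinuousLinearMap.id 𝕜 X - b.proj n)‖ *
          ‖ContinuousLinearMap.id 𝕜 X - b.proj n'‖ := by
          rw [h3]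
          exact ContinuousLinearMap.opNorm_comp_le _ _
      _ ≤ ‖f ∘L (ContinuousLinearMap.id 𝕜 X - b.proj n)‖ * (1 + K) :=
          mul_le_mul_of_nonneg_left h4 (ContinuousLinearMap.opNorm_nonneg _)
  obtain ⟨η, hη0, hη1⟩ := hη
  choose z N hN hz hf using J2_step b f hη0 hη1
  let n : ℕ → ℕ := fun j => Nat.rec 0 (fun _ m => N m) j
  have hn0 : n 0 = 0 := rfl
  have hns : ∀ j, n (j + 1) = N (n j) := fun j => rfl
  have hmono : StrictMono n := strictMono_nat_of_lt_succ fun j => by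
    rw [hns]; exact hN _
  let x0 : ℕ → X := fun j => b.proj (n (j + 1)) (z (n j)) - b.proj (n j) (z (n j))
  choose u hu1 hu2 using fun j => J2_phase (𝕜 := 𝕜) (f (x0 j))
  let x : ℕ → X := fun j => u j • x0 j
  have hx0 : ∀ j, ‖x0 j‖ ≤ 2 * K := by
    intro j
    have h1 : ∀ m, ‖b.proj m (z (n j))‖ ≤ K := fun m =>
      calc ‖b.proj m (z (n j))‖ ≤ ‖b.proj m‖ * ‖z (n j)‖ := (b.proj m).le_opNorm _
        _ ≤ K * 1 := mul_le_mul (hK m) (hz _) (norm_nonneg _) hK0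
        _ = K := mul_one _
    calc ‖x0 j‖ ≤ ‖b.proj (n (j + 1)) (z (n j))‖ + ‖b.proj (n j) (z (n j))‖ := norm_sub_le _ _
      _ ≤ K + K := add_le_add (h1 _) (h1 _)
      _ = 2 * K := by ring
  have hx1 : ∀ j, ‖x j‖ ≤ 2 * K := by
    intro j
    change ‖u j • x0 j‖ ≤ _
    rw [norm_smul]
    calc ‖u j‖ * ‖x0 j‖ ≤ 1 * (2 * K) := mul_le_mul (hu1 j) (hx0 j) (norm_nonneg _) zero_le_one
      _ = 2 * K := one_mul _
  have hx2 : ∀ j, f (x j) = ((‖f (x0 j)‖ : ℝ) : 𝕜) := by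
    intro j
    change f (u j • x0 j) = _
    rw [map_smul, smul_eq_mul, hu2]
  have hx3 : ∀ j, η / 4 ≤ ‖f (x0 j)‖ := fun j => hf (n j)
  have hx4 : ∀ i j, ¬ (n j ≤ i ∧ i < n (j + 1)) → b.coord i (x j) = 0 := by
    intro i j hij
    change b.coord i (u j • (b.proj (n (j + 1)) (z (n j)) - b.proj (n j) (z (n j)))) = 0
    rw [map_smul, map_sub, J2_coord_proj, J2_coord_proj]
    have h1 : n j < n (j + 1) := hmono (Nat.lt_succ_self j)
    rcases lt_or_ge i (n j) with h2 | h2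
    · have h3 : i < n (j + 1) := h2.trans h1
      simp only [h2, h3, if_true, sub_self, smul_zero]
    · have h3 : ¬ i < n (j + 1) := fun h3 => hij ⟨h2, h3⟩
      have h4 : ¬ i < n j := not_lt.2 h2
      simp only [h4, h3, if_false, sub_self, smul_zero]
  obtain ⟨T, hT1, hT2⟩ := exists_T (𝕜 := 𝕜) x hx1
  have hfn : 0 < ‖f‖ + 1 := by positivity
  have hLp : 0 < L := by linarith
  refine ⟨T, η / 4 / ((‖f‖ + 1) * L), by positivity, fun w => ?_⟩
  -- the multiplier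
  choose v hv1 hv2 using fun j => J2_phase (𝕜 := 𝕜) (ev j w)
  have hcut : ∀ i, ∃ j, n j ≤ i ∧ i < n (j + 1) := by
    intro i
    have h1 : ∃ j, i < n (j + 1) := ⟨i, lt_of_lt_of_le (Nat.lt_succ_self i) hmono.le_apply⟩
    classical
    refine ⟨Nat.find h1, ?_, Nat.find_spec h1⟩
    rcases Nat.eq_zero_or_pos (Nat.find h1) with h2 | h2
    · rw [h2, hn0]; exact Nat.zero_le _
    · have h3 := Nat.find_min h1 (m := Nat.find h1 - 1) (by omega)
      rw [Nat.sub_add_cancel h2] at h3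
      exact not_lt.1 h3
  choose g hg1 hg2 using hcut
  have hguniq : ∀ i j, n j ≤ i → i < n (j + 1) → g i = j := by
    intro i j h1 h2
    have h3 := hg1 i
    have h4 := hg2 i
    by_contra hne
    rcases Nat.lt_or_gt_of_ne hne with h5 | h5
    · have h6 : n (g i + 1) ≤ n j := hmono.monotone h5
      omega
    · have h6 : n (j + 1) ≤ n (g i) := hmono.monotone h5
      omega
  obtain ⟨M, hM1, hM2⟩ := hL (fun i => v (g i)) (fun i => hv1 _)
  have hMx : ∀ j, M (x j) = v j • x j := by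
    intro j
    refine ext_coord b fun i => ?_
    rw [hM1, show b.coord i (v j • x j) = v j * b.coord i (x j) from map_smul _ _ _]
    rcases Classical.em (n j ≤ i ∧ i < n (j + 1)) with h1 | h1
    · rw [hguniq i j h1.1 h1.2]
    · rw [hx4 i j h1, mul_zero, mul_zero]
  have s1 : HasSum (fun j => f (M (ev j w • x j))) (f (M (T w))) :=
    ((hT1 w).mapL M).mapL f
  have s2 : ∀ j, f (M (ev j w • x j)) = ((‖ev j w‖ * ‖f (x0 j)‖ : ℝ) : 𝕜) := by
    intro j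
    rw [map_smul, hMx, map_smul, map_smul, hx2, smul_eq_mul, smul_eq_mul, RCLike.ofReal_mul,
      ← hv2]
    ring
  simp only [s2] at s1
  have s3 : HasSum (fun j => ‖ev j w‖ * ‖f (x0 j)‖) (RCLike.re (f (M (T w)))) := by
    have h1 := s1.mapL (RCLike.reCLM : 𝕜 →L[ℝ] ℝ)
    simpa using h1
  have s4 : HasSum (fun j => η / 4 * ‖ev j w‖) (η / 4 * ‖w‖) := (hasSum_norm_ev w).mul_left _
  have s5 : η / 4 * ‖w‖ ≤ RCLike.re (f (M (T w))) :=
    hasSum_le (fun j => by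
      rw [mul_comm]
      exact mul_le_mul_of_nonneg_left (hx3 j) (norm_nonneg _)) s4 s3
  have s6 : RCLike.re (f (M (T w))) ≤ (‖f‖ + 1) * (L * ‖T w‖) := by
    calc RCLike.re (f (M (T w))) ≤ ‖f (M (T w))‖ := RCLike.re_le_norm _
      _ ≤ ‖f‖ * ‖M (T w)‖ := f.le_opNorm _
      _ ≤ (‖f‖ + 1) * (L * ‖T w‖) :=
        mul_le_mul (by linarith) (hM2 _) (norm_nonneg _) hfn.le
  rw [div_mul_eq_mul_div, div_le_iff₀ (by positivity)]
  calc η / 4 * ‖w‖ ≤ _ := s5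
    _ ≤ (‖f‖ + 1) * (L * ‖T w‖) := s6
    _ = ‖T w‖ * ((‖f‖ + 1) * L) := by ring

end Pool.Agent.Lib.MP_a0554b_an.P
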