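import Mathlib
import Pool.Agent.Lib.MP_a0554b_an.P.Defs
import Pool.Agent.Lib.MP_a0554b_an.P.I1
set_option autoImplicit false

/-!
# A complemented copy of `X` and absorption give an isomorphism
-/

noncomputable section

namespace Pool.Agent.Lib.MP_a0554b_an.P

open Filter Topology Set
open scoped ENNReal
open Pool.Agent.Lib.MP_a0554b_an

universe u v w

variable {𝕜 : Type v} [RCLike 𝕜] {X : Type u} [NormedAddCommGroup X] [NormedSpace 𝕜 X]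

/-- The absorption isomorphism. -/
theorem K1_absorb {Y : Type*} [NormedAddCommGroup Y] [NormedSpace 𝕜 Y] {K C' : ℝ} (hK : 0 ≤ K)
    (hC' : 0 ≤ C') (hsq : IsoB 𝕜 C' (X × X) X) (γ : X →L[𝕜] Y) (δ : Y →L[𝕜] X)
    (h : ∀ x, δ (γ x) = x) (hγ : ∀ x, ‖γ x‖ ≤ K * ‖x‖) (hδ : ∀ y, ‖δ y‖ ≤ K * ‖y‖) :
    IsoB 𝕜 (1 + K ^ 2 + K * C' + K ^ 2 * C') (X × Y) Y := by
  obtain ⟨τ, hτ1, hτ2⟩ := hsq
  set A : (X × Y) →L[𝕜] Y :=
    (γ ∘L (τ : (X × X) →L[𝕜] X)) ∘L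
      ((ContinuousLinearMap.fst 𝕜 X Y).prod (δ ∘L ContinuousLinearMap.snd 𝕜 X Y)) +
      ((ContinuousLinearMap.id 𝕜 Y - γ ∘L δ) ∘L ContinuousLinearMap.snd 𝕜 X Y) with hA
  set σ : Y →L[𝕜] (X × X) := (τ.symm : X →L[𝕜] (X × X)) ∘L δ with hσ
  set B : Y →L[𝕜] (X × Y) :=
    (ContinuousLinearMap.fst 𝕜 X X ∘L σ).prod
    (γ ∘L ContinuousLinearMap.snd 𝕜 X X ∘L σ +
      (ContinuousLinearMap.id 𝕜 Y - γ ∘L δ)) with hB
  have eA : ∀ q : X × Y, A q = γ (τ (q.1, δ q.2)) + (q.2 - γ (δ q.2)) := fun q => rfl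
  have eB : ∀ y : Y, B y = ((τ.symm (δ y)).1, γ (τ.symm (δ y)).2 + (y - γ (δ y))) := fun y => rfl
  have h1 : ∀ q, B (A q) = q := by
    rintro ⟨x, y⟩
    have e1 : δ (A (x, y)) = τ (x, δ y) := by
      rw [eA]
      simp only [map_add, map_sub, h, sub_self, add_zero]
    rw [eB, e1, τ.symm_apply_apply, eA]
    simp
  have h2 : ∀ y, A (B y) = y := by
    intro y
    have e1 : δ (B y).2 = (τ.symm (δ y)).2 := by
      rw [eB]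
      simp only [map_add, map_sub, h, sub_self, add_zero]
    rw [eA, e1, eB]
    simp only [Prod.mk.eta, τ.apply_symm_apply]
    abel
  have hK2 : 0 ≤ K ^ 2 := sq_nonneg K
  have hKC : 0 ≤ K * C' := mul_nonneg hK hC'
  have hKKC : 0 ≤ K ^ 2 * C' := mul_nonneg hK2 hC'
  refine ⟨ContinuousLinearEquiv.equivOfInverse A B h1 h2, fun q => ?_, fun y => ?_⟩
  · change ‖A q‖ ≤ _
    rw [eA]
    have n0 := norm_nonneg q
    have n1 : ‖q.1‖ ≤ ‖q‖ := norm_fst_le q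
    have n2 : ‖q.2‖ ≤ ‖q‖ := norm_snd_le q
    have n3 : ‖δ q.2‖ ≤ K * ‖q‖ := (hδ _).trans (by gcongr)
    have n4 : ‖(q.1, δ q.2)‖ ≤ (K + 1) * ‖q‖ := by
      rw [Prod.norm_def]
      refine max_le ?_ ?_
      · simp only
        nlinarith [mul_nonneg hK n0]
      · simp only
        nlinarith
    have n5 : ‖γ (τ (q.1, δ q.2))‖ ≤ K * (C' * ((K + 1) * ‖q‖)) :=
      (hγ _).trans (by gcongr; exact (hτ1 _).trans (by gcongr))
    have n6 : ‖γ (δ q.2)‖ ≤ K * (K * ‖q‖) := (hγ _).trans (by gcongr)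
    have n7 : ‖γ (τ (q.1, δ q.2)) + (q.2 - γ (δ q.2))‖ ≤
        ‖γ (τ (q.1, δ q.2))‖ + (‖q.2‖ + ‖γ (δ q.2)‖) :=
      (norm_add_le _ _).trans (by gcongr; exact norm_sub_le _ _)
    calc _ ≤ _ := n7
      _ ≤ K * (C' * ((K + 1) * ‖q‖)) + (‖q‖ + K * (K * ‖q‖)) := by gcongr
      _ = (1 + K ^ 2 + K * C' + K ^ 2 * C') * ‖q‖ := by ring
  · change ‖B y‖ ≤ _
    rw [eB]
    have n0 := norm_nonneg y
    have n1 : ‖τ.symm (δ y)‖ ≤ C' * (K * ‖y‖) := (hτ2 _).trans (by gcongr; exact hδ y)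
    have n2 : ‖(τ.symm (δ y)).1‖ ≤ C' * (K * ‖y‖) := (norm_fst_le _).trans n1
    have n3 : ‖(τ.symm (δ y)).2‖ ≤ C' * (K * ‖y‖) := (norm_snd_le _).trans n1
    have n4 : ‖γ (τ.symm (δ y)).2‖ ≤ K * (C' * (K * ‖y‖)) := (hγ _).trans (by gcongr)
    have n5 : ‖γ (δ y)‖ ≤ K * (K * ‖y‖) := (hγ _).trans (by gcongr; exact hδ y)
    rw [Prod.norm_def]
    refine max_le ?_ ?_
    · refine n2.trans ?_
      nlinarith [mul_nonneg hKC n0, mul_nonneg hK2 n0, mul_nonneg hKKC n0]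
    · have n6 : ‖γ (τ.symm (δ y)).2 + (y - γ (δ y))‖ ≤
          ‖γ (τ.symm (δ y)).2‖ + (‖y‖ + ‖γ (δ y)‖) :=
        (norm_add_le _ _).trans (by gcongr; exact norm_sub_le _ _)
      refine n6.trans ?_
      nlinarith [mul_nonneg hKC n0, mul_nonneg hK2 n0, mul_nonneg hKKC n0]

/-- PROOF. Let `σ : X × X ≃ X` (constant `C'`) and `A : X → Y`, `B : Y → X` as in the hypothesis, `f = A ∘ B` a
projection of `Y`. `Θ (x, y) = A (σ (x, B y)) + (y - A (B y))` is an isomorphism `X × Y ≃ Y` with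
inverse `y ↦ (p, A q + (y - A (B y)))` where `(p, q) = σ⁻¹ (B y)` (the same as `absorb` in file
B2b). So `Y ≃ X × Y ≃ X`. -/
theorem iso_of_fac {K C C' : ℝ} (hK : 0 ≤ K) (hC : 0 ≤ C) (hC' : 0 ≤ C')
    (hsq : IsoB 𝕜 C' (X × X) X) :
    ∃ D : ℝ, 0 ≤ D ∧ ∀ Y : Submodule 𝕜 X, IsoB 𝕜 C (X × Y) X → Fac K Y Y → IsoB 𝕜 D Y X := by
  have hK2 : 0 ≤ K ^ 2 := sq_nonneg K
  have hKC : 0 ≤ K * C' := mul_nonneg hK hC'
  have hKKC : 0 ≤ K ^ 2 * C' := mul_nonneg hK2 hC'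
  have hD : 0 ≤ 1 + K ^ 2 + K * C' + K ^ 2 * C' := by linarith
  refine ⟨(1 + K ^ 2 + K * C' + K ^ 2 * C') * C, mul_nonneg hD hC, fun Y hY hF => ?_⟩
  obtain ⟨A, B, h1, _, h3, h4⟩ := hF
  exact IsoB.trans hD hC (K1_absorb hK hC' hsq A B h1 h3 h4).symm hY

end Pool.Agent.Lib.MP_a0554b_an.P
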