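import Mathlib
import Pool.Agent.Lib.MP_a0554b_an.P.Defs
import Pool.Agent.Lib.MP_a0554b_an.P.N0
set_option autoImplicit false

/-!
# The diagonal argument
-/

noncomputable section

namespace Pool.Agent.Lib.MP_a0554b_an.P

open Filter Topology Set
open scoped ENNReal
open Pool.Agent.Lib.MP_a0554b_an

universe u v w

variable {𝕜 : Type v} [RCLike 𝕜] {X : Type u} [NormedAddCommGroup X] [NormedSpace 𝕜 X]

/-- PROOF. Suppose the conclusion fails: for every block sequence `y'` and every `K ≥ 0` there is a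
block sequence `y` of `y'` with `¬ FacX K (closedSpan y)`. Use `diagonal` for `y := b` (a block
sequence: `b.ortho`) and `R n y' := ¬ FacX n (closedSpan y')`: `hher` by `FacX.mono`
(`closedSpan y'' ≤ closedSpan y'`). So there is a block sequence `d` with
`¬ FacX n (closedSpan (d (· + (n + 1))))` for all `n`. By `H` there is `K` with `FacX K (closedSpan d)` (we
may take `K ≥ 0`, `FacX.mono`), by `htail` `FacX (C * K) (closedSpan (d (· + (n + 1))))` for all
`n`; take `n ≥ C * K` (`FacX.mono`): contradiction. -/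
theorem exists_nested (b : SchauderBasis 𝕜 X) {C : ℝ} (hC : 0 ≤ C)
    (htail : ∀ K : ℝ, 0 ≤ K → ∀ y : ℕ → X, IsBlock b y → FacX K (closedSpan 𝕜 y) →
      ∀ N : ℕ, FacX (C * K) (closedSpan 𝕜 (fun k => y (k + N))))
    (H : ∀ y : ℕ → X, IsBlock b y → ∃ K : ℝ, FacX K (closedSpan 𝕜 y)) :
    ∃ (y₀ : ℕ → X) (K : ℝ), IsBlock b y₀ ∧ 0 ≤ K ∧ ∀ y : ℕ → X, IsBlock b y →
      (∀ k, y k ∈ Submodule.span 𝕜 (Set.range y₀)) → FacX K (closedSpan 𝕜 y) := by
  by_contra hcon
  have hbb : IsBlock b (fun n => b n) := by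
    refine ⟨fun k h0 => ?_, fun k => ?_, fun k m n hm hn => ?_⟩
    · have h1 := b.ortho k k
      rw [h0] at h1
      simp at h1
    · refine (Set.finite_singleton k).subset fun n hn => ?_
      rw [Set.mem_singleton_iff]
      by_contra hne
      apply hn
      rw [b.ortho]
      simp [hne]
    · have h1 : m = k := by
        by_contra hne
        apply hm
        rw [b.ortho]
        simp [hne]
      have h2 : n = k + 1 := by
        by_contra hne
        apply hn
        rw [b.ortho]
        simp [hne]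
      omega
  obtain ⟨d, hd, hR⟩ := diagonal b (fun n y' => ¬ FacX (n : ℝ) (closedSpan 𝕜 y')) (fun n => b n) hbb
    (by
      intro n y' hy'
      by_contra hno
      apply hcon
      refine ⟨y', n, hy'.isBlock, Nat.cast_nonneg n, fun y hy hmem => ?_⟩
      by_contra hF
      exact hno ⟨y, ⟨hy, hmem⟩, hF⟩)
    (by
      intro n y' y'' _ hbo hR hF
      apply hR
      refine hF.mono ?_ le_rfl
      rw [closedSpan_eq_cs, closedSpan_eq_cs]
      refine cs_le (cs_isClosed _) ?_
      rintro _ ⟨k, rfl⟩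
      exact (Submodule.span 𝕜 (Set.range y')).le_topologicalClosure (hbo.mem k))
  obtain ⟨K, hK⟩ := H d hd.isBlock
  have hK' : FacX (max K 0) (closedSpan 𝕜 d) := hK.mono le_rfl (le_max_left _ _)
  obtain ⟨n, hn⟩ := exists_nat_ge (C * max K 0)
  exact hR n ((htail (max K 0) (le_max_right _ _) d hd.isBlock hK' (n + 1)).mono le_rfl hn)

end Pool.Agent.Lib.MP_a0554b_an.P
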