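import Mathlib
import Pool.Agent.Lib.MP_a0554b_an.P.Defs
set_option autoImplicit false

/-!
# Factorizations through tails of a block sequence
-/

noncomputable section

namespace Pool.Agent.Lib.MP_a0554b_an.P

open Filter Topology Set
open scoped ENNReal
open Pool.Agent.Lib.MP_a0554b_an

universe u v w

variable {𝕜 : Type v} [RCLike 𝕜] {X : Type u} [NormedAddCommGroup X] [NormedSpace 𝕜 X]

/-- PROOF: for a finite rank operator `R` (here `b.proj n ∘ A`, `= ∑ i < n, φ i • b i` with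
`φ i = b.coord i ∘ A` in the dual) `‖R ∘ (1 - b.proj m)‖ ≤ ∑ ‖φ i ∘ (1 - b.proj m)‖ * ‖b i‖ → 0`
by `hs`. -/
theorem proj_small (b : SchauderBasis 𝕜 X) (hs : Shrinking b) (A : X →L[𝕜] X) (n : ℕ) {δ : ℝ}
    (hδ : 0 < δ) : ∃ m : ℕ, ∀ x, ‖b.proj n (A (x - b.proj m x))‖ ≤ δ * ‖x‖ := by
  have h1 : Tendsto (fun m : ℕ => ∑ i ∈ Finset.range n,
      ‖(b.coord i ∘L A) ∘L (ContinuousLinearMap.id 𝕜 X - b.proj m)‖ * ‖b i‖) atTop (𝓝 0) := by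
    have h2 : Tendsto (fun m : ℕ => ∑ i ∈ Finset.range n,
        ‖(b.coord i ∘L A) ∘L (ContinuousLinearMap.id 𝕜 X - b.proj m)‖ * ‖b i‖) atTop
        (𝓝 (∑ i ∈ Finset.range n, 0 * ‖b i‖)) :=
      tendsto_finsetSum _ fun i _ => (hs (b.coord i ∘L A)).mul_const _
    simpa using h2
  obtain ⟨m, hm⟩ := (h1.eventually (gt_mem_nhds hδ)).exists
  refine ⟨m, fun x => ?_⟩
  rw [SchauderBasis.proj_apply b n]
  calc ‖∑ i ∈ Finset.range n, b.coord i (A (x - b.proj m x)) • b i‖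
      ≤ ∑ i ∈ Finset.range n, ‖b.coord i (A (x - b.proj m x)) • b i‖ := norm_sum_le _ _
    _ ≤ ∑ i ∈ Finset.range n,
        (‖(b.coord i ∘L A) ∘L (ContinuousLinearMap.id 𝕜 X - b.proj m)‖ * ‖b i‖) * ‖x‖ := by
        refine Finset.sum_le_sum fun i _ => ?_
        rw [norm_smul]
        have h3 : ‖b.coord i (A (x - b.proj m x))‖ ≤
            ‖(b.coord i ∘L A) ∘L (ContinuousLinearMap.id 𝕜 X - b.proj m)‖ * ‖x‖ :=
          ((b.coord i ∘L A) ∘L (ContinuousLinearMap.id 𝕜 X - b.proj m)).le_opNorm x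
        calc ‖b.coord i (A (x - b.proj m x))‖ * ‖b i‖
            ≤ (‖(b.coord i ∘L A) ∘L (ContinuousLinearMap.id 𝕜 X - b.proj m)‖ * ‖x‖) * ‖b i‖ :=
              mul_le_mul_of_nonneg_right h3 (norm_nonneg _)
          _ = _ := by ring
    _ = (∑ i ∈ Finset.range n,
        ‖(b.coord i ∘L A) ∘L (ContinuousLinearMap.id 𝕜 X - b.proj m)‖ * ‖b i‖) * ‖x‖ := by
        rw [Finset.sum_mul]
    _ ≤ δ * ‖x‖ := mul_le_mul_of_nonneg_right hm.le (norm_nonneg _)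

/-- PROOF. Let `‖b.proj n x‖ ≤ K₁ * ‖x‖` for all `n`, `x` (`SchauderBasis.exists_norm_proj_le`), `e` the
cut points of `y`, and `A`, `B` the operators of `FacX K (closedSpan y)`. Fix `N`, put
`R = b.proj (e N)`. By `proj_small` choose `m` with `‖R (A (x - b.proj m x))‖ ≤ δ * ‖x‖`,
`δ * C₀ ^ 2 * K ≤ 1/2`, and `S`, `T` from `hT` for `m`; `b.proj m (S x) = 0`, so
`‖R (A (S x))‖ ≤ δ * C₀ * ‖x‖`. `A' = (1 - R) ∘ A ∘ S`, `B' = T ∘ B`: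
`B' (A' x) = T (B (A (S x))) - T (B (R (A (S x)))) = x - T (B (R (A (S x))))` and the last term has
norm at most `‖x‖ / 2`. `exists_inverse` (file B1 of the first campaign) gives `V` with
`V (B' (A' x)) = x`, `‖V x‖ ≤ 2 ‖x‖`. `A' x ∈ closedSpan (y (· + N))`: for `x ∈ closedSpan y`,
`x - b.proj (e N) x ∈ closedSpan (y (· + N))` (true for the `y i`, by `IsCut.proj_apply`, linear and
continuous). Bounds: `‖A'‖ ≤ (1 + K₁) * K * C₀`, `‖V B'‖ ≤ 2 * C₀ * K`. -/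
theorem fac_tail [CompleteSpace X] (b : SchauderBasis 𝕜 X) (hs : Shrinking b) {C₀ : ℝ}
    (hC₀ : 0 ≤ C₀)
    (hT : ∀ m : ℕ, ∃ S T : X →L[𝕜] X, (∀ x, T (S x) = x) ∧
      (∀ x, ∀ n < m, b.coord n (S x) = 0) ∧ (∀ x, ‖S x‖ ≤ C₀ * ‖x‖) ∧ ∀ x, ‖T x‖ ≤ C₀ * ‖x‖) :
    ∃ C : ℝ, 0 ≤ C ∧ ∀ K : ℝ, 0 ≤ K → ∀ y : ℕ → X, IsBlock b y → FacX K (closedSpan 𝕜 y) →
      ∀ N : ℕ, FacX (C * K) (closedSpan 𝕜 (fun k => y (k + N))) := by
  obtain ⟨K₁, hK₁⟩ := SchauderBasis.exists_norm_proj_le b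
  have hK₁0 : 0 ≤ K₁ := (norm_nonneg _).trans (hK₁ 0)
  refine ⟨(1 + K₁) * C₀ + 2 * C₀, by positivity, ?_⟩
  rintro K hK y hy ⟨A, B, h1, h2, h3, h4⟩ N
  obtain ⟨e, he⟩ := hy.exists_cut
  have hK2 : 0 ≤ C₀ ^ 2 * K := by positivity
  have hδ : 0 < 1 / (2 * (C₀ ^ 2 * K + 1)) := by positivity
  have hδ2 : C₀ * (K * (1 / (2 * (C₀ ^ 2 * K + 1)) * C₀)) ≤ 1 / 2 := by
    have h5 : C₀ * (K * (1 / (2 * (C₀ ^ 2 * K + 1)) * C₀)) =
        (C₀ ^ 2 * K) / (2 * (C₀ ^ 2 * K + 1)) := by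
      field_simp
    rw [h5, div_le_div_iff₀ (by positivity) (by norm_num)]
    linarith
  obtain ⟨m, hm⟩ := proj_small b hs A (e N) hδ
  set δ := 1 / (2 * (C₀ ^ 2 * K + 1)) with hδd
  obtain ⟨S, T, t1, t2, t3, t4⟩ := hT m
  have t5 : ∀ x, b.proj m (S x) = 0 := fun x => by
    rw [SchauderBasis.proj_apply]
    exact Finset.sum_eq_zero fun i hi => by rw [t2 x i (Finset.mem_range.mp hi), zero_smul]
  have t6 : ∀ x, ‖b.proj (e N) (A (S x))‖ ≤ δ * C₀ * ‖x‖ := fun x => by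
    have h5 := hm (S x)
    rw [t5, sub_zero] at h5
    calc ‖b.proj (e N) (A (S x))‖ ≤ δ * ‖S x‖ := h5
      _ ≤ δ * (C₀ * ‖x‖) := mul_le_mul_of_nonneg_left (t3 x) hδ.le
      _ = _ := by ring
  let A' : X →L[𝕜] X := (ContinuousLinearMap.id 𝕜 X - b.proj (e N)) ∘L A ∘L S
  let W : X →L[𝕜] X := T ∘L B ∘L A'
  have hA' : ∀ x, A' x = A (S x) - b.proj (e N) (A (S x)) := fun x => rfl
  have hW : ∀ x, W x = T (B (A' x)) := fun x => rfl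
  have hW2 : ∀ x, ‖W x - x‖ ≤ 1 / 2 * ‖x‖ := fun x => by
    have h5 : W x - x = - T (B (b.proj (e N) (A (S x)))) := by
      rw [hW, hA', map_sub, map_sub, h1, t1]
      abel
    rw [h5, norm_neg]
    calc ‖T (B (b.proj (e N) (A (S x))))‖ ≤ C₀ * ‖B (b.proj (e N) (A (S x)))‖ := t4 _
      _ ≤ C₀ * (K * ‖b.proj (e N) (A (S x))‖) := mul_le_mul_of_nonneg_left (h4 _) hC₀
      _ ≤ C₀ * (K * (δ * C₀ * ‖x‖)) :=
          mul_le_mul_of_nonneg_left (mul_le_mul_of_nonneg_left (t6 x) hK) hC₀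
      _ = (C₀ * (K * (δ * C₀))) * ‖x‖ := by ring
      _ ≤ 1 / 2 * ‖x‖ := mul_le_mul_of_nonneg_right hδ2 (norm_nonneg _)
  obtain ⟨V, v1, _, v3⟩ := exists_inverse W hW2
  have hmem : ∀ x ∈ closedSpan 𝕜 y, x - b.proj (e N) x ∈ closedSpan 𝕜 (fun k => y (k + N)) := by
    have h5 : closedSpan 𝕜 y ≤ (closedSpan 𝕜 (fun k => y (k + N))).comap
        ((ContinuousLinearMap.id 𝕜 X - b.proj (e N) : X →L[𝕜] X) : X →ₗ[𝕜] X) := by
      rw [closedSpan_eq_cs]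
      refine cs_le ((closedSpan_isClosed _).preimage
        (ContinuousLinearMap.id 𝕜 X - b.proj (e N) : X →L[𝕜] X).continuous) ?_
      rintro _ ⟨i, rfl⟩
      change y i - b.proj (e N) (y i) ∈ closedSpan 𝕜 (fun k => y (k + N))
      rw [he.proj_apply]
      split_ifs with hi
      · rw [sub_self]
        exact Submodule.zero_mem _
      · rw [sub_zero, closedSpan_eq_cs]
        apply subset_cs
        refine ⟨i - N, ?_⟩
        change y (i - N + N) = y i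
        rw [Nat.sub_add_cancel (by omega)]
    exact fun x hx => h5 hx
  refine ⟨A', V ∘L T ∘L B, ?_, ?_, ?_, ?_⟩
  · intro x
    change V (T (B (A' x))) = x
    rw [← hW]
    exact v1 x
  · intro x
    rw [hA']
    exact hmem _ (h2 _)
  · intro x
    have h5 : ‖A (S x)‖ ≤ K * (C₀ * ‖x‖) := (h3 _).trans (mul_le_mul_of_nonneg_left (t3 x) hK)
    have h6 : ‖b.proj (e N) (A (S x))‖ ≤ K₁ * ‖A (S x)‖ :=
      ((b.proj (e N)).le_opNorm _).trans (mul_le_mul_of_nonneg_right (hK₁ _) (norm_nonneg _))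
    have h7 : K₁ * ‖A (S x)‖ ≤ K₁ * (K * (C₀ * ‖x‖)) := mul_le_mul_of_nonneg_left h5 hK₁0
    have h8 : 0 ≤ C₀ * K * ‖x‖ := by positivity
    rw [hA']
    calc ‖A (S x) - b.proj (e N) (A (S x))‖ ≤ ‖A (S x)‖ + ‖b.proj (e N) (A (S x))‖ :=
          norm_sub_le _ _
      _ ≤ K * (C₀ * ‖x‖) + K₁ * (K * (C₀ * ‖x‖)) := by linarith
      _ = ((1 + K₁) * C₀) * K * ‖x‖ := by ring
      _ ≤ ((1 + K₁) * C₀ + 2 * C₀) * K * ‖x‖ := by nlinarith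
  · intro x
    have h5 : ‖T (B x)‖ ≤ C₀ * (K * ‖x‖) := (t4 _).trans (mul_le_mul_of_nonneg_left (h4 x) hC₀)
    have h8 : 0 ≤ ((1 + K₁) * C₀) * K * ‖x‖ := by positivity
    calc ‖V (T (B x))‖ ≤ 2 * ‖T (B x)‖ := v3 _
      _ ≤ 2 * (C₀ * (K * ‖x‖)) := by linarith
      _ ≤ ((1 + K₁) * C₀) * K * ‖x‖ + 2 * (C₀ * (K * ‖x‖)) := by linarith
      _ = ((1 + K₁) * C₀ + 2 * C₀) * K * ‖x‖ := by ring

end Pool.Agent.Lib.MP_a0554b_an.P
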