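import Mathlib
import Pool.Agent.Lib.MP_a0554b_an.P.Defs
import Pool.Agent.Lib.MP_a0554b_an.P.C2
import Pool.Agent.Lib.MP_a0554b_an.P.G4
import Pool.Agent.Lib.MP_a0554b_an.P.E0
import Pool.Agent.Lib.MP_a0554b_an.P.E1
import Pool.Agent.Lib.MP_a0554b_an.P.E3
import Pool.Agent.Lib.MP_a0554b_an.P.K1
import Pool.Agent.Lib.MP_a0554b_an.P.J1
import Pool.Agent.Lib.MP_a0554b_an.P.J2

set_option autoImplicit false

/-!
# Local uniformity implies uniformity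
-/

noncomputable section

namespace Pool.Agent.Lib.MP_a0554b_an.P

open Filter Topology Set
open scoped ENNReal
open Pool.Agent.Lib.MP_a0554b_an

universe u v w

variable {𝕜 : Type v} [RCLike 𝕜] {X : Type u} [NormedAddCommGroup X] [NormedSpace 𝕜 X]

/-- PROOF. `τ : X ≃ closedSpan y₀` by `hb`, `C₁` from `transfer_equi`. For a block sequence `y` take
`w`, `j` from `transfer_equi` and `i` from `H w`: `closedSpan (w ∘ i) ≃ X` (`C`), and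
`Equi C₁ (w ∘ i) (y ∘ j ∘ i)` (`Equi.comp`), so by `Equi.exists_equiv`
`closedSpan (y ∘ (j ∘ i)) ≃ closedSpan (w ∘ i) ≃ X` with constant `C₁ * C`. `fac_of_subseq`,
`exists_absorb`, `exists_sq`, `iso_of_fac`, `IsoB.toIsoC`. -/
theorem local_shrinking [CompleteSpace X] (b : SchauderBasis 𝕜 X) (hu : Unconditional b)
    (hb : BlockHomogeneous b) (hs : Shrinking b) (y₀ : ℕ → X) (hy₀ : IsBlock b y₀) {C : ℝ}
    (hC : 0 ≤ C)
    (H : ∀ y : ℕ → X, BlockOf b y₀ y → ∃ j : ℕ → ℕ, StrictMono j ∧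
      IsoB 𝕜 C (closedSpan 𝕜 (fun k => y (j k))) X) :
    ∃ C : ℝ, BlockHomogeneousWith b C := by
  obtain ⟨τ⟩ := hb y₀ hy₀
  obtain ⟨C₁, hC₁, hT⟩ := transfer_equi b hs y₀ hy₀ τ.symm
  obtain ⟨K, hK, hF⟩ := fac_of_subseq b hu (C := C₁ * C) (mul_nonneg hC₁ hC)
  obtain ⟨C₂, hC₂, hA⟩ := exists_absorb b hu hb
  obtain ⟨C₃, hC₃, hsq⟩ := exists_sq b hu hb
  obtain ⟨D, hD, hI⟩ := iso_of_fac (𝕜 := 𝕜) (X := X) hK hC₂ hC₃ hsq
  refine ⟨D * D, fun y hy => ?_⟩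
  obtain ⟨w, j, hw, hj, he⟩ := hT y hy
  obtain ⟨i, hi, h1⟩ := H w hw
  have h2 : Equi 𝕜 C₁ (fun k => w (i k)) (fun k => y (j (i k))) := he.comp hi
  obtain ⟨T, t1, t2, _⟩ := h2.exists_equiv hC₁
  have h3 : IsoB 𝕜 C₁ (closedSpan 𝕜 (fun k => w (i k)))
      (closedSpan 𝕜 (fun k => y (j (i k)))) := ⟨T, t1, t2⟩
  have h4 : IsoB 𝕜 (C₁ * C) (closedSpan 𝕜 (fun k => y (j (i k)))) X :=
    IsoB.trans hC₁ hC h3.symm h1
  have h5 := hF y (fun k => j (i k)) hy (hj.comp hi) h4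
  exact (hI _ (hA y hy) h5).toIsoC hD

end Pool.Agent.Lib.MP_a0554b_an.P
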