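import Mathlib
import Pool.Agent.Lib.MP_a0554b_an.P.Defs
import Pool.Agent.Lib.MP_a0554b_an.P.C2
import Pool.Agent.Lib.MP_a0554b_an.P.C3
import Pool.Agent.Lib.MP_a0554b_an.P.T1
import Pool.Agent.Lib.MP_a0554b_an.P.N1
import Pool.Agent.Lib.MP_a0554b_an.P.G3
import Pool.Agent.Lib.MP_a0554b_an.P.K1
import Pool.Agent.Lib.MP_a0554b_an.P.J1
import Pool.Agent.Lib.MP_a0554b_an.P.J2
import Pool.Agent.Lib.MP_a0554b_an.L6
import Pool.Agent.Lib.MP_a0554b_an.Z2
set_option autoImplicit false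

/-!
# The main theorem
-/

noncomputable section

namespace Pool.Agent.Lib.MP_a0554b_an.P

open Filter Topology Set
open scoped ENNReal
open Pool.Agent.Lib.MP_a0554b_an

universe u v w

variable {𝕜 : Type v} [RCLike 𝕜] {X : Type u} [NormedAddCommGroup X] [NormedSpace 𝕜 X]

/-- PROOF. `τ` : `X ≃ closedSpan y₀` by `hb`. By `transfer` for `y₀` every block sequence `y`
has `FacX K (closedSpan y)` for some `K`. `exists_tails`, `fac_tail`, `exists_nested`: block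
sequence `y₁` and `K` with `FacX K (closedSpan y)` for all block sequences `y` of `y₁`. Again
`transfer`, now for `y₁`: `FacX (C * K) (closedSpan y)` for ALL block sequences `y`. Then
`exists_absorb`, `exists_sq`, `iso_of_fac`, `IsoB.toIsoC`. -/
theorem main_shrinking [CompleteSpace X] (b : SchauderBasis 𝕜 X) (hu : Unconditional b)
    (hb : BlockHomogeneous b) (hs : Shrinking b) (y₀ : ℕ → X) (hy₀ : IsBlock b y₀)
    (H : ∀ y : ℕ → X, IsBlock b y → (∀ k, y k ∈ Submodule.span 𝕜 (Set.range y₀)) →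
      ∃ K : ℝ, Fac K (closedSpan 𝕜 y) (closedSpan 𝕜 y₀)) :
    ∃ C : ℝ, BlockHomogeneousWith b C := by
  obtain ⟨e₀⟩ := hb y₀ hy₀
  obtain ⟨C₁, hC₁, h1⟩ := transfer b hs y₀ hy₀ e₀.symm
  have hX : ∀ y : ℕ → X, IsBlock b y → ∃ K : ℝ, FacX K (closedSpan 𝕜 y) := by
    intro y hy
    obtain ⟨w, hw, hw1, hw2⟩ := h1 y hy
    obtain ⟨K, hK⟩ := H w hw hw1
    refine ⟨C₁ * max K 0, hw2 (max K 0) (le_max_right _ _) ?_⟩
    obtain ⟨A, B, g1, g2, g3, g4⟩ := hK
    exact ⟨A, B, g1, g2,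
      fun x => (g3 x).trans (mul_le_mul_of_nonneg_right (le_max_left _ _) (norm_nonneg _)),
      fun x => (g4 x).trans (mul_le_mul_of_nonneg_right (le_max_left _ _) (norm_nonneg _))⟩
  obtain ⟨C₀, hC₀, hT⟩ := exists_tails b hu hb
  obtain ⟨C₂, hC₂, h2⟩ := fac_tail b hs hC₀ hT
  obtain ⟨y₁, K, hy₁, hK, h3⟩ := exists_nested b hC₂ h2 hX
  obtain ⟨e₁⟩ := hb y₁ hy₁
  obtain ⟨C₃, hC₃, h4⟩ := transfer b hs y₁ hy₁ e₁.symm
  obtain ⟨C₄, hC₄, h5⟩ := exists_absorb b hu hb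
  obtain ⟨C₅, hC₅, h6⟩ := exists_sq b hu hb
  obtain ⟨D, hD, h7⟩ := iso_of_fac (mul_nonneg hC₃ hK) hC₄ hC₅ h6
  refine ⟨D * D, fun y hy => ?_⟩
  have h8 : FacX (C₃ * K) (closedSpan 𝕜 y) := by
    obtain ⟨w, hw, hw1, hw2⟩ := h4 y hy
    refine hw2 K hK ((h3 w hw hw1).toFac ?_)
    exact cs_le (cs_isClosed _) (by
      rintro x ⟨k, rfl⟩
      exact (Submodule.span 𝕜 (Set.range y₁)).le_topologicalClosure (hw1 k))
  exact (h7 _ (h5 y hy) (h8.toFac le_rfl)).toIsoC hD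

/-- PROOF: if `b` is not boundedly complete: `contains_c0`, `uniform_of_contains`. If `b` is
boundedly complete and not shrinking: `contains_l1`, `uniform_of_contains_one`. Otherwise
`main_shrinking`. -/
theorem main_unconditional [CompleteSpace X] (b : SchauderBasis 𝕜 X) (hu : Unconditional b)
    (hb : BlockHomogeneous b) (y₀ : ℕ → X) (hy₀ : IsBlock b y₀)
    (H : ∀ y : ℕ → X, IsBlock b y → (∀ k, y k ∈ Submodule.span 𝕜 (Set.range y₀)) →
      ∃ K : ℝ, Fac K (closedSpan 𝕜 y) (closedSpan 𝕜 y₀)) :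
    ∃ C : ℝ, BlockHomogeneousWith b C := by
  by_cases hbc : BoundedlyComplete b
  · by_cases hs : Shrinking b
    · exact main_shrinking b hu hb hs y₀ hy₀ H
    · exact uniform_of_contains_one b hb hbc.upTo (contains_l1 b hu hs)
  · exact uniform_of_contains (p := ∞) (by simp) b hb (contains_c0 b hu hbc)

end Pool.Agent.Lib.MP_a0554b_an.P
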