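import Mathlib
import Pool.Agent.Lib.MP_a0554b_an.P.Z1

set_option autoImplicit false

/-!
# The main theorem as a dichotomy
-/

noncomputable section

namespace Pool.Agent.Lib.MP_a0554b_an.P

open Filter Topology Set
open scoped ENNReal
open Pool.Agent.Lib.MP_a0554b_an

universe u v w

variable {𝕜 : Type v} [RCLike 𝕜] {X : Type u} [NormedAddCommGroup X] [NormedSpace 𝕜 X]

/-- A subspace `Z` of `N` is complemented in `N`: it is the range of a bounded projection of `N`. -/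
def ComplementedIn (Z N : Submodule 𝕜 X) : Prop :=
  ∃ P : N →L[𝕜] N, (∀ x, (P x : X) ∈ Z) ∧ ∀ x : N, (x : X) ∈ Z → P x = x

theorem fac_of_complemented {M N Z : Submodule 𝕜 X} (hMN : M ≤ N) (hZM : Z ≤ M)
    (e : Z ≃L[𝕜] X) (hZ : ComplementedIn Z N) : ∃ K : ℝ, Fac K M N := by
  obtain ⟨P, h1, h2⟩ := hZ
  let A : X →L[𝕜] N :=
    (Z.subtypeL ∘L (e.symm : X →L[𝕜] Z)).codRestrict N fun x => hMN (hZM (e.symm x).2)
  let P' : N →L[𝕜] Z := (N.subtypeL ∘L P).codRestrict Z fun x => h1 x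
  let B : N →L[𝕜] X := (e : Z →L[𝕜] X) ∘L P'
  have hP' : ∀ z : Z, ∀ hz : (z : X) ∈ N, P' ⟨z, hz⟩ = z := by
    intro z hz
    apply Subtype.ext
    change ((P ⟨z, hz⟩ : N) : X) = z
    rw [h2 ⟨z, hz⟩ z.2]
  refine ⟨max ‖A‖ ‖B‖, A, B, fun x => ?_, fun x => hZM (e.symm x).2, fun x => ?_, fun x => ?_⟩
  · change e (P' ⟨e.symm x, _⟩) = x
    rw [hP' (e.symm x), e.apply_symm_apply]
  · exact (A.le_opNorm x).trans (mul_le_mul_of_nonneg_right (le_max_left _ _) (norm_nonneg _))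
  · exact (B.le_opNorm x).trans (mul_le_mul_of_nonneg_right (le_max_right _ _) (norm_nonneg _))

theorem dichotomy [CompleteSpace X] (b : SchauderBasis 𝕜 X) (hu : Unconditional b)
    (hb : BlockHomogeneous b) :
    (∃ C : ℝ, BlockHomogeneousWith b C) ∨
      ∀ y₀ : ℕ → X, IsBlock b y₀ → ∃ y : ℕ → X, IsBlock b y ∧
        (∀ k, y k ∈ Submodule.span 𝕜 (Set.range y₀)) ∧
        ∀ Z : Submodule 𝕜 X, Z ≤ closedSpan 𝕜 y → Nonempty (Z ≃L[𝕜] X) →
          ¬ ComplementedIn Z (closedSpan 𝕜 y₀) := by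
  by_contra hcon
  push Not at hcon
  obtain ⟨h1, y₀, hy₀, h2⟩ := hcon
  obtain ⟨C, hC⟩ := main_unconditional b hu hb y₀ hy₀ (fun y hy hyy => by
    obtain ⟨Z, hZ1, ⟨e⟩, hZ2⟩ := h2 y hy hyy
    refine fac_of_complemented ?_ hZ1 e hZ2
    exact cs_le (cs_isClosed _) (by
      rintro x ⟨k, rfl⟩
      exact (Submodule.span 𝕜 (Set.range y₀)).le_topologicalClosure (hyy k)))
  exact h1 C hC

end Pool.Agent.Lib.MP_a0554b_an.P
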