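import Mathlib
import Pool.Agent.Lib.MP_a0554b_an.P.Z2
import Pool.Agent.Lib.MP_a0554b_an.P.Y1
import Pool.Agent.Lib.MP_a0554b_an.P.E2

set_option autoImplicit false

/-!
# Everything together
-/

noncomputable section

namespace Pool.Agent.Lib.MP_a0554b_an.P

open Filter Topology Set
open scoped ENNReal
open Pool.Agent.Lib.MP_a0554b_an

universe u v w

variable {𝕜 : Type v} [RCLike 𝕜] {X : Type u} [NormedAddCommGroup X] [NormedSpace 𝕜 X]

theorem uniform_or_shrinking [CompleteSpace X] (b : SchauderBasis 𝕜 X) (hu : Unconditional b)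
    (hb : BlockHomogeneous b) : (∃ C : ℝ, BlockHomogeneousWith b C) ∨ Shrinking b := by
  by_cases hbc : BoundedlyComplete b
  · by_cases hs : Shrinking b
    · exact Or.inr hs
    · exact Or.inl (uniform_of_contains_one b hb hbc.upTo (contains_l1 b hu hs))
  · exact Or.inl (uniform_of_contains (p := ∞) (by simp) b hb (contains_c0 b hu hbc))

theorem absorb_isoC [CompleteSpace X] (b : SchauderBasis 𝕜 X) (hu : Unconditional b)
    (hb : BlockHomogeneous b) :
    ∃ C : ℝ, ∀ y : ℕ → X, IsBlock b y → IsoC 𝕜 C (X × closedSpan 𝕜 y) X := by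
  obtain ⟨C, hC, h⟩ := exists_absorb b hu hb
  exact ⟨C * C, fun y hy => (h y hy).toIsoC hC⟩

theorem not_uniform [CompleteSpace X] (b : SchauderBasis 𝕜 X) (hu : Unconditional b)
    (hb : BlockHomogeneous b) (hn : ¬ ∃ C : ℝ, BlockHomogeneousWith b C) (y₀ : ℕ → X) (C : ℝ)
    (hy₀ : IsBlock b y₀) :
    ∃ y : ℕ → X, BlockOf b y₀ y ∧
      (∀ j : ℕ → ℕ, StrictMono j → ¬ IsoC 𝕜 C (closedSpan 𝕜 (fun k => y (j k))) X) ∧
      ∀ Z : Submodule 𝕜 X, Z ≤ closedSpan 𝕜 y → Nonempty (Z ≃L[𝕜] X) →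
        ¬ ComplementedIn Z (closedSpan 𝕜 y₀) := by
  have hs : Shrinking b := (uniform_or_shrinking b hu hb).resolve_left hn
  rcases dichotomy b hu hb with h | h
  · exact absurd h hn
  obtain ⟨y', hy1, hy2, hy3⟩ := h y₀ hy₀
  obtain ⟨y, hy, hC⟩ : ∃ y : ℕ → X, BlockOf b y' y ∧ ∀ j : ℕ → ℕ, StrictMono j →
      ¬ IsoC 𝕜 C (closedSpan 𝕜 (fun k => y (j k))) X := by
    by_contra hcon
    push Not at hcon
    apply hn
    refine local_shrinking b hu hb hs y' hy1 (C := max C 1) (by positivity) (fun y hy => ?_)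
    obtain ⟨j, hj, h⟩ := hcon y hy
    exact ⟨j, hj, h.toIsoB⟩
  have hle : closedSpan 𝕜 y ≤ closedSpan 𝕜 y' := cs_le (cs_isClosed _) (by
    rintro x ⟨k, rfl⟩
    exact (Submodule.span 𝕜 (Set.range y')).le_topologicalClosure (hy.mem k))
  exact ⟨y, BlockOf.trans ⟨hy1, hy2⟩ hy, hC, fun Z hZy => hy3 Z (hZy.trans hle)⟩

end Pool.Agent.Lib.MP_a0554b_an.P
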